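import Pool.Agent.Lib.MP_98850d_an.Bk

/-! # MP_98850d_an: functions for a finite open cover -/

set_option autoImplicit false

namespace Pool.Agent.MP98850d

open Set Filter Topology

universe u

theorem tBmp : S_Bmp.{u} := by
  intro q X _ _ V hV hcov
  rcases isEmpty_or_nonempty X with hX | hX
  · exact ⟨fun _ _ => 0, fun _ => continuous_const, fun _ x => (hX.false x).elim,
      fun _ x => (hX.false x).elim, fun x => (hX.false x).elim⟩
  choose f hf hf0 hfV using fun k => bk_f (hV k)
  have hF : Continuous (fun x => ∑ k, f k x) := continuous_finsetSum _ (fun k _ => hf k)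
  have hex : ∀ x, ∃ k, x ∈ V k := by
    intro x
    have h : x ∈ ⋃ j, V j := by rw [hcov]; exact mem_univ x
    exact mem_iUnion.1 h
  have hFpos : ∀ x, 0 < ∑ k, f k x := by
    intro x
    obtain ⟨k, hk⟩ := hex x
    exact lt_of_lt_of_le ((hfV k x).2 hk) (Finset.single_le_sum (f := fun k => f k x)
      (fun k _ => hf0 k x) (Finset.mem_univ k))
  obtain ⟨x1, -, hx1⟩ := isCompact_univ.exists_isMinOn univ_nonempty hF.continuousOn
  set c := ∑ k, f k x1 with hc
  have hcpos : 0 < c := hFpos x1
  have hmin : ∀ x, c ≤ ∑ k, f k x := fun x => hx1 (mem_univ x)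
  obtain ⟨k0, -⟩ := hex x1
  have hq : (0 : ℝ) < q := by
    exact_mod_cast k0.pos
  refine ⟨fun k x => min 1 (f k x * (q / c)), ?_, ?_, ?_, ?_⟩
  · intro k
    exact continuous_const.min ((hf k).mul continuous_const)
  · intro k x
    exact ⟨le_min zero_le_one (mul_nonneg (hf0 k x) (by positivity)), min_le_left _ _⟩
  · intro k x h
    have h1 : f k x = 0 := by
      by_contra hne
      exact h ((hfV k x).1 (lt_of_le_of_ne (hf0 k x) (Ne.symm hne)))
    change min 1 (f k x * (q / c)) = 0
    rw [h1, zero_mul]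
    norm_num
  · intro x
    have hsum : ∑ _k : Fin q, c / q ≤ ∑ k, f k x := by
      rw [Finset.sum_const, Finset.card_univ, Fintype.card_fin, nsmul_eq_mul]
      have : (q : ℝ) * (c / q) = c := by field_simp
      rw [this]
      exact hmin x
    obtain ⟨k, -, hk⟩ := Finset.exists_le_of_sum_le ⟨k0, Finset.mem_univ k0⟩ hsum
    refine ⟨k, ?_⟩
    change min 1 (f k x * (q / c)) = 1
    apply min_eq_left
    calc (1 : ℝ) = (c / q) * (q / c) := by field_simp
      _ ≤ _ := mul_le_mul_of_nonneg_right hk (by positivity)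

end Pool.Agent.MP98850d
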