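import Pool.Agent.Lib.MP_98850d_an.SpecB

/-! # MP_98850d_an: covering a cube by small cubes -/

set_option autoImplicit false

namespace Pool.Agent.MP98850d

open Set Filter Topology

theorem tCube : S_Cube := by
  intro d M hM
  refine ⟨2 * M + 1, by positivity, fun ε hε hε1 => ?_⟩
  set N : ℕ := ⌊2 * M / ε⌋₊ + 1 with hN
  refine ⟨Fin d → Fin N, inferInstance, fun z => {p | ∀ i, 0 ≤ p i + M ∧ ⌊(p i + M) / ε⌋₊ = (z i : ℕ)},
    ?_, ?_, ?_⟩
  · rw [Fintype.card_fun, Fintype.card_fin, Fintype.card_fin, Nat.cast_pow]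
    apply pow_le_pow_left₀ (Nat.cast_nonneg _)
    rw [hN, Nat.cast_add, Nat.cast_one, add_div]
    have h1 : (⌊2 * M / ε⌋₊ : ℝ) ≤ 2 * M / ε := Nat.floor_le (by positivity)
    have h2 : 1 ≤ 1 / ε := by rw [le_div_iff₀ hε]; linarith
    linarith
  · intro p hp
    rw [mem_closedBall_zero_iff] at hp
    have hpi : ∀ i, 0 ≤ p i + M ∧ p i + M ≤ 2 * M := by
      intro i
      have h := abs_le.1 ((norm_le_pi_norm p i).trans hp)
      constructor
      · linarith [h.1]
      · linarith [h.2]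
    rw [mem_iUnion]
    refine ⟨fun i => ⟨⌊(p i + M) / ε⌋₊, ?_⟩, fun i => ⟨(hpi i).1, rfl⟩⟩
    rw [hN]
    apply Nat.lt_succ_of_le
    apply Nat.floor_le_floor
    exact div_le_div_of_nonneg_right (hpi i).2 hε.le
  · intro z p hp p' hp'
    rw [dist_pi_le_iff hε.le]
    intro i
    obtain ⟨h0, h1⟩ := hp i
    obtain ⟨h0', h1'⟩ := hp' i
    rw [Nat.floor_eq_iff (by positivity), le_div_iff₀ hε, div_lt_iff₀ hε] at h1 h1'
    rw [Real.dist_eq, abs_le]
    constructor <;> nlinarith [h1.1, h1.2, h1'.1, h1'.2]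

end Pool.Agent.MP98850d
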