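import Pool.Agent.Lib.MP_98850d_an.SpecB

/-! # MP_98850d_an: union bound for the parameters -/

set_option autoImplicit false

namespace Pool.Agent.MP98850d

open Set Filter Topology MeasureTheory

universe u

theorem tUB : S_UB.{u} := by
  classical
  intro X N J _ val α κ _ B ε hε hcov hosc hsum
  rcases isEmpty_or_nonempty X with hX | hX
  · exact ⟨fun _ => 0, fun _ => ⟨le_rfl, zero_le_one⟩, fun x => (hX.false x).elim⟩
  have hy : ∀ i : κ, ∃ y : X, ∀ x ∈ B i, y ∈ B i := by
    intro i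
    by_cases h : (B i).Nonempty
    · obtain ⟨y, hy⟩ := h
      exact ⟨y, fun _ _ => hy⟩
    · exact ⟨hX.some, fun x hx => absurd ⟨x, hx⟩ h⟩
  choose y hy using hy
  set Bad : κ → Set ℝ := fun i => ⋃ j, Icc (4 * (val j (y i) - α j) - 4 * ε i)
    (4 * (val j (y i) - α j) + 4 * ε i) with hBad
  have hvol : ∀ i, volume (Bad i) ≤ ENNReal.ofReal (8 * (Fintype.card J : ℝ) * ε i) := by
    intro i
    rw [hBad]
    refine (measure_iUnion_fintype_le _ _).trans ?_
    have h1 : ∀ j : J, volume (Icc (4 * (val j (y i) - α j) - 4 * ε i)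
        (4 * (val j (y i) - α j) + 4 * ε i)) = ENNReal.ofReal (8 * ε i) := by
      intro j
      rw [Real.volume_Icc]
      congr 1
      ring
    rw [Finset.sum_congr rfl (fun j _ => h1 j), Finset.sum_const, Finset.card_univ,
      ← ENNReal.ofReal_nsmul, nsmul_eq_mul]
    apply ENNReal.ofReal_le_ofReal
    apply le_of_eq
    ring
  have hpi : ∀ i, volume (Set.pi univ (fun _ : Fin N => Bad i)) ≤
      ENNReal.ofReal ((8 * (Fintype.card J : ℝ)) ^ N * ε i ^ N) := by
    intro i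
    rw [volume_pi_pi, Finset.prod_const, Finset.card_univ, Fintype.card_fin, ← mul_pow,
      ENNReal.ofReal_pow (by have := hε i; positivity)]
    exact pow_le_pow_left₀ zero_le (hvol i) N
  have hex : ∃ s ∈ Icc (0 : Fin N → ℝ) 1, s ∉ ⋃ i, Set.pi univ (fun _ : Fin N => Bad i) := by
    by_contra hcon
    push Not at hcon
    have h1 : volume (Icc (0 : Fin N → ℝ) 1) ≤ volume (⋃ i, Set.pi univ (fun _ : Fin N => Bad i)) :=
      measure_mono hcon
    have h2 := (measure_iUnion_fintype_le (volume : Measure (Fin N → ℝ))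
      (fun i => Set.pi univ (fun _ : Fin N => Bad i)))
    have h3 : ∑ i, volume (Set.pi univ (fun _ : Fin N => Bad i)) ≤
        ENNReal.ofReal (∑ i, (8 * (Fintype.card J : ℝ)) ^ N * ε i ^ N) := by
      rw [ENNReal.ofReal_sum_of_nonneg (fun i _ => by have := hε i; positivity)]
      exact Finset.sum_le_sum (fun i _ => hpi i)
    rw [← Finset.mul_sum] at h3
    have h4 : volume (Icc (0 : Fin N → ℝ) 1) = 1 := by
      rw [Real.volume_Icc_pi]
      simp
    rw [h4] at h1
    have h5 := h1.trans (h2.trans h3)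
    have h6 : ENNReal.ofReal ((8 * (Fintype.card J : ℝ)) ^ N * ∑ i, ε i ^ N) < 1 := by
      rw [← ENNReal.ofReal_one]
      exact (ENNReal.ofReal_lt_ofReal_iff one_pos).2 hsum
    exact absurd (lt_of_le_of_lt h5 h6) (lt_irrefl _)
  obtain ⟨s, ⟨hs0, hs1⟩, hs⟩ := hex
  refine ⟨s, fun k => ⟨hs0 k, hs1 k⟩, fun x => ?_⟩
  obtain ⟨i, hi⟩ := hcov x
  have h1 : s ∉ Set.pi univ (fun _ : Fin N => Bad i) := fun h => hs (mem_iUnion.2 ⟨i, h⟩)
  rw [Set.mem_univ_pi] at h1
  push Not at h1
  obtain ⟨k, hk⟩ := h1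
  refine ⟨k, fun j hj => hk ?_⟩
  rw [hBad]
  refine mem_iUnion.2 ⟨j, ?_⟩
  have h2 := abs_le.1 (hosc i x hi (y i) (hy i x hi) j)
  constructor <;> linarith [h2.1, h2.2]

end Pool.Agent.MP98850d
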