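import Pool.Agent.Lib.MP_98850d_an.Defs

/-!
# MP_98850d_an, SpecA: boxes of bounded multiplicity for free actions of `ℝ^n`

MAIN THEOREM of the package: a compact space which embeds in some `ℝ^m` and carries a minimal action of `ℝ^n`,
`n ≥ 1`, carries a minimal flow.  This file: every free action of `ℝ^n` on a compact subset of `ℝ^m` has
`NN n m` systems of boxes of size `2` whose cores cover the space (`S_Box`).  The number `NN n m` does not depend on
the action; by rescaling one gets boxes of any size (`S_BoxA`).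

Every `S_...` is a statement to be proved in its own file `Pool/Agent/Lib/MP_98850d_an/....lean`; the docstring
contains the complete proof.  `a u x` is the action, `a (u + v) x = a u (a v x)`; `‖·‖` is the sup norm of
`E n = Fin n → ℝ`.  Basic lemmas on `a`, `hgt`, `om`, `kap` are in Defs.lean.
-/

set_option autoImplicit false

namespace Pool.Agent.MP98850d

open Set Filter Topology

universe u

/-! ## Local sections and a finite dimensional family of functions -/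

/-- (about 60 lines) **Small neighbourhoods.**

Proof.  Otherwise for every `i` there are `x_i ∈ ball x0 (1/(i+1))` and `u_i` with `a u_i x_i ∈ ball x0 (1/(i+1))`,
`r ≤ ‖u_i‖ ≤ w`.  The set of all `u` with `r ≤ ‖u‖ ≤ w` is compact; for the limit `u` of a subsequence
`a u x0 = x0` by continuity, so `u = 0` as the action is free, but `‖u‖ ≥ r > 0`. -/
def S_Nbd : Prop :=
  ∀ (n : ℕ) (X : Type u) [MetricSpace X] (a : Flow (E n) X) (r w : ℝ) (x0 : X), FreeA a → 0 < r →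
    ∃ V : Set X, IsOpen V ∧ x0 ∈ V ∧ Cls a r w V

/-- (about 120 lines; uses `S_Nbd`) **Equivariant coordinates near a point.**

Proof.  Let `Q ≥ 0`.  Take `V` from `S_Nbd` for `r = 1`, `w = 2 Q + 1`, a continuous `b : X → [0, 1]` with
`b x0 = 1` and `b = 0` outside `V` (for example `max 0 (1 - dist x x0 / ρ)` with `ball x0 ρ ⊆ V`), and
`D = {b ≥ 1/2}`.  Let `C = 2 (2 Q + 1)` and
`P y i = sSup {v i + C * b (a v y) : ‖v‖ ≤ Q + 1}`, continuous by `IsCompact.continuous_sSup`.  Let `x ∈ D`,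
`‖u‖ ≤ Q` and `m i = sSup {w i + C * b (a w x) : ‖w‖ ≤ 1}`.  CLAIM: `P (a u x) i = m i - u i`; with `u = 0` this
gives `P (a u x) i = P x i - u i`.  Put `w = v + u`: `P (a u x) i` is the supremum of `w i - u i + C * b (a w x)`
over `‖w - u‖ ≤ Q + 1`.  All `w` with `‖w‖ ≤ 1` are allowed.  Let `w` be allowed.  If `b (a w x) > 0` then `x ∈ V`,
`a w x ∈ V`, `‖w‖ ≤ 2 Q + 1`, so `‖w‖ < 1`.  If `b (a w x) = 0` the value is `w i - u i ≤ Q + 1`, and
`m i - u i ≥ C * b x - u i ≥ C / 2 - Q = Q + 1` (`w = 0`). -/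
def S_LocP : Prop :=
  ∀ (n : ℕ) (X : Type u) [MetricSpace X] (a : Flow (E n) X) (Q : ℝ) (x0 : X), FreeA a →
    ∃ D ∈ 𝓝 x0, ∃ P : X → E n, Continuous P ∧ ∀ x ∈ D, ∀ u : E n, ‖u‖ ≤ Q → P (a u x) = P x - u

/-- (about 100 lines) **Approximation by Lipschitz functions of an embedding.**

Proof.  We may assume that `X` is nonempty.  For `L > 0` let
`G p = ⨅ x, (f x + L * dist p (χ x))` (bounded below), an `L`-Lipschitz function with `G (χ x) ≤ f x`.  Let
`|f| ≤ M`.  By compactness there is `δ > 0` with `dist (χ x) (χ x') < δ → |f x - f x'| < τ / 2` (otherwise there are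
sequences `x_i → x`, `x'_i → x'` with `χ x = χ x'`, so `x = x'`, and `|f x - f x'| ≥ τ / 2`).  Let `L > 2 M / δ`.  If
`f x' + L * dist (χ x) (χ x') ≤ f x` then `dist (χ x) (χ x') ≤ 2 M / L < δ`, so `f x' ≥ f x - τ / 2`.  So
`G (χ x) ≥ f x - τ / 2`. -/
def S_Lip : Prop :=
  ∀ (X : Type u) [MetricSpace X] [CompactSpace X] (Y : Type) [MetricSpace Y] (χ : X → Y) (f : X → ℝ)
    (τ : ℝ), Continuous χ → Function.Injective χ → Continuous f → 0 < τ →
    ∃ (G : Y → ℝ) (L : ℝ), 0 < L ∧ (∀ p p', |G p - G p'| ≤ L * dist p p') ∧ ∀ x, |f x - G (χ x)| < τ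

/-- (about 60 lines) **Covering a cube by small cubes.**

Proof.  `C = 2 M + 3`.  Sets: for `z : Fin d → ℤ` with `-(M/ε) - 1 ≤ z i ≤ M/ε` the set of all `p` with
`⌊p i / ε⌋ = z i` for all `i`; there are at most `2 M / ε + 3 ≤ C / ε` values for every coordinate.  (Use for example
`Fintype.piFinset` of `Finset.Icc (-⌈M/ε⌉ - 1) ⌈M/ε⌉`, with a suitable constant `C`.) -/
def S_Cube : Prop :=
  ∀ (d : ℕ) (M : ℝ), 0 ≤ M → ∃ C : ℝ, 0 < C ∧ ∀ ε : ℝ, 0 < ε → ε ≤ 1 →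
    ∃ (κ : Type) (_ : Fintype κ) (B : κ → Set (E d)), (Fintype.card κ : ℝ) ≤ (C / ε) ^ d ∧
      Metric.closedBall 0 M ⊆ ⋃ i, B i ∧ ∀ i, ∀ p ∈ B i, ∀ p' ∈ B i, dist p p' ≤ ε

/-- (about 150 lines; uses `S_Lip`, `S_Cube`) **The covering property is dense.**

Proof.  `χ y = (P y, ι (a (P y) y)) : E n × E m` is continuous and injective: if `χ y = χ y'` then `P y = P y'`
and `a (P y) y = a (P y') y'`, so `y = y'` (`act_inj`).  `S_Lip` gives `G j`, `L j` with
`|b j y - G j (χ y)| < τ`; `b' j y = G j (χ y)`, `L = max (L j)`.  For `x ∈ D`, `‖u‖ ≤ Q`: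
`χ (a u x) = (P x - u, ι (a (P x - u) (a u x))) = (P x - u, ι (a (P x) x))`.  So for `x, x' ∈ D`
`|b' j (a u x) - b' j (a u x')| ≤ L * dist (χ x) (χ x')`.  Let `M` bound `‖P y‖`, `‖ι y‖` (`X` compact), `C1`, `C2`
from `S_Cube` for `(n, M)`, `(m, M)`.  For `0 < ε ≤ 1` the sets
`{x ∈ D | P x ∈ B i, ι (a (P x) x) ∈ B' i'}` cover `D`, there are at most `(C1/ε)^n (C2/ε)^m` of them, and
the functions oscillate by at most `L * ε` on them (`dist` on the product is the maximum).  With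
`ε i = L * ε` the sum is at most `C1^n C2^m L^(n+m+1) ε → 0`. -/
def S_CovD : Prop :=
  ∀ (n m q : ℕ) (X : Type u) [MetricSpace X] [CompactSpace X] (a : Flow (E n) X) (ι : X → E m) (Q : ℝ)
    (D : Set X) (P : X → E n) (b : Fin q → X → ℝ) (τ η : ℝ), Continuous ι → Function.Injective ι →
    Continuous P → (∀ x ∈ D, ∀ u : E n, ‖u‖ ≤ Q → P (a u x) = P x - u) → (∀ j, Continuous (b j)) →
    0 < τ → 0 < η →
    ∃ b' : Fin q → X → ℝ, (∀ j, Continuous (b' j)) ∧ (∀ j x, |b' j x - b j x| < τ) ∧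
      Cov a Q b' D (n + m + 1) η

/-- (about 60 lines) **The covering property is open and additive.**

Proof.  (1) Keep `B`, replace `ε i` by `ε i + 2 τ`; the sum `∑ (ε i + 2 τ)^N` is a continuous function of `τ`,
less than `η` at `τ = 0`.  (2) The index type is the sum type. -/
def S_CovO : Prop :=
  ∀ (n q : ℕ) (X : Type u) [MetricSpace X] (a : Flow (E n) X) (Q : ℝ) (N : ℕ),
    (∀ (b : Fin q → X → ℝ) (S : Set X) (η : ℝ), Cov a Q b S N η → ∃ τ : ℝ, 0 < τ ∧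
      ∀ b' : Fin q → X → ℝ, (∀ j x, |b' j x - b j x| ≤ τ) → Cov a Q b' S N η) ∧
    ∀ (b : Fin q → X → ℝ) (S S' : Set X) (η η' : ℝ), Cov a Q b S N η → Cov a Q b S' N η' →
      Cov a Q b (S ∪ S') N (η + η')

/-- (about 100 lines; uses `S_LocP`, `S_CovD`, `S_CovO`) **Approximation by functions with the covering
property.**

Proof.  By `S_LocP` and compactness `X` is covered by finitely many sets `D_1, ..., D_K` with equivariant
coordinates.  Show by induction on `k ≤ K`, for all `b, τ, η`: there is `b'` with `|b' - b| < τ` and `Cov` on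
`D_1 ∪ ... ∪ D_k` with bound `η`.  (For `k = 0`: `b' = b`, no sets.)  Step: apply the induction hypothesis with
`τ/2`, `η/2` to get `b1`, let `τ1` be from `S_CovO` (1) for it, apply `S_CovD` to `b1` with `min (τ/2) τ1`, `η/2`,
and use `S_CovO` (2). -/
def S_NF : Prop :=
  ∀ (n m q : ℕ) (X : Type u) [MetricSpace X] [CompactSpace X] (a : Flow (E n) X) (ι : X → E m) (Q : ℝ)
    (b : Fin q → X → ℝ) (τ η : ℝ), FreeA a → Continuous ι → Function.Injective ι →
    (∀ j, Continuous (b j)) → 0 < τ → 0 < η →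
    ∃ b' : Fin q → X → ℝ, (∀ j, Continuous (b' j)) ∧ (∀ j x, |b' j x - b j x| < τ) ∧
      Cov a Q b' univ (n + m + 1) η

/-- (about 70 lines) **Functions for a finite open cover.**

Proof.  `f j x = Metric.infDist x (V j)ᶜ` if `(V j)ᶜ` is nonempty and `f j x = 1` otherwise: continuous,
nonnegative, `0` outside `V j`, positive on `V j`.  `F x = ∑ j, f j x` is positive, so by compactness
`F ≥ c > 0`; `β j x = min 1 (f j x * q / c)`: for every `x` some `f j x ≥ c / q`. -/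
def S_Bmp : Prop :=
  ∀ (q : ℕ) (X : Type u) [MetricSpace X] [CompactSpace X] (V : Fin q → Set X), (∀ j, IsOpen (V j)) →
    (⋃ j, V j) = univ → ∃ β : Fin q → X → ℝ, (∀ j, Continuous (β j)) ∧
      (∀ j x, 0 ≤ β j x ∧ β j x ≤ 1) ∧ (∀ j x, x ∉ V j → β j x = 0) ∧ ∀ x, ∃ j, β j x = 1

/-- (about 80 lines; uses `S_Nbd`, `S_NF`, `S_Bmp`) **The types.**

Proof.  Cover `X` by finitely many open `V j` with `Cls a r 20 (V j)` (`S_Nbd`), `j : Fin q`; let `β` be from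
`S_Bmp`.  For given `Q, η` let `β'` be from `S_NF` with `τ = 1/16`, and `b j x = max 0 (min 1 (β' j x - 1/16))`.
`b j x > 0` implies `β j x > 0`, so `x ∈ V j`; `β j x = 1` implies `b j x ≥ 7/8`.  `Cov` passes from `β'` to `b` as
`t ↦ max 0 (min 1 (t - 1/16))` is `1`-Lipschitz. -/
def S_Typ : Prop :=
  ∀ (n m : ℕ) (X : Type u) [MetricSpace X] [CompactSpace X] (a : Flow (E n) X) (ι : X → E m) (r : ℝ),
    FreeA a → Continuous ι → Function.Injective ι → 0 < r → ∃ q : ℕ, ∀ Q η : ℝ, 0 < η →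
      ∃ b : Fin q → X → ℝ, Bas a r b ∧ (∀ x, ∃ j, 3 / 4 < b j x) ∧ Cov a Q b univ (n + m + 1) η

/-! ## Choice of the parameters -/

/-- the supremum of `b` over the ball of radius `3 r` around the position `c` -/
noncomputable def val1 {n : ℕ} {X : Type u} [TopologicalSpace X] (a : Flow (E n) X) (r : ℝ)
    (b : X → ℝ) (c : E n) (x : X) : ℝ :=
  sSup ((fun u => b (a u x)) '' Metric.closedBall c (3 * r))

/-- the interaction of `b` near the position `c` and `b'` near the position `c'` -/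
noncomputable def val2 {n : ℕ} {X : Type u} [TopologicalSpace X] (a : Flow (E n) X) (r W : ℝ)
    (b b' : X → ℝ) (c c' : E n) (x : X) : ℝ :=
  sSup ((fun p : E n × E n => min (b (a p.1 x)) (min (b' (a p.2 x)) (kap W (p.2 - p.1)))) ''
    (Metric.closedBall c (3 * r) ×ˢ Metric.closedBall c' (3 * r)))

/-- (about 80 lines) **`val1`, `val2` are `1`-Lipschitz.**

Proof.  Suprema over a nonempty compact set of functions of `u` (of `(u, v)`) which differ by at most `ε`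
(`min` is `1`-Lipschitz in every argument; `kap` is the same for `x` and `x'`; all `u` which occur satisfy
`‖u‖ ≤ ‖c‖ + 3 r ≤ Q`). -/
def S_ValL : Prop :=
  ∀ (n : ℕ) (X : Type u) [MetricSpace X] (a : Flow (E n) X) (r W Q ε : ℝ) (b b' : X → ℝ) (c c' : E n)
    (x x' : X), 0 ≤ r → 0 ≤ ε → Continuous b → Continuous b' → ‖c‖ + 3 * r ≤ Q → ‖c'‖ + 3 * r ≤ Q →
    (∀ u : E n, ‖u‖ ≤ Q → |b (a u x) - b (a u x')| ≤ ε) →
    (∀ u : E n, ‖u‖ ≤ Q → |b' (a u x) - b' (a u x')| ≤ ε) →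
    |val1 a r b c x - val1 a r b c x'| ≤ ε ∧ |val2 a r W b b' c c' x - val2 a r W b b' c c' x'| ≤ ε

/-- (about 100 lines) **`hgt` and `om` are values at the points of a net.**

Proof.  (1) `hgt a r b (a u1 x)` is the supremum of `b (a u x)` over `‖u - u1‖ ≤ r`, and these `u` satisfy
`‖u - c‖ ≤ 2 r`.  Conversely let `‖u - c‖ ≤ 3 r`; if `b (a u x) > 0` then `‖u - u1‖ ≤ 4 r ≤ 20`, and `a u1 x`,
`a u x = a (u - u1) (a u1 x)` are in `{0 < b}`, so `‖u - u1‖ < r`; if `b (a u x) = 0` it does not exceed the supremum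
`≥ b (a u1 x) > 0`.  (2) in the same way (`lt_om`): for `t ≥ 0` a pair `(u, v)` with `‖u - c‖, ‖v - c'‖ ≤ 3 r`,
`t < b (a u x)`, `t < b' (a v x)`, `t < kap W (v - u)` satisfies `‖u - u1‖ < r`, `‖v - v1‖ < r`, and conversely;
both sides are nonnegative (`om_nonneg`, the same for `val2`). -/
def S_NetV : Prop :=
  ∀ (n : ℕ) (X : Type u) [MetricSpace X] (a : Flow (E n) X) (r W : ℝ) (b b' : X → ℝ)
    (c c' u1 v1 : E n) (x : X), 0 < r → r ≤ 1 / 8 → Continuous b → Continuous b' → (∀ x, 0 ≤ b x) →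
    (∀ x, 0 ≤ b' x) → Cls a r 20 {x | 0 < b x} → Cls a r 20 {x | 0 < b' x} → ‖u1 - c‖ ≤ r →
    ‖v1 - c'‖ ≤ r → 0 < b (a u1 x) → 0 < b' (a v1 x) →
    hgt a r b (a u1 x) = val1 a r b c x ∧
    om a r W b b' (a u1 x) (v1 - u1) = val2 a r W b b' c c' x

/-- (about 150 lines) **Union bound for the parameters.**

Proof.  We may assume that all `B i` are nonempty (drop the others: the sum becomes smaller); choose `y i ∈ B i`.
`Bad i = {t ∈ [0, 1] : |val j (y i) - (α j + t/4)| ≤ ε i for some j}` is contained in the union of `card J`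
closed intervals of length `8 ε i`, so its measure is at most `8 (card J) (ε i)`.  The set of the `s : Fin N → ℝ`
with `s k ∈ Bad i` for all `k` has measure at most `(8 (card J) (ε i))^N` (`MeasureTheory.Measure.pi_pi`, or
`Real.volume_pi...`); the sum over `i` is less than `1`, the measure of `[0, 1]^N`.  So some `s ∈ [0, 1]^N` is in none
of them.  For `x ∈ B i` there is `k` with `s k ∉ Bad i`, and then
`|val j x - (α j + s k / 4)| ≥ |val j (y i) - (α j + s k / 4)| - |val j x - val j (y i)| > 0` for all `j`. -/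
def S_UB : Prop :=
  ∀ (X : Type u) (N : ℕ) (J : Type) [Fintype J] (val : J → X → ℝ) (α : J → ℝ) (κ : Type) [Fintype κ]
    (B : κ → Set X) (ε : κ → ℝ), (∀ i, 0 < ε i) → (∀ x, ∃ i, x ∈ B i) →
    (∀ i, ∀ x ∈ B i, ∀ x' ∈ B i, ∀ j, |val j x - val j x'| ≤ ε i) →
    (8 * (Fintype.card J : ℝ)) ^ N * ∑ i, ε i ^ N < 1 →
    ∃ s : Fin N → ℝ, (∀ k, 0 ≤ s k ∧ s k ≤ 1) ∧ ∀ x, ∃ k, ∀ j, val j x ≠ α j + s k / 4

/-- (about 30 lines) **Finite nets of balls.**  Compactness of the ball. -/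
def S_Net : Prop :=
  ∀ (n : ℕ) (M r : ℝ), 0 < r → ∃ A : Finset (E n), (∀ c ∈ A, ‖c‖ ≤ M) ∧
    ∀ u : E n, ‖u‖ ≤ M → ∃ c ∈ A, ‖u - c‖ ≤ r

/-- (about 150 lines; uses `S_ValL`, `S_NetV`, `S_UB`, `S_Net`) **Choice of the parameters.**

Proof.  Let `A` be from `S_Net` for `(Q, r)`.  The index type `J` is the sum of `Fin q × A` (values
`val1 a r (b j) c`, `α = 1/2`) and `Fin q × Fin q × A × A × Bool` (values `val2 a r W (b j) (b i) c c'` with
`W = 1` or `8`, `α = 1/4`).  Let `η = (8 (card J) + 1)^(-N)`, so `(8 card J)^N * ∑ ε^N < 1` if `∑ ε^N < η`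
(`∑ ε^N ≥ 0`; `(8 card J)^N ≤ (8 card J + 1)^N`).  By `S_ValL` (`3 r ≤ 1`) the sets of `Cov` satisfy the
hypothesis of `S_UB`.  Let `s` be from `S_UB`, `x` given, `k` from there.  `Good`: let `‖u‖ ≤ Q`,
`1/4 ≤ b j (a u x)`; take `c ∈ A` with `‖u - c‖ ≤ r`; by `S_NetV` (with `b' = b`, `v1 = u1`, `c' = c`)
`hgt a r (b j) (a u x) = val1 ... c x ≠ 1/2 + s k / 4`.  The same for `om` (`W = 1` or `8`). -/
def S_Sel : Prop :=
  ∀ (n q N : ℕ) (Q r : ℝ), 0 < r → r ≤ 1 / 8 → ∃ η : ℝ, 0 < η ∧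
    ∀ (X : Type u) [MetricSpace X] (a : Flow (E n) X) (b : Fin q → X → ℝ), Bas a r b →
      Cov a (Q + 1) b univ N η →
      ∃ s : Fin N → ℝ, (∀ k, 0 ≤ s k ∧ s k ≤ 1) ∧ ∀ x, ∃ k, Good a r Q (s k) b x

/-! ## The greedy labelling

In this section `0 < r ≤ 1/8`, `0 ≤ s ≤ 1`, `Bas a r b`.  The points with `0 < b j` of one orbit form clusters of
diameter less than `r`, different clusters of the same type `j` have distance more than `20`. -/

/-- (about 50 lines) **Existence of the labelling.**  Well-founded recursion on `j : Fin q`: `Used ... st W j y`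
depends only on the functions `st i` with `i < j`. -/
def S_StE : Prop :=
  ∀ (n q : ℕ) (X : Type u) [MetricSpace X] (a : Flow (E n) X) (r s : ℝ) (b : Fin q → X → ℝ),
    ∃ st : Fin q → X → ℕ, IsSt a r s b st

/-- (about 100 lines) **`hgt` and `om` are constant on clusters.**

Proof.  First `‖u‖ < r` by `Cls`.  (1) `t < hgt` for `a u y` and `t ≥ 0`: there is `v`, `‖v‖ ≤ r`, with
`t < b (a v (a u y)) = b (a (v + u) y)`; as `0 < b y`, `‖v + u‖ ≤ 2 r ≤ 20`, `Cls` gives `‖v + u‖ < r`.  The converse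
in the same way (exchange the roles).  Both values are positive, so they are equal.
(2) by `lt_om`, for `t ≥ 0`: let `‖u1‖ ≤ r`, `‖v1 - w‖ ≤ r`, `t < b (a u1 y)`, `t < b' (a v1 y)`, `t < kap W (v1 - u1)`.
Then `(u1 - u, v1 - u)` is a witness for `a u y`, `w'`: `a (u1 - u) (a u y) = a u1 y`; `‖u1 - u‖ ≤ 2 r` and `0 < b` at
`a u y` and at `a u1 y`, so `‖u1 - u‖ < r`; `a w' (a u y) = a (w' + u) y` and `a w y`, with
`‖w' + u - w‖ ≤ 19`, are in `{0 < b'}`, so `‖w' + u - w‖ < r`, so `‖v1 - (w' + u)‖ ≤ 2 r`, so by `Cls` for `b'` at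
`a (w' + u) y`, `a v1 y` it is less than `r`.  The converse in the same way; both values are nonnegative. -/
def S_HI : Prop :=
  ∀ (n : ℕ) (X : Type u) [MetricSpace X] (a : Flow (E n) X) (r W : ℝ) (b b' : X → ℝ) (y : X)
    (u w w' : E n), 0 < r → r ≤ 1 / 8 → Continuous b → Continuous b' → (∀ x, 0 ≤ b x) →
    (∀ x, 0 ≤ b' x) → Cls a r 20 {x | 0 < b x} → Cls a r 20 {x | 0 < b' x} → 0 < b y →
    0 < b (a u y) → ‖u‖ ≤ 20 →
    hgt a r b (a u y) = hgt a r b y ∧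
    (0 < b' (a w y) → 0 < b' (a w' (a u y)) → ‖w' + u - w‖ ≤ 19 →
      om a r W b b' (a u y) w' = om a r W b b' y w)

/-- (about 60 lines; uses `S_HI`) **The labels are constant on clusters.**

Proof.  By `S_HI` the `hgt` is the same at `y` and `a u y`.  `Used ... W j (a u y) = Used ... W j y` for every
`W`: let `l` be in the left set with `i, w'`: `1/4 ≤ b i (a w' (a u y))`; then `w = w' + u` satisfies
`a w y = a w' (a u y)`, and by `S_HI` the values of `om` are equal (`w' + u - w = 0`).  The converse with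
`w' = w - u`. -/
def S_CI : Prop :=
  ∀ (n q : ℕ) (X : Type u) [MetricSpace X] (a : Flow (E n) X) (r s : ℝ) (b : Fin q → X → ℝ)
    (st : Fin q → X → ℕ), 0 < r → r ≤ 1 / 8 → Bas a r b → IsSt a r s b st →
    ∀ (j : Fin q) (y : X) (u : E n), 0 < b j y → 0 < b j (a u y) → ‖u‖ ≤ 20 → st j (a u y) = st j y

/-- (about 120 lines; uses `S_HI`, `S_CI`) **At most `19^n` labels are used near a point.**

Proof.  Let `T = Used ... 8 j y`.  For `l ∈ T` take `i, w` from the definition.  `lt_om` (`t = 1/4 + s/4 > 0`) gives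
`u, v` with `‖u‖ ≤ r`, `‖v - w‖ ≤ r`, `kap 8 (v - u) > 0`, so `‖v - u‖ < 8 + 1/4` (`kap_pos`).  As
`st i (a w y) = l ≥ 1` is not `0`, `1/2 + s/4 < hgt a r (b i) (a w y)` and `Used ... 1 i (a w y) = ∅`; so there is
`v'`, `‖v'‖ ≤ r`, with `1/2 < b i (a v' (a w y))`.  Put `z = v' + w`: `‖z‖ ≤ 8 + 1/4 + 3 r ≤ 9`,
`1/2 < b i (a z y)`, and by `S_CI` `st i (a z y) = l` (`0 < b i (a w y)`, `‖v'‖ ≤ 20`), and
`Used ... 1 i (a z y) = ∅` (as `st i (a z y) = l ≥ 1`).  So for every `l ∈ T` we have `i_l, z_l`.  Let `l ≠ l'` in `T`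
and suppose `‖z_l - z_l'‖ ≤ 1`.  If `i_l = i_l'` then by `S_CI` `l = l'`, a contradiction.  If `i_l < i_l'` then
`om a r 1 (b i_l') (b i_l) (a z_l' y) (z_l - z_l') > 1/2 ≥ 1/4 + s/4` (`lt_om` with `u = 0`, `v = z_l - z_l'`, `kap ≥ 1`
by `one_le_kap`), so `l ∈ Used ... 1 i_l' (a z_l' y) = ∅`, a contradiction; the same with `l, l'` exchanged.  So
`‖z_l - z_l'‖ > 1`, and the vectors `(⌊z_l i⌋)_i` with entries in `{-9, ..., 9}` are different (equal floors give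
`|z_l i - z_l' i| < 1` for all `i`).  So `T` has at most `19^n` elements, and the least `l ≥ 1` outside of `T` is at
most `19^n + 1`. -/
def S_Pk : Prop :=
  ∀ (n q : ℕ) (X : Type u) [MetricSpace X] (a : Flow (E n) X) (r s : ℝ) (b : Fin q → X → ℝ)
    (st : Fin q → X → ℕ), 0 < r → r ≤ 1 / 8 → 0 ≤ s → s ≤ 1 → Bas a r b → IsSt a r s b st →
    ∀ (j : Fin q) (y : X), (Used a r s b st 8 j y).Finite ∧ st j y ≤ 19 ^ n + 1 ∧
      ({l | 1 ≤ l ∧ l ∉ Used a r s b st 8 j y} : Set ℕ).Nonempty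

/-- (about 200 lines; uses `S_HI`, `S_CI`, `S_Pk`) **The labels are locally constant where there is no
coincidence.**

Proof by strong induction on `j`.  Let `thr = 1/4 + s/4`.  (i) `hgt a r (b j) y ≠ 1/2 + s/4` by `Good` (`u = 0`), so
for `y'` near `y`: `1/2 + s/4 < hgt a r (b j) y'` iff `1/2 + s/4 < hgt a r (b j) y` (`hgt_cont`).
(ii) For `W = 1` and `W = 8`: `Used ... W j y' = Used ... W j y` for `y'` near `y`.  Note that by `lt_om`, `kap_pos`
`thr < om a r W (b j) (b i) y' w` implies `‖w‖ ≤ W + 1/4 + 2 r ≤ 9`.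
`⊇`: the set on the right is finite (all labels are at most `19^n + 1` by `S_Pk`), so it is enough to treat one
`l` with `i, w`.  By `lt_om` there is `v`, `‖v - w‖ ≤ r`, with `thr < b i (a v y)`; by `S_CI` `st i (a v y) = l` and by
`S_HI` `om ... y v = om ... y w` (`u = 0`); so we may assume `1/4 < b i (a w y)`.  `‖w‖ ≤ 9` and `a w y` is `Good` with
radius `9 j ≥ 9 (i + 1)` (`Good` at `y` with radius `9 (j + 1)`: `a u (a w y) = a (u + w) y`), so by induction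
`st i` is locally constant at `a w y`; also `1/4 < b i (a w y')` and `thr < om ... y' w` near `y` by continuity.
`⊆`: the labels are bounded, so fix `i < j` and `l`, `1 ≤ l`.  Show that for every `w` in the compact ball
`‖w‖ ≤ 9`, for all `(w', y')` near `(w, y)`: `1/4 ≤ b i (a w' y')`, `st i (a w' y') = l`, `thr < om ... y' w'` imply
`l ∈ Used ... W j y` (then use compactness of the ball, for example
`IsCompact.eventually_forall_of_forall_eventually`).  If `b i (a w y) < 1/4` then also `b i (a w' y') < 1/4`.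
Otherwise `st i` is locally constant at `a w y` by induction.  If `om ... y w < thr` the same holds near `(w, y)`
(`om_cont`).  `om ... y w = thr` is impossible by `Good` (`u = 0`, `v = w`, `‖w‖ ≤ 9`).  If `thr < om ... y w` then
either `st i (a w y) = l` and `l ∈ Used ... W j y`, or `st i (a w' y') ≠ l` near `(w, y)`.
By (i), (ii) and the recursion `st j y' = st j y` near `y`. -/
def S_LC : Prop :=
  ∀ (n q : ℕ) (X : Type u) [MetricSpace X] (a : Flow (E n) X) (r s : ℝ) (b : Fin q → X → ℝ)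
    (st : Fin q → X → ℕ), 0 < r → r ≤ 1 / 8 → 0 ≤ s → s ≤ 1 → Bas a r b → IsSt a r s b st →
    ∀ (j : Fin q) (y : X), 1 / 4 ≤ b j y → Good a r (9 * ((j : ℕ) + 1)) s b y →
      ∀ᶠ y' in 𝓝 y, st j y' = st j y

/-- (about 100 lines) **`Good` is open.**

Proof.  The complement is the union over `j` of the projections to `X` of the closed sets
`{(u, x) : ‖u‖ ≤ Q, 1/4 ≤ b j (a u x), hgt a r (b j) (a u x) = 1/2 + s/4}` and over `j, i, W` of the projections of
`{(u, v, x) : ‖u‖, ‖v‖ ≤ Q, 1/4 ≤ b j (a u x), 1/4 ≤ b i (a v x), om a r W (b j) (b i) (a u x) (v - u) = 1/4 + s/4}`;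
projections along compact sets are closed (`isClosedMap_snd_of_compactSpace`, `IsCompact.isClosed...`).
(2) `a u' (a u x) = a (u' + u) x`, `‖u' + u‖ ≤ Q + ρ ≤ Q'`, and `v' - u' = (v' + u) - (u' + u)`. -/
def S_GO : Prop :=
  ∀ (n q : ℕ) (X : Type u) [MetricSpace X] (a : Flow (E n) X) (r s Q : ℝ) (b : Fin q → X → ℝ),
    Bas a r b → IsOpen {x | Good a r Q s b x} ∧
    ∀ (Q' ρ : ℝ) (x : X) (u : E n), Good a r Q' s b x → ‖u‖ ≤ ρ → Q + ρ ≤ Q' → Good a r Q s b (a u x)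

/-- (about 180 lines; uses `S_StE`, `S_HI`, `S_CI`, `S_Pk`, `S_LC`, `S_GO`) **The open sets for one parameter.**

Proof.  Let `st` be from `S_StE`, `thr = 1/4 + s/4 ∈ [1/4, 1/2]` and for `l : Fin (19^n + 1)`
`O l = {y | Good a r (9 q) s b y ∧ ∃ j, 1/2 < b j y ∧ st j y = l + 1}`.
Open: by `S_GO` and `S_LC` (`Good` with radius `9 q ≥ 9 (j + 1)` implies `Good` with the smaller radius).
`Cls a r 8 (O l)`: let `y ∈ O l` with `j`, `a v y ∈ O l` with `i`, `‖v‖ ≤ 8`.  If `i = j` use `Cls a r 20` of `b j`.  If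
`i < j` then `om a r 8 (b j) (b i) y v > 1/2 ≥ thr` (`lt_om` with `u = 0`, `one_le_kap`), so `l + 1 ∈ Used ... 8 j y`;
but `st j y = l + 1 ≥ 1` is the least element of the complement of `Used ... 8 j y` (`Nat.sInf_mem` with `S_Pk`), a
contradiction.  If `j < i` apply this to `a v y` and `-v` (`act_neg`).
Cover: let `x` be `Good` with radius `9 q + 12` and `3/4 < b j x`.  `hgt a r (b j) x ≥ b j x > 3/4 ≥ 1/2 + s/4`
(`le_hgt`, `u = 0`).  If `Used ... 1 j x = ∅` then `l' = st j x` satisfies `1 ≤ l' ≤ 19^n + 1`, and `x ∈ O (l' - 1)`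
(`u = 0`).  Otherwise take `l' ∈ Used ... 1 j x` with `i, w`; `lt_om` gives `u, v`, `‖u‖ ≤ r`, `‖v - w‖ ≤ r`,
`‖v - u‖ < 1 + 1/4`.  As `st i (a w x) = l' ≥ 1`, `1/2 < hgt a r (b i) (a w x)`, so there is `v'`, `‖v'‖ ≤ r`, with
`1/2 < b i (a v' (a w x))`, and by `S_CI` `st i (a (v' + w) x) = l'`.  So `a (v' + w) x ∈ O (l' - 1)`
(`l' ≤ 19^n + 1` by `S_Pk`; `Good` by `S_GO` (2)), and `‖v' + w‖ ≤ 5/4 + 3 r`.  This is at most `3/2 + 1/8`.
-/
def S_Grd : Prop :=
  ∀ (n q : ℕ) (X : Type u) [MetricSpace X] (a : Flow (E n) X) (r s : ℝ) (b : Fin q → X → ℝ),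
    0 < r → r ≤ 1 / 8 → 0 ≤ s → s ≤ 1 → Bas a r b → (∀ x, ∃ j, 3 / 4 < b j x) →
    ∃ O : Fin (19 ^ n + 1) → Set X, (∀ l, IsOpen (O l)) ∧ (∀ l, Cls a r 8 (O l)) ∧
      ∀ x, Good a r (9 * q + 12) s b x → ∃ l, ∃ u : E n, ‖u‖ ≤ 5 / 4 + 3 * r ∧ a u x ∈ O l

/-- (about 50 lines; uses `S_Typ`, `S_Sel`, `S_Grd`) **The open sets.**

Proof.  `q` from `S_Typ`, `η` from `S_Sel` with `N = n + m + 1`, `Q = 9 q + 12`; `b` from `S_Typ` for
`(Q + 1, η)`; `s` from `S_Sel`; `O k` from `S_Grd` for the parameter `s k`. -/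
def S_Opn : Prop :=
  ∀ (n m : ℕ) (X : Type u) [MetricSpace X] [CompactSpace X] (a : Flow (E n) X) (ι : X → E m) (r : ℝ),
    FreeA a → Continuous ι → Function.Injective ι → 0 < r → r ≤ 1 / 8 →
    ∃ O : Fin (n + m + 1) → Fin (19 ^ n + 1) → Set X, (∀ k l, IsOpen (O k l)) ∧
      (∀ k l, Cls a r 8 (O k l)) ∧
      ∀ x, ∃ k l, ∃ u : E n, ‖u‖ ≤ 5 / 4 + 3 * r ∧ a u x ∈ O k l

/-! ## The boxes -/

/-- (about 90 lines) **From open sets to functions.**

Proof.  For `k : K` let `f k x = Metric.infDist x (O k)ᶜ` if `(O k)ᶜ` is nonempty and `1` otherwise: continuous,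
positive exactly on `O k`.  `F x = ∑ k, sSup {f k (a u x) : ‖u‖ ≤ ρ}` is continuous (`IsCompact.continuous_sSup`) and
positive, so `F ≥ c > 0` on the compact `X` (if `X` is empty everything is trivial).  Let
`b k x = min 1 (f k x * (card K) / c)`.  For every `x` some `k` has `sSup {...} ≥ c / card K`, and the supremum is
attained. -/
def S_Bk : Prop :=
  ∀ (n : ℕ) (X : Type u) [MetricSpace X] [CompactSpace X] (a : Flow (E n) X) (K : Type) [Fintype K]
    (O : K → Set X) (ρ : ℝ), 0 ≤ ρ → (∀ k, IsOpen (O k)) →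
    (∀ x, ∃ k, ∃ u : E n, ‖u‖ ≤ ρ ∧ a u x ∈ O k) →
    ∃ b : K → X → ℝ, (∀ k, Continuous (b k)) ∧ (∀ k x, 0 ≤ b k x ∧ b k x ≤ 1) ∧
      (∀ k x, 0 < b k x → x ∈ O k) ∧ ∀ x, ∃ k, ∃ u : E n, ‖u‖ ≤ ρ ∧ b k (a u x) = 1

/-- (about 180 lines) **From functions to boxes.**

Proof.  `h x = hgt a 4 b x = sSup {b (a v x) : ‖v‖ ≤ 4}`, `lam x = max 0 (2 h x - 1)`,
`P x i = sSup {v i + 20 b (a v x) : ‖v‖ ≤ 4} - 20 h x`; all are continuous.  Let `h x > 1/2` and
`C = {v : ‖v‖ ≤ 4, 0 < b (a v x)}`, nonempty.  For `v, v' ∈ C` the points `a v x`, `a v' x = a (v' - v) (a v x)` are in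
`{0 < b}` and `‖v' - v‖ ≤ 8`, so `‖v' - v‖ < 1/8`.
(A) For `v ∈ C`: `‖P x - v‖ ≤ 1/8`.  Let `b (a v* x) = h x` (`hgt_att`); `v* ∈ C` and the supremum in `P x i` is at
least `v* i + 20 h x ≥ v* i + 10 ≥ 6`; so `P x i ≥ v* i ≥ v i - 1/8`, and the points `v` with `b (a v x) = 0` have
value `v i ≤ 4`, so the supremum is attained at some `v' ∈ C`, where `v' i + 20 (b (a v' x) - h x) ≤ v' i ≤ v i + 1/8`.
(eq) Let `lam x > 0`, i.e. `h x > 1/2`, `‖P x‖ ≤ 2`, `‖P x - u‖ ≤ 2`.  Let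
`C' = {w : ‖w - u‖ ≤ 4, 0 < b (a w x)}`.  `C' = C`: for `w ∈ C`, `‖w - u‖ ≤ ‖w - P x‖ + ‖P x - u‖ ≤ 1/8 + 2`.
For `w ∈ C'` and `w0 ∈ C`: `‖w - w0‖ ≤ 4 + 2 + 1/8 ≤ 8`, so `‖w - w0‖ < 1/8` and `‖w‖ ≤ 1/8 + 1/8 + 2 ≤ 4`.  Hence
`h (a u x) = sSup {b (a w x) : ‖w - u‖ ≤ 4} = h x`, and `P (a u x) i + 20 h x` is the supremum of
`w i - u i + 20 b (a w x)` over `‖w - u‖ ≤ 4`; the points with `b (a w x) = 0` have value at most `4`, and the point
`v* ∈ C` has value at least `-(2 + 1/8) + 10`; so it is the supremum over `C`, which is `P x i + 20 h x - u i`.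
(core) If `‖u‖ ≤ 13/8` and `b (a u x) = 1` then `h x = 1`, `lam x = 1`, `u ∈ C` and `‖P x‖ ≤ 13/8 + 1/8 = 7/4` by
(A). -/
def S_Hat : Prop :=
  ∀ (n : ℕ) (X : Type u) [MetricSpace X] (a : Flow (E n) X) (b : X → ℝ), Continuous b →
    (∀ x, 0 ≤ b x ∧ b x ≤ 1) → Cls a (1 / 8) 8 {x | 0 < b x} →
    ∃ (lam : X → ℝ) (P : X → E n), Continuous lam ∧ Continuous P ∧ (∀ x, 0 ≤ lam x ∧ lam x ≤ 1) ∧
      (∀ x u, 0 < lam x → ‖P x‖ ≤ 2 → ‖P x - u‖ ≤ 2 → lam (a u x) = lam x ∧ P (a u x) = P x - u) ∧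
      ∀ (x : X) (u : E n), ‖u‖ ≤ 13 / 8 → b (a u x) = 1 → lam x = 1 ∧ ‖P x‖ ≤ 7 / 4

/-- (about 50 lines; uses `S_Opn`, `S_Bk`, `S_Hat`) **Boxes of bounded multiplicity.**

Proof.  `S_Opn` with `r = 1/8` (`5/4 + 3 r = 13/8`), `S_Bk` with `K = Fin (n + m + 1) × Fin (19^n + 1)` and
`ρ = 13/8`, `S_Hat` for every `b k` (`Cls` passes to subsets); `Fin (NN n m) ≃ K` (`finProdFinEquiv`). -/
def S_Box : Prop :=
  ∀ (n m : ℕ) (X : Type u) [MetricSpace X] [CompactSpace X] (a : Flow (E n) X) (ι : X → E m),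
    FreeA a → Continuous ι → Function.Injective ι →
    ∃ (lam : Fin (NN n m) → X → ℝ) (P : Fin (NN n m) → X → E n), (∀ k, Continuous (lam k)) ∧
      (∀ k, Continuous (P k)) ∧ (∀ k x, 0 ≤ lam k x ∧ lam k x ≤ 1) ∧
      (∀ k x u, 0 < lam k x → ‖P k x‖ ≤ 2 → ‖P k x - u‖ ≤ 2 →
        lam k (a u x) = lam k x ∧ P k (a u x) = P k x - u) ∧
      ∀ x, ∃ k, lam k x = 1 ∧ ‖P k x‖ ≤ 7 / 4

/-- (about 100 lines; uses `S_Box`) **Boxes of any size.**

Proof.  Let `D u = Fin.cons (A * u 0) (ℓ • Fin.tail u)`, a linear bijection of `E (n + 1)` with inverse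
`D' u = Fin.cons (u 0 / A) (ℓ⁻¹ • Fin.tail u)`; `‖D' p‖ ≤ c` iff `|p 0| ≤ c A` and `‖Fin.tail p‖ ≤ c ℓ`
(`c ≥ 0`).  `a' u x = a (D u) x` is a free action (`Flow (E (n + 1)) X`).  `S_Box` for `a'` gives `lam`, `P'`; let
`P k x = D (P' k x)`.  In `BoxSys` write `u = D u'`. -/
def S_BoxA : Prop :=
  ∀ (n m : ℕ) (X : Type u) [MetricSpace X] [CompactSpace X] (a : Flow (E (n + 1)) X) (ι : X → E m)
    (A ℓ : ℝ), FreeA a → Continuous ι → Function.Injective ι → 0 < A → 0 < ℓ →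
    ∃ (lam : Fin (NN (n + 1) m) → X → ℝ) (P : Fin (NN (n + 1) m) → X → E (n + 1)),
      (∀ k, BoxSys a A ℓ (lam k) (P k)) ∧
      ∀ x, ∃ k, lam k x = 1 ∧ |P k x 0| ≤ 7 / 4 * A ∧ ‖Fin.tail (P k x)‖ ≤ 7 / 4 * ℓ

end Pool.Agent.MP98850d
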