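import Pool.Agent.Lib.MP_98850d_an.SpecB

/-! # MP_98850d_an: limits of flows -/

set_option autoImplicit false

namespace Pool.Agent.MP98850d

open Set Filter Topology TopologicalSpace

universe u

/-- compactness: all orbits meet `U` within a bounded time and with a margin -/
theorem lim_hit {X : Type u} [MetricSpace X] [CompactSpace X] (ψ : Flow ℝ X) {U : Set X}
    (hU : IsOpen U) (h : ∀ x, ∃ t, ψ t x ∈ U) :
    ∃ T ε : ℝ, 0 < ε ∧ ∀ x, ∃ t, |t| ≤ T ∧ ∀ y, dist (ψ t x) y ≤ ε → y ∈ U := by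
  have main : ∃ T ε : ℝ, 0 < ε ∧ ∀ x ∈ (univ : Set X), ∃ t, |t| ≤ T ∧
      ∀ y, dist (ψ t x) y ≤ ε → y ∈ U := by
    refine isCompact_univ.induction_on (p := fun S : Set X => ∃ T ε : ℝ, 0 < ε ∧ ∀ x ∈ S, ∃ t,
      |t| ≤ T ∧ ∀ y, dist (ψ t x) y ≤ ε → y ∈ U) ?_ ?_ ?_ ?_
    · exact ⟨0, 1, one_pos, fun x hx => absurd hx (notMem_empty x)⟩
    · rintro s t hst ⟨T, ε, hε, h⟩
      exact ⟨T, ε, hε, fun x hx => h x (hst hx)⟩
    · rintro s t ⟨T, ε, hε, h⟩ ⟨T', ε', hε', h'⟩
      refine ⟨max T T', min ε ε', lt_min hε hε', ?_⟩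
      rintro x (hx | hx)
      · obtain ⟨τ, h1, h2⟩ := h x hx
        exact ⟨τ, h1.trans (le_max_left _ _), fun y hy => h2 y (hy.trans (min_le_left _ _))⟩
      · obtain ⟨τ, h1, h2⟩ := h' x hx
        exact ⟨τ, h1.trans (le_max_right _ _), fun y hy => h2 y (hy.trans (min_le_right _ _))⟩
    · intro x _
      obtain ⟨t, ht⟩ := h x
      obtain ⟨δ, hδ, hball⟩ := Metric.isOpen_iff.1 hU _ ht
      have hc : Continuous (fun x' => dist (ψ t x') (ψ t x)) :=
        (ψ.continuous continuous_const continuous_id).dist continuous_const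
      refine ⟨{x' | dist (ψ t x') (ψ t x) < δ / 2}, mem_nhdsWithin_of_mem_nhds
        ((isOpen_lt hc continuous_const).mem_nhds ?_), |t|, δ / 3, by positivity, ?_⟩
      · change dist (ψ t x) (ψ t x) < δ / 2
        rw [dist_self]
        positivity
      · intro x' hx'
        refine ⟨t, le_rfl, fun y hy => hball ?_⟩
        rw [Metric.mem_ball]
        have h1 : dist (ψ t x') (ψ t x) < δ / 2 := hx'
        calc dist y (ψ t x) ≤ dist y (ψ t x') + dist (ψ t x') (ψ t x) := dist_triangle _ _ _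
          _ < δ := by rw [dist_comm y]; linarith
  obtain ⟨T, ε, hε, h⟩ := main
  exact ⟨T, ε, hε, fun x => h x (mem_univ x)⟩

/-- a sequence of nonempty open sets such that every nonempty open set contains one of them -/
theorem lim_base (X : Type u) [MetricSpace X] [CompactSpace X] [Nonempty X] :
    ∃ U : ℕ → Set X, (∀ i, IsOpen (U i)) ∧ (∀ i, (U i).Nonempty) ∧
      ∀ V : Set X, IsOpen V → V.Nonempty → ∃ i, U i ⊆ V := by
  have hb := isBasis_countableBasis X
  have hne : (countableBasis X).Nonempty := by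
    obtain ⟨v, hv, -⟩ := hb.exists_subset_of_mem_open (mem_univ (Classical.arbitrary X)) isOpen_univ
    exact ⟨v, hv⟩
  obtain ⟨U, hU⟩ := (countable_countableBasis X).exists_eq_range hne
  have hmem : ∀ i, U i ∈ countableBasis X := fun i => by rw [hU]; exact ⟨i, rfl⟩
  refine ⟨U, fun i => isOpen_of_mem_countableBasis (hmem i),
    fun i => nonempty_of_mem_countableBasis (hmem i), fun V hV hVne => ?_⟩
  obtain ⟨x, hx⟩ := hVne
  obtain ⟨v, hv, -, hvV⟩ := hb.exists_subset_of_mem_open hx hV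
  rw [hU] at hv
  obtain ⟨i, rfl⟩ := hv
  exact ⟨i, hvV⟩

theorem tLim : S_Lim.{u} := by
  intro X _ _ 𝓕 hne hstep
  obtain ⟨ψ0, hψ0⟩ := hne
  rcases isEmpty_or_nonempty X with hX | hX
  · exact ⟨ψ0, fun x => (hX.false x).elim⟩
  obtain ⟨U, hUo, hUne, hUV⟩ := lim_base X
  -- one step
  have hst : ∀ (p : {p : Flow ℝ X × ℝ × ℝ // p.1 ∈ 𝓕 ∧ 0 < p.2.2}) (i : ℕ),
      ∃ p' : {p : Flow ℝ X × ℝ × ℝ // p.1 ∈ 𝓕 ∧ 0 < p.2.2},
        (∀ t x, |t| ≤ p.1.2.1 → dist (p'.1.1 t x) (p.1.1 t x) ≤ p.1.2.2 / 2) ∧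
        p.1.2.1 + 1 ≤ p'.1.2.1 ∧ p'.1.2.2 ≤ p.1.2.2 / 2 ∧
        ∀ x, ∃ t, |t| ≤ p'.1.2.1 ∧ ∀ y, dist (p'.1.1 t x) y ≤ p'.1.2.2 → y ∈ U i := by
    rintro ⟨⟨ψ, T, ε⟩, hψ, hε⟩ i
    change 0 < ε at hε
    obtain ⟨ψ', hψ', hclose, hhit⟩ := hstep ψ hψ (U i) (hUo i) (hUne i) (ε / 2) T (by positivity)
    obtain ⟨T0, ε0, hε0, h0⟩ := lim_hit ψ' (hUo i) hhit
    refine ⟨⟨(ψ', max T0 (T + 1), min ε0 (ε / 2)), hψ', lt_min hε0 (by positivity)⟩, hclose,
      le_max_right _ _, min_le_right _ _, fun x => ?_⟩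
    obtain ⟨t, ht, hy⟩ := h0 x
    exact ⟨t, ht.trans (le_max_left _ _), fun y h => hy y (h.trans (min_le_left _ _))⟩
  choose step hs1 hs2 hs3 hs4 using hst
  let seq : ℕ → {p : Flow ℝ X × ℝ × ℝ // p.1 ∈ 𝓕 ∧ 0 < p.2.2} := fun k =>
    Nat.rec (motive := fun _ => {p : Flow ℝ X × ℝ × ℝ // p.1 ∈ 𝓕 ∧ 0 < p.2.2})
      ⟨(ψ0, 0, 1), hψ0, one_pos⟩ (fun i p => step p i) k
  have hseq : ∀ i, seq (i + 1) = step (seq i) i := fun i => rfl
  set Ψ : ℕ → Flow ℝ X := fun i => (seq i).1.1 with hΨ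
  set T : ℕ → ℝ := fun i => (seq i).1.2.1 with hT
  set ε : ℕ → ℝ := fun i => (seq i).1.2.2 with hε
  have hεpos : ∀ i, 0 < ε i := fun i => (seq i).2.2
  have h1 : ∀ i t x, |t| ≤ T i → dist (Ψ (i + 1) t x) (Ψ i t x) ≤ ε i / 2 := by
    intro i t x ht
    have h := hs1 (seq i) i t x ht
    rw [← hseq] at h
    exact h
  have h2 : ∀ i, T i + 1 ≤ T (i + 1) := by
    intro i
    have h := hs2 (seq i) i
    rw [← hseq] at h
    exact h
  have h3 : ∀ i, ε (i + 1) ≤ ε i / 2 := by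
    intro i
    have h := hs3 (seq i) i
    rw [← hseq] at h
    exact h
  have h4 : ∀ i x, ∃ t, |t| ≤ T (i + 1) ∧ ∀ y, dist (Ψ (i + 1) t x) y ≤ ε (i + 1) → y ∈ U i := by
    intro i x
    have h := hs4 (seq i) i x
    rw [← hseq] at h
    exact h
  have hT0 : T 0 = 0 := rfl
  have hε0 : ε 0 = 1 := rfl
  have hTi : ∀ i : ℕ, (i : ℝ) ≤ T i := by
    intro i
    induction i with
    | zero => rw [hT0, Nat.cast_zero]
    | succ i ih =>
      have := h2 i
      push_cast
      linarith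
  have hTmono : Monotone T := monotone_nat_of_le_succ (fun i => by linarith [h2 i])
  have hεanti : Antitone ε := antitone_nat_of_succ_le (fun i => by
    linarith [h3 i, hεpos i])
  have hεpow : ∀ i, ε i ≤ (1 / 2) ^ i := by
    intro i
    induction i with
    | zero => rw [hε0, pow_zero]
    | succ i ih =>
      rw [pow_succ]
      linarith [h3 i]
  have hεlim : Tendsto ε atTop (𝓝 0) :=
    squeeze_zero (fun i => (hεpos i).le) hεpow
      (tendsto_pow_atTop_nhds_zero_of_lt_one (by norm_num) (by norm_num))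
  have hdist : ∀ i k, i ≤ k → ∀ t x, |t| ≤ T i → dist (Ψ k t x) (Ψ i t x) ≤ ε i - ε k := by
    intro i k hik
    induction k, hik using Nat.le_induction with
    | base =>
      intro t x _
      rw [dist_self, sub_self]
    | succ k hik ih =>
      intro t x ht
      have e1 := ih t x ht
      have e2 := h1 k t x (ht.trans (hTmono hik))
      have e3 := dist_triangle (Ψ (k + 1) t x) (Ψ k t x) (Ψ i t x)
      have e4 := h3 k
      linarith
  have hlim : ∀ t x, ∃ y, Tendsto (fun k => Ψ k t x) atTop (𝓝 y) := by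
    intro t x
    apply cauchySeq_tendsto_of_complete
    rw [Metric.cauchySeq_iff']
    intro η hη
    obtain ⟨N1, hN1⟩ := exists_nat_ge |t|
    obtain ⟨N2, hN2⟩ := (hεlim.eventually (gt_mem_nhds hη)).exists_forall_of_atTop
    refine ⟨max N1 N2, fun k hk => ?_⟩
    have e1 : |t| ≤ T (max N1 N2) := hN1.trans ((hTi N1).trans (hTmono (le_max_left _ _)))
    have e2 := hdist _ k hk t x e1
    have e3 := hN2 (max N1 N2) (le_max_right _ _)
    have e4 := hεpos k
    linarith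
  choose ψ hψ using hlim
  have hclose : ∀ i t x, |t| ≤ T i → dist (ψ t x) (Ψ i t x) ≤ ε i := by
    intro i t x ht
    refine le_of_tendsto ((hψ t x).dist tendsto_const_nhds) ?_
    filter_upwards [eventually_ge_atTop i] with k hk
    have e1 := hdist i k hk t x ht
    have e2 := hεpos k
    linarith
  have hcont : Continuous (fun p : ℝ × X => ψ p.1 p.2) := by
    apply continuous_of_locally_uniform_approx_of_continuousAt
    rintro ⟨t, x⟩ u hu
    obtain ⟨η, hη, hsub⟩ := Metric.mem_uniformity_dist.1 hu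
    obtain ⟨N1, hN1⟩ := exists_nat_gt |t|
    obtain ⟨N2, hN2⟩ := (hεlim.eventually (gt_mem_nhds hη)).exists_forall_of_atTop
    set k := max N1 N2 with hk
    have e1 : |t| < T k := hN1.trans_le ((hTi N1).trans (hTmono (le_max_left _ _)))
    refine ⟨{p : ℝ × X | |p.1| < T k}, (isOpen_lt (continuous_abs.comp continuous_fst)
      continuous_const).mem_nhds e1, fun p => Ψ k p.1 p.2, ((Ψ k).continuous continuous_fst
      continuous_snd).continuousAt, fun p hp => hsub ?_⟩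
    exact (hclose k p.1 p.2 (le_of_lt hp)).trans_lt (hN2 k (le_max_right _ _))
  have hadd : ∀ s t x, ψ (s + t) x = ψ s (ψ t x) := by
    intro s t x
    have e1 : Tendsto (fun k => Ψ k s (Ψ k t x)) atTop (𝓝 (ψ (s + t) x)) := by
      have := hψ (s + t) x
      refine this.congr (fun k => ?_)
      exact (Ψ k).map_add s t x
    have e2 : Tendsto (fun k => ψ s (Ψ k t x)) atTop (𝓝 (ψ s (ψ t x))) := by
      have hc : Continuous (fun y => ψ s y) := hcont.comp (continuous_const.prodMk continuous_id)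
      exact (hc.tendsto _).comp (hψ t x)
    have e3 : Tendsto (fun k => Ψ k s (Ψ k t x)) atTop (𝓝 (ψ s (ψ t x))) := by
      rw [tendsto_iff_dist_tendsto_zero]
      have e4 : Tendsto (fun k => ε k + dist (ψ s (Ψ k t x)) (ψ s (ψ t x))) atTop (𝓝 (0 + 0)) :=
        hεlim.add (tendsto_iff_dist_tendsto_zero.1 e2)
      rw [add_zero] at e4
      refine squeeze_zero' (Eventually.of_forall fun k => dist_nonneg) ?_ e4
      obtain ⟨N1, hN1⟩ := exists_nat_ge |s|
      filter_upwards [eventually_ge_atTop N1] with k hk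
      have e5 := hclose k s (Ψ k t x) (hN1.trans ((hTi N1).trans (hTmono hk)))
      have e6 := dist_triangle (Ψ k s (Ψ k t x)) (ψ s (Ψ k t x)) (ψ s (ψ t x))
      rw [dist_comm] at e5
      linarith
    exact tendsto_nhds_unique e1 e3
  have hzero : ∀ x, ψ 0 x = x := by
    intro x
    refine tendsto_nhds_unique (hψ 0 x) ?_
    have : (fun k => Ψ k 0 x) = fun _ => x := by
      funext k
      exact (Ψ k).map_zero_apply x
    rw [this]
    exact tendsto_const_nhds
  refine ⟨{ toFun := ψ, cont' := hcont, map_add' := hadd, map_zero' := hzero }, fun x => ?_⟩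
  rw [dense_iff_inter_open]
  intro V hV hVne
  obtain ⟨i, hi⟩ := hUV V hV hVne
  obtain ⟨t, ht, hy⟩ := h4 i x
  refine ⟨ψ t x, hi (hy _ ?_), t, rfl⟩
  rw [dist_comm]
  exact hclose (i + 1) t x ht

end Pool.Agent.MP98850d
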