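import Pool.Agent.Lib.MP_98850d_an.SpecB

/-! # MP_98850d_an: compact manifolds embed in some `ℝ^m` -/

set_option autoImplicit false

namespace Pool.Agent.MP98850d

open Set Filter Topology

universe u

theorem tEmb : S_Emb.{u} := by
  classical
  intro d M _ _ _ _
  set H := EuclideanSpace ℝ (Fin d) with hH
  obtain ⟨t, ht⟩ := CompactSpace.elim_nhds_subcover (fun x : M => (chartAt H x).source)
    (fun x => chart_source_mem_nhds H x)
  have hcov : (univ : Set M) ⊆ ⋃ i : t, (chartAt H (i : M)).source := by
    intro x _
    have hx : x ∈ ⋃ x ∈ t, (chartAt H x).source := by rw [ht]; exact mem_univ x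
    simp only [mem_iUnion, exists_prop] at hx
    obtain ⟨y, hy, hxy⟩ := hx
    exact mem_iUnion.2 ⟨⟨y, hy⟩, hxy⟩
  obtain ⟨f, hf⟩ := PartitionOfUnity.exists_isSubordinate isClosed_univ
    (fun i : t => (chartAt H (i : M)).source) (fun i => (chartAt H (i : M)).open_source) hcov
  let G : t × Option (Fin d) → M → ℝ := fun p x =>
    match p.2 with
    | none => f p.1 x
    | some k => f p.1 x * (chartAt H (p.1 : M) x) k
  have hGc : ∀ p, Continuous (G p) := by
    rintro ⟨i, k⟩
    cases k with
    | none => exact (f i).continuous
    | some k =>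
      change Continuous (fun x => f i x * (chartAt H (i : M) x) k)
      rw [continuous_iff_continuousAt]
      intro x
      by_cases hx : x ∈ tsupport (f i)
      · have h1 : ContinuousAt (chartAt H (i : M)) x :=
          (chartAt H (i : M)).continuousAt (hf i hx)
        have h2 : ContinuousAt (fun x => (chartAt H (i : M) x) k) x :=
          (EuclideanSpace.proj k : EuclideanSpace ℝ (Fin d) →L[ℝ] ℝ).continuous.continuousAt.comp h1
        exact (f i).continuous.continuousAt.mul h2
      · have h1 : (fun x => f i x * (chartAt H (i : M) x) k) =ᶠ[𝓝 x] fun _ => 0 := by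
          have h2 := notMem_tsupport_iff_eventuallyEq.1 hx
          filter_upwards [h2] with y hy
          rw [hy, Pi.zero_apply, zero_mul]
        exact (continuousAt_const).congr h1.symm
  let e := Fintype.equivFin (t × Option (Fin d))
  refine ⟨Fintype.card (t × Option (Fin d)), fun x k => G (e.symm k) x,
    continuous_pi (fun k => hGc _), ?_⟩
  intro x x' h
  have hG : ∀ p, G p x = G p x' := by
    intro p
    have h1 := congrFun h (e p)
    simp only [Equiv.symm_apply_apply] at h1
    exact h1
  obtain ⟨i, hi⟩ := f.exists_pos (mem_univ x)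
  have h0 : f i x = f i x' := hG (i, none)
  have hxs : x ∈ (chartAt H (i : M)).source := hf i (subset_tsupport _ hi.ne')
  have hi' : 0 < f i x' := by rw [← h0]; exact hi
  have hxs' : x' ∈ (chartAt H (i : M)).source := hf i (subset_tsupport _ hi'.ne')
  apply (chartAt H (i : M)).injOn hxs hxs'
  ext k
  have h1 : f i x * (chartAt H (i : M) x) k = f i x' * (chartAt H (i : M) x') k := hG (i, some k)
  rw [← h0] at h1
  exact mul_left_cancel₀ hi.ne' h1

end Pool.Agent.MP98850d
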