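import Pool.Agent.Lib.MP_98850d_an.SpecA

/-!
# MP_98850d_an, SpecB: slow displacement fields, limits, the main theorem

Conventions as in SpecA.  `ax n t = (t, 0, ..., 0)`; the flow `φ t x = a (ax n t) x` is the given one-parameter
subflow.
-/

set_option autoImplicit false

namespace Pool.Agent.MP98850d

open Set Filter Topology

universe u

/-! ## One level -/

/-- (about 200 lines) **Coloured grids.**

Proof.  If `X` is empty take `κ = Empty`.  By compactness (Lebesgue number) there is `ε0 > 0` such that every ball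
`ball z ε0` is contained in some `O c` (for the open cover by the interiors).  There is an integer `M ≥ 1` with
`(∀ i, |ι z i - ι z' i| < 2 / M) → dist z z' < ε0` (otherwise there are sequences `z_i → z`, `z'_i → z'` with
`ι z = ι z'`, `z ≠ z'`).  Let `φ t = max 0 (min 1 (min (1 + 4 t) (5 - 4 t)))`: `φ = 1` on `[0, 1]`, `φ t ≠ 0` iff
`-1/4 < t < 5/4`.  For an integer vector `k` let `p_k z = ∏ i, φ (M * ι z i - k i)`.  `κ`: all integer vectors with
entries between `-K0` and `K0`, where `|M * ι z i| + 1 ≤ K0` on `X`.  The colours: `Fin (2 ^ m) ≃ (Fin m → Bool)`;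
`g β k = p_k` if `k i` is even iff `β i = true` for all `i`, and `g β k = 0` otherwise.
If `g β k z ≠ 0 ≠ g β k' z` then `|k i - k' i| < 3/2` for all `i` and `k i ≡ k' i` mod `2`, so `k = k'`.  If
`g β k z0 ≠ 0` let `ball z0 ε0 ⊆ O c`; all `z` with `g β k z ≠ 0` satisfy `|ι z i - ι z0 i| < 3 / (2 M)`, so
`z ∈ ball z0 ε0`.  For `z` let `k i = ⌊M * ι z i⌋` and `β` its parity: `g β k z = 1`. -/
def S_Grid : Prop :=
  ∀ (m : ℕ) (X : Type u) [MetricSpace X] [CompactSpace X] (ι : X → E m) (O : X → Set X),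
    Continuous ι → Function.Injective ι → (∀ z, O z ∈ 𝓝 z) →
    ∃ (κ : Type) (_ : Fintype κ) (g : Fin (2 ^ m) → κ → X → ℝ), (∀ β k, Continuous (g β k)) ∧
      (∀ β k z, 0 ≤ g β k z ∧ g β k z ≤ 1) ∧
      (∀ β k k' z, g β k z ≠ 0 → g β k' z ≠ 0 → k = k') ∧
      (∀ β k, (∃ z, g β k z ≠ 0) → ∃ c, ∀ z, g β k z ≠ 0 → z ∈ O c) ∧
      ∀ z, ∃ β k, g β k z = 1

/-- (about 120 lines) **Local choice of a successful value.**

Proof.  Let `xc = a (ax n t - y0) z0`.  `TP` at the point `a (s0 + F xc) xc` gives `σ`, `‖σ‖ ≤ R`, with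
`a (σ + e) (a (s0 + F xc) xc) = a (s0 + F xc + σ + e) xc ∈ U` for `‖e‖ ≤ 2 r`.  By compactness of the ball (tube lemma:
`{(e, z) : a (s0 + F xc + σ + e) (a (ax n t - y0) z) ∈ U}` is open and contains `closedBall 0 (2 r) × {z0}`) there is
a neighbourhood `O` of `z0` with `a (s0 + F xc + σ + e) (a (ax n t - y0) z) ∈ U` for `z ∈ O`, `‖e‖ ≤ 2 r`, and with
`‖F (a (ax n t - y0) z) - F xc‖ ≤ r / 4` for `z ∈ O`.  Let `z ∈ O`, `‖s - s0‖ ≤ r/2`, `‖y - y0‖ ≤ r/4`,
`x' = a (ax n t - y) z`, `x'' = a (ax n t - y0) z`; `x' = a (y0 - y) x''`, so `‖F x' - F x''‖ ≤ r/4`, and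
`a (s + F x' + σ) x' = a (s0 + F xc + σ + e) x''` with `e = (s - s0) + (F x' - F xc) + (y0 - y)`,
`‖e‖ ≤ r/2 + r/2 + r/4 ≤ 2 r`. -/
def S_Loc : Prop :=
  ∀ (n : ℕ) (X : Type u) [MetricSpace X] (a : Flow (E (n + 1)) X) (U : Set X) (R r : ℝ)
    (F : X → E (n + 1)) (t : ℝ) (s0 y0 : E (n + 1)) (z0 : X), IsOpen U → TP a U R r → 0 < r →
    Continuous F → (∀ x u, ‖F (a u x) - F x‖ ≤ ‖u‖) →
    ∃ O ∈ 𝓝 z0, ∃ σ : E (n + 1), ‖σ‖ ≤ R ∧ ∀ z ∈ O, Succ a U r F t s0 y0 z σ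

/-- (about 120 lines; uses `S_Grid`, `S_Loc`) **The values at the nodes.**

Proof.  For `z0 : X` let `O z0` be the intersection over the finitely many `(i, β)` of the neighbourhoods of
`S_Loc` for `(t i β, s0 i, y0 i)`, with values `σ z0 i β`.  `S_Grid` gives `g`; for `β, k` with `g β k ≠ 0` somewhere
choose `c β k` with `g β k z ≠ 0 → z ∈ O (c β k)`.  Let
`S i β z = ∑ k, g β k z • σ (c β k) i β` (terms with `g β k = 0` everywhere are dropped).  At every `z` at most one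
term is not `0`, so `‖S i β z‖ ≤ R` (`R ≥ 0` as `TP` gives some `w`; if `X` is empty everything is trivial).  For `z`
take `β, k` with `g β k z = 1`: `S i β z = σ (c β k) i β` for all `i`. -/
def S_Slot : Prop :=
  ∀ (n m : ℕ) (X : Type u) [MetricSpace X] [CompactSpace X] (a : Flow (E (n + 1)) X) (ι : X → E m)
    (U : Set X) (R r : ℝ) (F : X → E (n + 1)) (I : Type) [Fintype I] (t : I → Fin (2 ^ m) → ℝ)
    (s0 y0 : I → E (n + 1)), Continuous ι → Function.Injective ι → IsOpen U → TP a U R r → 0 < r →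
    Continuous F → (∀ x u, ‖F (a u x) - F x‖ ≤ ‖u‖) →
    ∃ S : I → Fin (2 ^ m) → X → E (n + 1), (∀ i β, Continuous (S i β)) ∧ (∀ i β z, ‖S i β z‖ ≤ R) ∧
      ∀ z, ∃ β, ∀ i, Succ a U r F (t i β) (s0 i) (y0 i) z (S i β z)

/-- (about 60 lines) **From small to arbitrary displacements.**

Proof.  For given `u` choose `N ≥ 1` with `‖u‖ / N ≤ ρ` and put `v = (1/N) • u`.  `f (a u x) - f x` is the sum over
`i < N` of `f (a v (a (i • v) x)) - f (a (i • v) x)`, each of norm at most `c0 |v 0| + c1 ‖Fin.tail v‖`, and `N` times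
this is `c0 |u 0| + c1 ‖Fin.tail u‖`. -/
def S_Ch : Prop :=
  ∀ (n k : ℕ) (X : Type u) [MetricSpace X] (a : Flow (E (n + 1)) X) (f : X → E k) (ρ c0 c1 : ℝ),
    0 < ρ → (∀ x u, ‖u‖ ≤ ρ → ‖f (a u x) - f x‖ ≤ c0 * |u 0| + c1 * ‖Fin.tail u‖) →
    ∀ x u, ‖f (a u x) - f x‖ ≤ c0 * |u 0| + c1 * ‖Fin.tail u‖

/-- (about 150 lines) **The programme: bound, continuity.**

Proof.  Continuity: all ingredients are continuous (`0 < w`, `0 < ℓ`).  Bound: at most one `j` has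
`tent w (2 w (j + 1)) τ ≠ 0` (the supports are `|τ - 2 w (j + 1)| < w`), and all factors are between `0` and `1`.
(3) If `prog ≠ 0` then `0 < lam x`, `w < -(P x 0) < 2 w J + w` and `‖Fin.tail (P x)‖ < 15/8 * ℓ`.
(4) At the node: `tent w c c = 1` and `tent w (2 w (i + 1)) (2 w (j + 1)) = 0` for `i ≠ j`; `cut ℓ p = 1` if
`‖Fin.tail p‖ ≤ 7/4 ℓ`. -/
def S_PrB : Prop :=
  ∀ (n J : ℕ) (X : Type u) [MetricSpace X] (a : Flow (E (n + 1)) X) (w ℓ R : ℝ) (lam : X → ℝ)
    (P : X → E (n + 1)) (S : Fin J → X → E (n + 1)), 0 < w → 0 < ℓ → 0 ≤ R → Continuous lam →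
    Continuous P → (∀ x, 0 ≤ lam x ∧ lam x ≤ 1) → (∀ j, Continuous (S j)) → (∀ j z, ‖S j z‖ ≤ R) →
    Continuous (prog a w ℓ lam P S) ∧ (∀ x, ‖prog a w ℓ lam P S x‖ ≤ R) ∧
    (∀ x, prog a w ℓ lam P S x ≠ 0 → 0 < lam x ∧ w < -(P x 0) ∧ -(P x 0) < 2 * w * J + w ∧
      ‖Fin.tail (P x)‖ < 15 / 8 * ℓ) ∧
    ∀ (x : X) (j : Fin J), lam x = 1 → -(P x 0) = 2 * w * ((j : ℕ) + 1) →
      ‖Fin.tail (P x)‖ ≤ 7 / 4 * ℓ → prog a w ℓ lam P S x = S j (a (P x) x)

/-- (about 200 lines; uses `S_PrB`, `S_Ch`) **The programme is slow.**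

Proof.  By `S_Ch` it is enough to treat `‖u‖ ≤ ρ = min (ℓ/8) w` (`w ≤ A`).  If `f x = f (a u x) = 0` nothing is to be
shown; exchanging `x, a u x` and `u, -u` (`act_neg`; `|(-u) 0| = |u 0|`) we may assume `f x ≠ 0`.  By `S_PrB` (3)
`0 < lam x`, `|P x 0| < 2 w J + w ≤ A`, `‖Fin.tail (P x)‖ < 15/8 ℓ`, so `BoxSys` applies: `lam (a u x) = lam x`,
`P (a u x) = P x - u`, hence `a (P (a u x)) (a u x) = a (P x) x =: z` (`act_sub`).  So
`f (a u x) - f x = ∑ j, lam x * (T_j' c' - T_j c) • S j z` with `T_j = tent w (2 w (j+1)) (-(P x 0))`,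
`T_j' = tent ... (-(P x 0) + u 0)`, `c = cut ℓ (P x)`, `c' = cut ℓ (P x - u)`.
`T_j' c' - T_j c = (T_j' - T_j) c' + T_j (c' - c)`.  `|T_j' - T_j| ≤ |u 0| / w`, `0 ≤ c' ≤ 1`,
`|c' - c| ≤ 8 ‖Fin.tail u‖ / ℓ`, `0 ≤ T_j`, `∑ j, T_j ≤ 1` (at most one is not `0`).  So the norm is at most
`R * (J |u 0| / w + 8 ‖Fin.tail u‖ / ℓ)`. -/
def S_PrL : Prop :=
  ∀ (n J : ℕ) (X : Type u) [MetricSpace X] (a : Flow (E (n + 1)) X) (A w ℓ R : ℝ) (lam : X → ℝ)
    (P : X → E (n + 1)) (S : Fin J → X → E (n + 1)), 0 < w → 0 < ℓ → 0 ≤ R → 2 * w * J + w ≤ A →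
    BoxSys a A ℓ lam P → (∀ j, Continuous (S j)) → (∀ j z, ‖S j z‖ ≤ R) →
    ∀ x u, ‖prog a w ℓ lam P S (a u x) - prog a w ℓ lam P S x‖ ≤
      J * R / w * |u 0| + 8 * R / ℓ * ‖Fin.tail u‖

/-- (about 200 lines; uses `S_Net`, `S_Slot`, `S_PrB`, `S_PrL`) **One level.**

Proof.  Let `A1`, `A2` be finite nets (`S_Net`, distance `r/4`) of the balls of radius `ρ` and `2 ℓ` in
`E (n + 1)`, `I = A1 × A2` (pairs `(s0, y0)`), `J = (card I) 2^m` (if `J = 0`, i.e. never, take `J ≥ 1`: both nets are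
nonempty as `ρ, ℓ > 0`), `e : I × Fin (2^m) ≃ Fin J`, `CT = J R (2 J + 2)`.  Given `δ`: `w = J R / δ`, so
`2 w (J + 1) = CT / δ ≤ A`.  Let `t i β = 2 w (e (i, β) + 1)`, `S` from `S_Slot`, `S' j = S i β` for `j = e (i, β)`,
`f = prog a w ℓ lam P S'`.  Continuity and bound: `S_PrB`; slow: `S_PrL` (`J R / w = δ`).
Success: `t0 = P x 0`.  Let `z = a (P x) x` and `β` from `S_Slot` for `z`; let `y = P x - ax n (P x 0)`
(`‖y‖ = ‖Fin.tail (P x)‖ ≤ 2 ℓ`), `i = (s0, y0) ∈ I` with `‖s t0 - s0‖ ≤ r/4`, `‖y - y0‖ ≤ r/4`, `j = e (i, β)`,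
`τ = 2 w (j + 1) ∈ [0, CT/δ]`, `t = t0 + τ`, `x' = a (ax n t) x`.  `BoxSys` with `u = ax n t`:
`|P x 0 - t| = τ ≤ A`, so `lam x' = 1`, `P x' = P x - ax n t`, `-(P x' 0) = τ`, `Fin.tail (P x') = Fin.tail (P x)`,
`a (P x') x' = z`.  By `S_PrB` (4) `f x' = S i β z`.  `x' = a (ax n t - P x) z = a (ax n τ - y) z`.  As
`‖s t - s0‖ ≤ r/4 + r/4`, `Succ` gives `a (s t + F x' + f x') x' ∈ U`. -/
def S_Lev : Prop :=
  ∀ (n m : ℕ) (R r ρ ℓ : ℝ), 0 < R → 0 < r → 0 < ρ → 0 < ℓ → ∃ CT : ℝ, 0 < CT ∧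
    ∀ (X : Type u) [MetricSpace X] [CompactSpace X] (a : Flow (E (n + 1)) X) (ι : X → E m) (U : Set X)
      (F : X → E (n + 1)) (A δ : ℝ) (lam : X → ℝ) (P : X → E (n + 1)), Continuous ι →
      Function.Injective ι → IsOpen U → TP a U R r → Continuous F →
      (∀ x u, ‖F (a u x) - F x‖ ≤ ‖u‖) → 0 < δ → CT / δ ≤ A → BoxSys a A ℓ lam P →
      ∃ f : X → E (n + 1), Continuous f ∧ (∀ x, ‖f x‖ ≤ R) ∧
        (∀ x u, ‖f (a u x) - f x‖ ≤ δ * |u 0| + 8 * R / ℓ * ‖Fin.tail u‖) ∧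
        ∀ x, lam x = 1 → |P x 0| ≤ 7 / 4 * A → ‖Fin.tail (P x)‖ ≤ 7 / 4 * ℓ →
          ∃ t0 : ℝ, ∀ s : ℝ → E (n + 1), (∀ t, t0 ≤ t → t ≤ t0 + CT / δ → ‖s t‖ ≤ ρ) →
            (∀ t t', t0 ≤ t → t ≤ t0 + CT / δ → t0 ≤ t' → t' ≤ t0 + CT / δ →
              ‖s t - s t'‖ ≤ r / 4) →
            ∃ t, t0 ≤ t ∧ t ≤ t0 + CT / δ ∧
              a (s t + F (a (ax n t) x) + f (a (ax n t) x)) (a (ax n t) x) ∈ U

/-! ## The displacement field -/

/-- (about 60 lines) **The target property.**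

Proof.  If `X` is empty take `R = r = 1`.  For `x` there is `w` with `a w x ∈ U` (density of the orbit, `U` open and
nonempty); `{(e, x') : a (w + e) x' ∈ U}` is open and contains `(0, x)`, so there are `r_x > 0` and a neighbourhood of
`x` such that `a (w + e) x' ∈ U` for `‖e‖ ≤ 2 r_x` and `x'` in it.  Finitely many of these neighbourhoods cover `X`;
take the maximum of the `‖w‖` (plus `1`) and the minimum of the `r_x`. -/
def S_TP : Prop :=
  ∀ (n : ℕ) (X : Type u) [MetricSpace X] [CompactSpace X] (a : Flow (E n) X) (U : Set X), MinA a →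
    IsOpen U → U.Nonempty → ∃ R r : ℝ, 0 < R ∧ 0 < r ∧ TP a U R r

/-- (about 200 lines; uses `S_BoxA`, `S_Lev`) **All levels.**

Proof.  Let `K = NN (n + 1) m`, `ℓ = 16 R K`, so `8 R / ℓ = 1 / (2 K)`, `ρ = K R`, `CT` from `S_Lev`,
`c = min 1 (r / (4 K CT)) > 0`, `δ k = (min δ (1/4) / K) c^k` for `k < K` (`K ≥ 1`), `A = CT / δ (K - 1)`, so
`CT / δ k ≤ A`.  Let `lam k`, `P k` be from `S_BoxA` for `A, ℓ`.  Construct `f 0, f 1, ..., f (K - 1)` one after the
other (induction on `k ≤ K`): `f k` is the function of `S_Lev` for `F k = ∑ i < k, f i`, `δ k`, `lam k`, `P k`.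
`‖F k (a u x) - F k x‖ ≤ ∑ i < k, (δ i + 1 / (2 K)) ‖u‖ ≤ ‖u‖` as `|u 0|, ‖Fin.tail u‖ ≤ ‖u‖` and `∑ δ i ≤ 1/4`.
Let `g = ∑ i < K, f i`.
(2) `‖g (a (ax n t) x) - g x‖ ≤ ∑ δ i |t| ≤ δ |t|` as `Fin.tail (ax n t) = 0`.
(3) `‖g (a u x) - g x‖ ≤ (1/4 + 1/2) ‖u‖`.
(4) Let `x` be given and `k` from `S_BoxA`, `t0` from `S_Lev`, `s t = ∑ i > k, f i (a (ax n t) x)`:
`‖s t‖ ≤ K R = ρ`; for `t, t'` in the interval of length `CT / δ k`,
`‖s t - s t'‖ ≤ ∑ i > k, δ i |t - t'| ≤ K δ (k + 1) CT / δ k ≤ K c CT ≤ r / 4`.  So there is `t` with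
`a (s t + F k x' + f k x') x' ∈ U`, `x' = a (ax n t) x`, and `s t + F k x' + f k x' = g x'`. -/
def S_Fld : Prop :=
  ∀ (n m : ℕ) (X : Type u) [MetricSpace X] [CompactSpace X] (a : Flow (E (n + 1)) X) (ι : X → E m)
    (U : Set X) (R r δ : ℝ), FreeA a → Continuous ι → Function.Injective ι → IsOpen U → TP a U R r →
    0 < R → 0 < r → 0 < δ →
    ∃ g : X → E (n + 1), Continuous g ∧ (∀ x t, ‖g (a (ax n t) x) - g x‖ ≤ δ * |t|) ∧
      (∀ x u, ‖g (a u x) - g x‖ ≤ 3 / 4 * ‖u‖) ∧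
      ∀ x, ∃ t : ℝ, a (g (a (ax n t) x)) (a (ax n t) x) ∈ U

/-- (about 80 lines) **Slow displacements are homeomorphisms.**

Proof.  `h x = a (g x) x` is continuous.  Injective: if `h x = h x'` then `x' = a (g x - g x') x`, so with
`u = g x - g x'` we get `‖u‖ = ‖g x' - g x‖ = ‖g (a u x) - g x‖ ≤ 3/4 ‖u‖`, `u = 0`, `x' = x`.  Surjective: given `y`
the map `v ↦ g (a (-v) y)` is a contraction of the complete space `E n`
(`a (-v') y = a (v - v') (a (-v) y)`); for its fixed point `v`, `x = a (-v) y`, `h x = a (g x) x = a v (a (-v) y) = y`.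
`X` is compact and Hausdorff (`Continuous.homeoOfEquivCompactToT2`). -/
def S_Hom : Prop :=
  ∀ (n : ℕ) (X : Type u) [MetricSpace X] [CompactSpace X] (a : Flow (E n) X) (g : X → E n),
    Continuous g → (∀ x u, ‖g (a u x) - g x‖ ≤ 3 / 4 * ‖u‖) → ∃ h : X ≃ₜ X, ∀ x, h x = a (g x) x

/-- (about 150 lines) **Limits of flows.**

Proof.  If `X` is empty there is nothing to show for the unique flow of any element of `𝓕`.  Let `U_0, U_1, ...` be
nonempty open sets such that every nonempty open set contains some `U_i` (a countable base, `X` is second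
countable; repeat sets if necessary).  Construct `ψ_0, ψ_1, ...` in `𝓕` and numbers `T_i ≥ i`, `ε_i > 0`:
`ψ_(i+1)` is within `min (ε_0, ..., ε_i, 1) / 2^(i+2)` of `ψ_i` for `|t| ≤ max (T_0, ..., T_i, i)` and every orbit
of `ψ_(i+1)` meets `U_(i+1)` (the same for `ψ_0`, starting from any element of `𝓕`).  By compactness
there are `T_(i+1)` and `ε_(i+1) > 0` such that for every `x` there is `|t| ≤ T_(i+1)` with
`ball (ψ_(i+1) t x) (2 ε_(i+1)) ⊆ U_(i+1)` (for every `x` some `t` and `ε` work in a neighbourhood of `x`).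
For every `t` (locally uniformly in `(t, x)`) the sequence `ψ_i t x` is a Cauchy sequence; let `ψ t x` be the limit:
`dist (ψ t x) (ψ_i t x) ≤ ε_i` for `|t| ≤ T_i`, and uniformly on `{|t| ≤ T} × X` the distance tends to `0`.  So `ψ` is
continuous, `ψ 0 x = x`, and `ψ (s + t) x = lim ψ_i s (ψ_i t x) = ψ s (ψ t x)` (uniform convergence and continuity of
`ψ s`).  For every `x` and `i` there is `t` with `ψ t x ∈ ball (ψ_i t x) (2 ε_i) ⊆ U_i`. -/
def S_Lim : Prop :=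
  ∀ (X : Type u) [MetricSpace X] [CompactSpace X] (𝓕 : Set (Flow ℝ X)), 𝓕.Nonempty →
    (∀ ψ ∈ 𝓕, ∀ U : Set X, IsOpen U → U.Nonempty → ∀ ε T : ℝ, 0 < ε → ∃ ψ' ∈ 𝓕,
      (∀ t x, |t| ≤ T → dist (ψ' t x) (ψ t x) ≤ ε) ∧ ∀ x, ∃ t, ψ' t x ∈ U) →
    ∃ ψ : Flow ℝ X, ∀ x, Dense (range fun t => ψ t x)

/-- (about 150 lines; uses `S_TP`, `S_Fld`, `S_Hom`, `S_Lim`) **The free case.**

Proof.  `φ t x = a (ax n t) x` is a flow (`ax_add`, `ax_zero`, `ax_cont`).  Let `𝓕` be the set of all flows `ψ` such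
that there is `H : X ≃ₜ X` with `ψ t x = H (φ t (H.symm x))` for all `t, x`; `φ ∈ 𝓕`.  Apply `S_Lim`.  Let `ψ ∈ 𝓕`
with `H`, `U`, `ε`, `T` be given.  `H` is uniformly continuous: `dist x y < ε1 → dist (H x) (H y) < ε`.  There is
`ρ > 0` with `dist (a u x) x < ε1` for all `x` and `‖u‖ ≤ ρ` (compactness).  `U' = H ⁻¹' U`; `R, r` from `S_TP`, `g`
from `S_Fld` for `U'` and `δ = ρ / (|T| + 1)`, `h` from `S_Hom`; `H' = h.trans H`,
`ψ' t x = H (h (φ t (h.symm (H.symm x))))`.  With `y = h.symm (H.symm x)`: `H.symm x = h y = a (g y) y` and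
`h (φ t y) = a (g (φ t y)) (φ t y) = a (g (φ t y) - g y) (φ t (a (g y) y))` (commutativity), so
`dist (h (φ t y)) (φ t (H.symm x)) < ε1` for `|t| ≤ T`, and `dist (ψ' t x) (ψ t x) ≤ ε`.  Every orbit of `ψ'` meets
`U`: there is `t` with `h (φ t y) = a (g (φ t y)) (φ t y) ∈ U'`. -/
def S_Fre : Prop :=
  ∀ (n m : ℕ) (X : Type u) [MetricSpace X] [CompactSpace X] (a : Flow (E (n + 1)) X) (ι : X → E m),
    FreeA a → MinA a → Continuous ι → Function.Injective ι →
    ∃ ψ : Flow ℝ X, ∀ x, Dense (range fun t => ψ t x)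

/-! ## The general case -/

/-- (about 80 lines) **Minimal sets.**

Proof.  Zorn's lemma for the closed nonempty invariant subsets (`zorn_superset_nonempty` or
`zorn_superset`): the intersection of a nonempty chain of such sets is nonempty by compactness.  For a minimal one
`M` and `x ∈ M` the closure of the orbit of `x` is closed, nonempty, invariant and contained in `M`, so it is
`M`. -/
def S_MS : Prop :=
  ∀ (n : ℕ) (X : Type u) [MetricSpace X] [CompactSpace X] [Nonempty X] (a : Flow (E n) X),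
    ∃ M : Set X, IsClosed M ∧ M.Nonempty ∧ (∀ x ∈ M, ∀ u, a u x ∈ M) ∧
      ∀ x ∈ M, M ⊆ closure (range fun u => a u x)

/-- the action `v ↦ v + (c · v) γ` of the hyperplane `v i0 = 0` -/
noncomputable def hyp {n : ℕ} (i0 : Fin (n + 2)) (γ : E (n + 2)) (c v : E (n + 1)) : E (n + 2) :=
  i0.insertNth (α := fun _ => ℝ) 0 v + (∑ i, c i * v i) • γ

/-- (about 200 lines; uses `S_MS`) **A dense set of directions.**

`γ i0 ≠ 0` and `a γ x = x` for all `x`.  Proof.  Let `α v x = a (hyp i0 γ c v) x`, an action of `E (n + 1)`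
(`hyp` is additive in `v`).  Let `M` be from `S_MS` for `α`.  `X = ⋃ θ ∈ [0, 1], a (θ γ) M`: the right side is
compact, nonempty, invariant under `a (θ γ)` for all real `θ` (`a γ = id`) and under `α`, so under `a` as every
vector of `E (n + 2)` is `hyp i0 γ c v + θ γ` for some `v, θ` (`γ i0 ≠ 0`); as `a` is minimal it is dense and closed,
so it is `X`.  Choose `θM` and a point of `M` which `a (θM γ)` maps into `U`.  By minimality of `M` and
compactness there are `T, ξ > 0` such that for every `m ∈ M` there is `v`, `‖v‖ ≤ T`, with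
`a (e γ) (a (θM γ) (α v m)) ∈ U` for all `|e| ≤ ξ` (`M ⊆ closure (orbit of m)`).
Let `c' i = c i` for `i ≠ 0`, `c' 0 = c 0 + ε1` with `0 < ε1 < ε`, `ε1 T ≤ ξ`.  Then
`hyp i0 γ c' v = hyp i0 γ c v + (ε1 v 0) γ`.  Let `x ∈ X`, `x = a (θ1 γ) m`, `m ∈ M`.  Let
`v0 = ((θM - θ1) / ε1, 0, ..., 0)`, `m' = α v0 m ∈ M`, and `v` for `m'` as above.  Then
`a (hyp i0 γ c' (v + v0)) x = a ((ε1 (v 0) + θM - θ1) γ) (a (θ1 γ) (α v (α v0 m))) =
a ((ε1 v 0) γ) (a (θM γ) (α v m')) ∈ U` as `|ε1 v 0| ≤ ξ`.  `dist c' c ≤ ε1 < ε`. -/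
def S_Dn : Prop :=
  ∀ (n : ℕ) (X : Type u) [MetricSpace X] [CompactSpace X] [Nonempty X] (a : Flow (E (n + 2)) X)
    (i0 : Fin (n + 2)) (γ : E (n + 2)) (U : Set X), MinA a → γ i0 ≠ 0 → (∀ x, a γ x = x) → IsOpen U →
    U.Nonempty → ∀ (c : E (n + 1)) (ε : ℝ), 0 < ε →
    ∃ c' : E (n + 1), dist c' c < ε ∧ ∀ x, ∃ v : E (n + 1), a (hyp i0 γ c' v) x ∈ U

/-- (about 100 lines; uses `S_Dn`) **A minimal action which is not free gives a minimal action of a smaller
group.**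

Proof.  If `X` is empty take the restriction of `a`.  Let `u ≠ 0`, `a u x0 = x0`.  `a u (a v x0) = a v x0` for all
`v`, so `a u = id` on a dense set, so everywhere; `γ = u`, `γ i0 ≠ 0`.  For nonempty open `U` the set
`D U = {c | ∀ x, ∃ v, a (hyp i0 γ c v) x ∈ U}` is dense by `S_Dn` and open: for `c ∈ D U` and every `x` there are `v`
and neighbourhoods of `x` and of `c` in which this `v` works; use compactness of `X`.  `X` is second countable; by
Baire's theorem (`dense_iInter_of_isOpen` ...) there is `c` in `D U` for all nonempty `U` of a countable base.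
`a' v x = a (hyp i0 γ c v) x` is the action. -/
def S_Drop : Prop :=
  ∀ (n : ℕ) (X : Type u) [MetricSpace X] [CompactSpace X] (a : Flow (E (n + 2)) X), MinA a →
    ¬ FreeA a → ∃ a' : Flow (E (n + 1)) X, MinA a'

/-- (about 60 lines; uses `S_Fre`, `S_Drop`) **The theorem for compact metric spaces.**

Proof by induction on `n`.  If `a` is free use `S_Fre`.  If `a` is not free and `n ≥ 1` use `S_Drop` and the
induction hypothesis.  If `n = 0` then `ψ t x = a (ax 0 t) x` is a minimal flow: every `u : E 1` is `ax 0 (u 0)`. -/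
def S_Met : Prop :=
  ∀ (n m : ℕ) (X : Type u) [MetricSpace X] [CompactSpace X] (a : Flow (E (n + 1)) X) (ι : X → E m),
    MinA a → Continuous ι → Function.Injective ι →
    ∃ ψ : Flow ℝ X, ∀ x, Dense (range fun t => ψ t x)

/-- (about 60 lines; uses `S_Met`) **The theorem for compact spaces which embed in `ℝ^m`.**

Proof.  A continuous injective map of a compact space to the Hausdorff space `E m` is a closed embedding
(`Continuous.isClosedEmbedding`), so there is a metric on `X` which induces the given topology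
(`Topology.IsEmbedding.comapMetricSpace`, whose topology is by definition the given one). -/
def S_Top : Prop :=
  ∀ (n m : ℕ) (X : Type u) [TopologicalSpace X] [CompactSpace X] (a : Flow (E (n + 1)) X) (ι : X → E m),
    MinA a → Continuous ι → Function.Injective ι →
    ∃ ψ : Flow ℝ X, ∀ x, Dense (range fun t => ψ t x)

/-- (about 150 lines) **Compact manifolds embed in some `ℝ^m`.**

Proof.  By compactness there are finitely many points `x_1, ..., x_k` such that the sources of the charts at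
`x_i` (open) cover `M`.  `M` is compact Hausdorff, so normal; take a partition of unity `ρ_i` subordinate to the
sources (`PartitionOfUnity.exists_isSubordinate` or `BumpCovering`), i.e. continuous `ρ_i ≥ 0` with sum `1` and closed
support in the source `U_i` of the chart `φ_i`.  The map `f_i x = ρ_i x • φ_i x` for `x ∈ U_i`, `0` otherwise, is
continuous, as is `x ↦ (ρ_i x, f_i x)_i` with values in a product of `k` copies of `ℝ × ℝ^d`.  Injective: if
`x, x'` have the same image choose `i` with `ρ_i x > 0`; then `ρ_i x' = ρ_i x > 0`, so `x, x' ∈ U_i` and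
`φ_i x = φ_i x'`, so `x = x'`.  Finally the product is `E m` for `m = k (1 + d)`. -/
def S_Emb : Prop :=
  ∀ (d : ℕ) (M : Type u) [TopologicalSpace M] [T2Space M] [CompactSpace M]
    [ChartedSpace (EuclideanSpace ℝ (Fin d)) M],
    ∃ (m : ℕ) (ι : M → E m), Continuous ι ∧ Function.Injective ι

end Pool.Agent.MP98850d
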