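import Pool.Agent.Lib.MP_98850d_an.SpecB

/-! # MP_98850d_an: boxes of bounded multiplicity -/

set_option autoImplicit false

namespace Pool.Agent.MP98850d

open Set Filter Topology

universe u

theorem tBox (hOpn : S_Opn.{u}) (hBk : S_Bk.{u}) (hHat : S_Hat.{u}) : S_Box.{u} := by
  intro n m X _ _ a ι hfree hι hιinj
  obtain ⟨O, hO, hcls, hcov⟩ := hOpn n m X a ι (1 / 8) hfree hι hιinj (by norm_num) le_rfl
  obtain ⟨b, hbc, hb01, hbO, hb1⟩ := hBk n X a (Fin (n + m + 1) × Fin (19 ^ n + 1))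
    (fun k => O k.1 k.2) (13 / 8) (by norm_num) (fun k => hO k.1 k.2) (by
      intro x
      obtain ⟨k, l, u, hu, hx⟩ := hcov x
      exact ⟨(k, l), u, by linarith, hx⟩)
  choose lam P hlam hP h01 hbox hcore using fun k => hHat n X a (b k) (hbc k) (hb01 k)
    (fun x u hx hux hu => hcls k.1 k.2 x u (hbO k x hx) (hbO k _ hux) hu)
  let e : Fin (NN n m) ≃ Fin (n + m + 1) × Fin (19 ^ n + 1) := finProdFinEquiv.symm
  refine ⟨fun k => lam (e k), fun k => P (e k), fun k => hlam _, fun k => hP _, fun k => h01 _,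
    fun k => hbox _, fun x => ?_⟩
  obtain ⟨k, u, hu, hx⟩ := hb1 x
  refine ⟨e.symm k, ?_⟩
  change lam (e (e.symm k)) x = 1 ∧ ‖P (e (e.symm k)) x‖ ≤ 7 / 4
  rw [Equiv.apply_symm_apply]
  exact hcore k x u hu hx

end Pool.Agent.MP98850d
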