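import Pool.Agent.Lib.MP_98850d_an.SpecB

/-! # MP_98850d_an: boxes of any size -/

set_option autoImplicit false

namespace Pool.Agent.MP98850d

open Set Filter Topology

universe u

/-- the rescaling -/
noncomputable def boxa_D {n : ℕ} (A ℓ : ℝ) (u : E (n + 1)) : E (n + 1) :=
  Fin.cons (α := fun _ => ℝ) (A * u 0) (ℓ • Fin.tail u)

theorem boxa_zero {n : ℕ} (A ℓ : ℝ) (u : E (n + 1)) : boxa_D A ℓ u 0 = A * u 0 := rfl

theorem boxa_succ {n : ℕ} (A ℓ : ℝ) (u : E (n + 1)) (i : Fin n) :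
    boxa_D A ℓ u i.succ = ℓ * u i.succ := rfl

theorem boxa_tail {n : ℕ} (A ℓ : ℝ) (u : E (n + 1)) : Fin.tail (boxa_D A ℓ u) = ℓ • Fin.tail u := rfl

theorem boxa_add {n : ℕ} (A ℓ : ℝ) (u v : E (n + 1)) :
    boxa_D A ℓ (u + v) = boxa_D A ℓ u + boxa_D A ℓ v := by
  funext i
  refine Fin.cases ?_ (fun i => ?_) i
  · rw [Pi.add_apply, boxa_zero, boxa_zero, boxa_zero, Pi.add_apply, mul_add]
  · rw [Pi.add_apply, boxa_succ, boxa_succ, boxa_succ, Pi.add_apply, mul_add]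

theorem boxa_sub {n : ℕ} (A ℓ : ℝ) (u v : E (n + 1)) :
    boxa_D A ℓ (u - v) = boxa_D A ℓ u - boxa_D A ℓ v := by
  funext i
  refine Fin.cases ?_ (fun i => ?_) i
  · rw [Pi.sub_apply, boxa_zero, boxa_zero, boxa_zero, Pi.sub_apply, mul_sub]
  · rw [Pi.sub_apply, boxa_succ, boxa_succ, boxa_succ, Pi.sub_apply, mul_sub]

theorem boxa_cont {n : ℕ} (A ℓ : ℝ) : Continuous (boxa_D (n := n) A ℓ) := by
  apply continuous_pi
  intro i
  refine Fin.cases ?_ (fun i => ?_) i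
  · exact continuous_const.mul (continuous_apply 0)
  · exact continuous_const.mul (continuous_apply i.succ)

theorem boxa_inv {n : ℕ} {A ℓ : ℝ} (hA : 0 < A) (hℓ : 0 < ℓ) (u : E (n + 1)) :
    boxa_D A ℓ (boxa_D A⁻¹ ℓ⁻¹ u) = u := by
  funext i
  refine Fin.cases ?_ (fun i => ?_) i
  · rw [boxa_zero, boxa_zero, mul_inv_cancel_left₀ hA.ne']
  · rw [boxa_succ, boxa_succ, mul_inv_cancel_left₀ hℓ.ne']

theorem boxa_norm {n : ℕ} {A ℓ c : ℝ} (hA : 0 < A) (hℓ : 0 < ℓ) {p : E (n + 1)}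
    (h0 : |boxa_D A ℓ p 0| ≤ c * A) (h1 : ‖Fin.tail (boxa_D A ℓ p)‖ ≤ c * ℓ) : ‖p‖ ≤ c := by
  rw [boxa_zero, abs_mul, abs_of_pos hA, mul_comm, mul_le_mul_iff_left₀ hA] at h0
  rw [boxa_tail, norm_smul, Real.norm_of_nonneg hℓ.le, mul_comm, mul_le_mul_iff_left₀ hℓ] at h1
  exact norm_le_head_tail p h0 h1

theorem tBoxA (hBox : S_Box.{u}) : S_BoxA.{u} := by
  intro n m X _ _ a ι A ℓ hfree hι hιinj hA hℓ
  let a' : Flow (E (n + 1)) X :=
    { toFun := fun u x => a (boxa_D A ℓ u) x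
      cont' := a.continuous ((boxa_cont A ℓ).comp continuous_fst) continuous_snd
      map_add' := fun u v x => by rw [boxa_add, act_add]
      map_zero' := fun x => by
        have : boxa_D A ℓ (0 : E (n + 1)) = 0 := by
          have h := boxa_sub A ℓ (0 : E (n + 1)) 0
          rwa [sub_self, sub_self] at h
        rw [this, act_zero] }
  have ha' : ∀ u x, a' u x = a (boxa_D A ℓ u) x := fun _ _ => rfl
  have hfree' : FreeA a' := by
    intro u x h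
    have h1 := hfree _ x h
    have h2 : ‖u‖ ≤ 0 := by
      apply boxa_norm hA hℓ
      · rw [h1, Pi.zero_apply, abs_zero, zero_mul]
      · rw [h1, zero_mul]
        have : Fin.tail (0 : E (n + 1)) = 0 := rfl
        rw [this, norm_zero]
    exact norm_le_zero_iff.1 h2
  obtain ⟨lam, P, hlam, hP, h01, hbox, hcore⟩ := hBox (n + 1) m X a' ι hfree' hι hιinj
  refine ⟨lam, fun k x => boxa_D A ℓ (P k x), fun k => ⟨hlam k, (boxa_cont A ℓ).comp (hP k), h01 k,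
    ?_⟩, fun x => ?_⟩
  · intro x u hl h0 ht h0' ht'
    have hu : boxa_D A ℓ (boxa_D A⁻¹ ℓ⁻¹ u) = u := boxa_inv hA hℓ u
    have h1 : ‖P k x‖ ≤ 2 := boxa_norm hA hℓ h0 ht
    have h2 : ‖P k x - boxa_D A⁻¹ ℓ⁻¹ u‖ ≤ 2 := by
      apply boxa_norm hA hℓ
      · rw [boxa_sub, hu]
        exact h0'
      · rw [boxa_sub, hu]
        exact ht'
    obtain ⟨e1, e2⟩ := hbox k x _ hl h1 h2
    rw [ha', hu] at e1 e2
    refine ⟨e1, ?_⟩
    change boxa_D A ℓ (P k (a u x)) = boxa_D A ℓ (P k x) - u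
    rw [e2, boxa_sub, hu]
  · obtain ⟨k, hk1, hk2⟩ := hcore x
    refine ⟨k, hk1, ?_, ?_⟩
    · change |boxa_D A ℓ (P k x) 0| ≤ 7 / 4 * A
      rw [boxa_zero, abs_mul, abs_of_pos hA, mul_comm]
      exact mul_le_mul_of_nonneg_right ((norm_le_pi_norm _ _).trans hk2) hA.le
    · change ‖Fin.tail (boxa_D A ℓ (P k x))‖ ≤ 7 / 4 * ℓ
      rw [boxa_tail, norm_smul, Real.norm_of_nonneg hℓ.le, mul_comm]
      exact mul_le_mul_of_nonneg_right ((norm_tail_le _).trans hk2) hℓ.le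

end Pool.Agent.MP98850d
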