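import Pool.Agent.Lib.MP_98850d_an.SpecB

/-! # MP_98850d_an: labels are constant on clusters -/

set_option autoImplicit false

namespace Pool.Agent.MP98850d

open Set Filter Topology

universe u

theorem ci_used (hHI : S_HI.{u}) {n q : ℕ} {X : Type u} [MetricSpace X] (a : Flow (E n) X) {r s : ℝ}
    {b : Fin q → X → ℝ} {st : Fin q → X → ℕ} (hr : 0 < r) (hr8 : r ≤ 1 / 8) (hbas : Bas a r b)
    {W : ℝ} {j : Fin q} {y : X} {u : E n} (hy : 0 < b j y) (huy : 0 < b j (a u y)) (hu : ‖u‖ ≤ 20) :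
    Used a r s b st W j (a u y) ⊆ Used a r s b st W j y := by
  obtain ⟨hbc, hb01, hcls⟩ := hbas
  rintro l ⟨hl, i, hij, w', h1, h2, h3⟩
  rw [← act_add] at h1 h2
  refine ⟨hl, i, hij, w' + u, h1, h2, ?_⟩
  have h4 := (hHI n X a r W (b j) (b i) y u (w' + u) w' hr hr8 (hbc j) (hbc i) (fun x => (hb01 j x).1)
    (fun x => (hb01 i x).1) (hcls j) (hcls i) hy huy hu).2 (by linarith)
    (by rw [← act_add]; linarith) (by rw [sub_self, norm_zero]; norm_num)
  rw [← h4]
  exact h3

theorem tCI (hHI : S_HI.{u}) : S_CI.{u} := by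
  classical
  intro n q X _ a r s b st hr hr8 hbas hst j y u hy huy hu
  have hback : 0 < b j (a (-u) (a u y)) := by rwa [act_neg]
  have hU : ∀ W, Used a r s b st W j (a u y) = Used a r s b st W j y := by
    intro W
    apply Subset.antisymm (ci_used hHI a hr hr8 hbas hy huy hu)
    have h := ci_used hHI a (s := s) (st := st) (W := W) hr hr8 hbas (y := a u y) (u := -u) huy hback
      (by rwa [norm_neg])
    rwa [act_neg] at h
  have hH : hgt a r (b j) (a u y) = hgt a r (b j) y :=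
    (hHI n X a r 0 (b j) (b j) y u 0 0 hr hr8 (hbas.1 j) (hbas.1 j) (fun x => (hbas.2.1 j x).1)
    (fun x => (hbas.2.1 j x).1) (hbas.2.2 j) (hbas.2.2 j) hy huy hu).1
  rw [hst j (a u y), hst j y, hU 1, hU 8, hH]

end Pool.Agent.MP98850d
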