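import Pool.Agent.Lib.MP_98850d_an.SpecB

/-! # MP_98850d_an: from small to arbitrary displacements -/

set_option autoImplicit false

namespace Pool.Agent.MP98850d

open Set Filter Topology

universe u

theorem tCh : S_Ch.{u} := by
  intro n k X _ a f ρ c0 c1 hρ h x u
  obtain ⟨N, hN⟩ := exists_nat_gt (‖u‖ / ρ)
  have hN0 : (0 : ℝ) < N := lt_of_le_of_lt (by positivity) hN
  set v : E (n + 1) := (1 / (N : ℝ)) • u with hv
  have hv1 : ‖v‖ ≤ ρ := by
    rw [hv, norm_smul, Real.norm_of_nonneg (by positivity), one_div, inv_mul_le_iff₀ hN0]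
    rw [div_lt_iff₀ hρ] at hN
    linarith
  have hind : ∀ i : ℕ, ‖f (a ((i : ℝ) • v) x) - f x‖ ≤ i * (c0 * |v 0| + c1 * ‖Fin.tail v‖) := by
    intro i
    induction i with
    | zero =>
      rw [Nat.cast_zero, zero_smul, act_zero, sub_self, norm_zero, zero_mul]
    | succ i ih =>
      have h1 := h (a ((i : ℝ) • v) x) v hv1
      rw [← act_add] at h1
      have h2 : ((i + 1 : ℕ) : ℝ) • v = v + (i : ℝ) • v := by
        rw [Nat.cast_add, Nat.cast_one, add_smul, one_smul, add_comm v]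
      rw [h2]
      calc ‖f (a (v + (i : ℝ) • v) x) - f x‖
          = ‖(f (a (v + (i : ℝ) • v) x) - f (a ((i : ℝ) • v) x)) + (f (a ((i : ℝ) • v) x) - f x)‖ := by
            rw [sub_add_sub_cancel]
        _ ≤ _ := norm_add_le _ _
        _ ≤ (c0 * |v 0| + c1 * ‖Fin.tail v‖) + i * (c0 * |v 0| + c1 * ‖Fin.tail v‖) := add_le_add h1 ih
        _ = _ := by rw [Nat.cast_add, Nat.cast_one]; ring
  have hfin := hind N
  have hNv : (N : ℝ) • v = u := by
    rw [hv, smul_smul, mul_one_div_cancel hN0.ne', one_smul]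
  rw [hNv] at hfin
  have e1 : (N : ℝ) * |v 0| = |u 0| := by
    rw [hv, Pi.smul_apply, smul_eq_mul, abs_mul, abs_of_pos (by positivity : 0 < 1 / (N : ℝ))]
    field_simp
  have e2 : (N : ℝ) * ‖Fin.tail v‖ = ‖Fin.tail u‖ := by
    have : Fin.tail v = (1 / (N : ℝ)) • Fin.tail u := by
      funext i
      simp [hv, Fin.tail]
    rw [this, norm_smul, Real.norm_of_nonneg (by positivity)]
    field_simp
  calc ‖f (a u x) - f x‖ ≤ N * (c0 * |v 0| + c1 * ‖Fin.tail v‖) := hfin
    _ = c0 * (N * |v 0|) + c1 * (N * ‖Fin.tail v‖) := by ring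
    _ = _ := by rw [e1, e2]

end Pool.Agent.MP98850d
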