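import Pool.Agent.Lib.MP_98850d_an.SpecB

/-! # MP_98850d_an: the covering property is dense -/

set_option autoImplicit false

namespace Pool.Agent.MP98850d

open Set Filter Topology

universe u

theorem tCovD (hLip : S_Lip.{u}) (hCube : S_Cube) : S_CovD.{u} := by
  intro n m q X _ _ a ι Q D P b τ η hι hιinj hP hPeq hb hτ hη
  set χ : X → E n × E m := fun y => (P y, ι (a (P y) y)) with hχ
  have hχc : Continuous χ := hP.prodMk (hι.comp (a.continuous hP continuous_id))
  have hχinj : Function.Injective χ := by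
    intro y y' h
    have h1 : P y = P y' := congrArg Prod.fst h
    have h2 : ι (a (P y) y) = ι (a (P y') y') := congrArg Prod.snd h
    have h3 := hιinj h2
    rw [h1] at h3
    exact act_inj a _ h3
  choose G L hL hGL hG using fun j => hLip X (E n × E m) χ (b j) τ hχc hχinj (hb j) hτ
  have hGc : ∀ j, Continuous (G j) := by
    intro j
    exact (LipschitzWith.of_dist_le_mul (K := ⟨L j, (hL j).le⟩) (fun p p' => hGL j p p')).continuous
  set L0 : ℝ := 1 + ∑ j, L j with hL0
  have hL0pos : 0 < L0 := by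
    have : 0 ≤ ∑ j, L j := Finset.sum_nonneg (fun j _ => (hL j).le)
    linarith
  have hLle : ∀ j, L j ≤ L0 := by
    intro j
    have := Finset.single_le_sum (f := L) (fun j _ => (hL j).le) (Finset.mem_univ j)
    linarith
  obtain ⟨M1, hM1⟩ := isCompact_univ.exists_bound_of_continuousOn hP.continuousOn
  obtain ⟨M2, hM2⟩ := isCompact_univ.exists_bound_of_continuousOn hι.continuousOn
  set M := max (max M1 M2) 0 with hM
  have hPM : ∀ x, ‖P x‖ ≤ M := fun x =>
    (hM1 x (mem_univ x)).trans ((le_max_left _ _).trans (le_max_left _ _))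
  have hιM : ∀ x, ‖ι x‖ ≤ M := fun x =>
    (hM2 x (mem_univ x)).trans ((le_max_right _ _).trans (le_max_left _ _))
  obtain ⟨C1, hC1, hcube1⟩ := hCube n M (le_max_right _ _)
  obtain ⟨C2, hC2, hcube2⟩ := hCube m M (le_max_right _ _)
  set Z : ℝ := C1 ^ n * C2 ^ m * L0 ^ (n + m + 1) with hZ
  have hZpos : 0 < Z := by positivity
  set ε : ℝ := min 1 (η / (2 * Z)) with hε
  have hεpos : 0 < ε := lt_min one_pos (by positivity)
  have hε1 : ε ≤ 1 := min_le_left _ _
  have hεη : Z * ε < η := by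
    have h1 : ε ≤ η / (2 * Z) := min_le_right _ _
    calc Z * ε ≤ Z * (η / (2 * Z)) := mul_le_mul_of_nonneg_left h1 hZpos.le
      _ = η / 2 := by field_simp
      _ < η := by linarith
  obtain ⟨κ1, hκ1, B1, hcard1, hcov1, hB1⟩ := hcube1 ε hεpos hε1
  obtain ⟨κ2, hκ2, B2, hcard2, hcov2, hB2⟩ := hcube2 ε hεpos hε1
  refine ⟨fun j y => G j (χ y), fun j => (hGc j).comp hχc, fun j x => ?_, ?_⟩
  · rw [abs_sub_comm]
    exact hG j x
  refine ⟨κ1 × κ2, inferInstance, fun i => {x | x ∈ D ∧ P x ∈ B1 i.1 ∧ ι (a (P x) x) ∈ B2 i.2},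
    fun _ => L0 * ε, fun _ => by positivity, ?_, ?_, ?_⟩
  · intro x hx
    obtain ⟨i, hi⟩ := mem_iUnion.1 (hcov1 (show P x ∈ Metric.closedBall 0 M by
      simpa using hPM x))
    obtain ⟨i', hi'⟩ := mem_iUnion.1 (hcov2 (show ι (a (P x) x) ∈ Metric.closedBall 0 M by
      simpa using hιM (a (P x) x)))
    exact mem_iUnion.2 ⟨(i, i'), hx, hi, hi'⟩
  · rw [Finset.sum_const, Finset.card_univ, Fintype.card_prod, nsmul_eq_mul, Nat.cast_mul]
    refine lt_of_le_of_lt ?_ hεη
    calc (Fintype.card κ1 : ℝ) * (Fintype.card κ2 : ℝ) * (L0 * ε) ^ (n + m + 1)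
        ≤ (C1 / ε) ^ n * (C2 / ε) ^ m * (L0 * ε) ^ (n + m + 1) := by
          apply mul_le_mul_of_nonneg_right _ (by positivity)
          exact mul_le_mul hcard1 hcard2 (Nat.cast_nonneg _) (by positivity)
      _ = Z * ε := by
          rw [hZ, div_pow, div_pow, mul_pow, pow_succ ε, pow_add ε]
          field_simp
  · rintro ⟨i, i'⟩ x ⟨hx, hx1, hx2⟩ x' ⟨hx', hx1', hx2'⟩ j u hu
    have e1 : χ (a u x) = (P x - u, ι (a (P x) x)) := by
      rw [hχ]
      simp only
      rw [hPeq x hx u hu, act_sub]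
    have e2 : χ (a u x') = (P x' - u, ι (a (P x') x')) := by
      rw [hχ]
      simp only
      rw [hPeq x' hx' u hu, act_sub]
    have hd : dist (χ (a u x)) (χ (a u x')) ≤ ε := by
      rw [e1, e2, Prod.dist_eq]
      apply max_le
      · rw [dist_sub_right]
        exact hB1 i _ hx1 _ hx1'
      · exact hB2 i' _ hx2 _ hx2'
    calc |G j (χ (a u x)) - G j (χ (a u x'))| ≤ L j * dist (χ (a u x)) (χ (a u x')) := hGL j _ _
      _ ≤ L0 * ε := mul_le_mul (hLle j) hd dist_nonneg hL0pos.le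

end Pool.Agent.MP98850d
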