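import Mathlib

/-!
# MP_98850d_an: a minimal action of `ℝ^n` gives a minimal flow; definitions and basic lemmas
-/

set_option autoImplicit false

namespace Pool.Agent.MP98850d

open Set Filter Topology

universe u

/-- the group `ℝ^n` with the sup norm -/
abbrev E (n : ℕ) : Type := Fin n → ℝ

/-- a free action of `ℝ^n` -/
def FreeA {n : ℕ} {X : Type u} [TopologicalSpace X] (a : Flow (E n) X) : Prop :=
  ∀ u x, a u x = x → u = 0

/-- a minimal action: every orbit is dense -/
def MinA {n : ℕ} {X : Type u} [TopologicalSpace X] (a : Flow (E n) X) : Prop :=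
  ∀ x, Dense (range (fun u => a u x))

/-- points of `V` at distance at most `w` along an orbit are at distance less than `r` along the orbit -/
def Cls {n : ℕ} {X : Type u} [TopologicalSpace X] (a : Flow (E n) X) (r w : ℝ) (V : Set X) : Prop :=
  ∀ x u, x ∈ V → a u x ∈ V → ‖u‖ ≤ w → ‖u‖ < r

/-- all `b j` are continuous with values in `[0, 1]`, and `{b j > 0}` has property `Cls` with window `20` -/
def Bas {n q : ℕ} {X : Type u} [TopologicalSpace X] (a : Flow (E n) X) (r : ℝ)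
    (b : Fin q → X → ℝ) : Prop :=
  (∀ j, Continuous (b j)) ∧ (∀ j x, 0 ≤ b j x ∧ b j x ≤ 1) ∧ ∀ j, Cls a r 20 {x | 0 < b j x}

/-- a finite cover of `S` by sets `B i` such that all functions `b j (a u ·)`, `‖u‖ ≤ Q`, oscillate by at most
`ε i` on `B i`, with `∑ ε i ^ N < η` -/
def Cov {n q : ℕ} {X : Type u} [TopologicalSpace X] (a : Flow (E n) X) (Q : ℝ) (b : Fin q → X → ℝ)
    (S : Set X) (N : ℕ) (η : ℝ) : Prop :=
  ∃ (κ : Type) (_ : Fintype κ) (B : κ → Set X) (ε : κ → ℝ), (∀ i, 0 < ε i) ∧ S ⊆ ⋃ i, B i ∧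
    ∑ i, ε i ^ N < η ∧
    ∀ i, ∀ x ∈ B i, ∀ x' ∈ B i, ∀ j, ∀ u : E n, ‖u‖ ≤ Q → |b j (a u x) - b j (a u x')| ≤ ε i

/-- the height near `y`: the supremum of `b` over the ball of radius `r` in the orbit -/
noncomputable def hgt {n : ℕ} {X : Type u} [TopologicalSpace X] (a : Flow (E n) X) (r : ℝ)
    (b : X → ℝ) (y : X) : ℝ :=
  sSup ((fun u => b (a u y)) '' Metric.closedBall (0 : E n) r)

/-- a cut-off: `1` or more for `‖v‖ ≤ W`, `0` for `W + 1/4 ≤ ‖v‖` -/
noncomputable def kap {n : ℕ} (W : ℝ) (v : E n) : ℝ := max 0 (1 + 4 * (W - ‖v‖))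

/-- the interaction of `b` near `y` and `b'` near `a w y` -/
noncomputable def om {n : ℕ} {X : Type u} [TopologicalSpace X] (a : Flow (E n) X) (r W : ℝ)
    (b b' : X → ℝ) (y : X) (w : E n) : ℝ :=
  sSup ((fun p : E n × E n => min (b (a p.1 y)) (min (b' (a (w + p.2) y)) (kap W (w + p.2 - p.1)))) ''
    (Metric.closedBall (0 : E n) r ×ˢ Metric.closedBall (0 : E n) r))

/-- no coincidence in the window of radius `Q` around `x` for the parameter `s` -/
def Good {n q : ℕ} {X : Type u} [TopologicalSpace X] (a : Flow (E n) X) (r Q s : ℝ)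
    (b : Fin q → X → ℝ) (x : X) : Prop :=
  (∀ j, ∀ u : E n, ‖u‖ ≤ Q → 1 / 4 ≤ b j (a u x) → hgt a r (b j) (a u x) ≠ 1 / 2 + s / 4) ∧
  ∀ W : ℝ, (W = 1 ∨ W = 8) → ∀ j i, ∀ u v : E n, ‖u‖ ≤ Q → ‖v‖ ≤ Q → 1 / 4 ≤ b j (a u x) →
    1 / 4 ≤ b i (a v x) → om a r W (b j) (b i) (a u x) (v - u) ≠ 1 / 4 + s / 4

/-- the labels `l ≥ 1` used by the points of type `i < j` which interact with `y` in the window `W` -/
def Used {n q : ℕ} {X : Type u} [TopologicalSpace X] (a : Flow (E n) X) (r s : ℝ)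
    (b : Fin q → X → ℝ) (st : Fin q → X → ℕ) (W : ℝ) (j : Fin q) (y : X) : Set ℕ :=
  {l | 1 ≤ l ∧ ∃ i, i < j ∧ ∃ w : E n, 1 / 4 ≤ b i (a w y) ∧ st i (a w y) = l ∧
    1 / 4 + s / 4 < om a r W (b j) (b i) y w}

open Classical in
/-- `st` is the greedy labelling: `st j y = 0` if `y` is too low or near a labelled point of smaller type,
otherwise the least label `l ≥ 1` which is not used in the window `8` -/
def IsSt {n q : ℕ} {X : Type u} [TopologicalSpace X] (a : Flow (E n) X) (r s : ℝ)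
    (b : Fin q → X → ℝ) (st : Fin q → X → ℕ) : Prop :=
  ∀ j y, st j y = if 1 / 2 + s / 4 < hgt a r (b j) y ∧ Used a r s b st 1 j y = ∅ then
    sInf {l | 1 ≤ l ∧ l ∉ Used a r s b st 8 j y} else 0

/-- the number of colours -/
def NN (n m : ℕ) : ℕ := (n + m + 1) * (19 ^ n + 1)

/-- the vector `(t, 0, ..., 0)` -/
def ax (n : ℕ) (t : ℝ) : E (n + 1) := Fin.cons t 0

/-- `lam, P` is a system of boxes of size `|p 0| ≤ 2 A`, `‖tail p‖ ≤ 2 ℓ` -/
def BoxSys {n : ℕ} {X : Type u} [TopologicalSpace X] (a : Flow (E (n + 1)) X) (A ℓ : ℝ)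
    (lam : X → ℝ) (P : X → E (n + 1)) : Prop :=
  Continuous lam ∧ Continuous P ∧ (∀ x, 0 ≤ lam x ∧ lam x ≤ 1) ∧
  ∀ x u, 0 < lam x → |P x 0| ≤ 2 * A → ‖Fin.tail (P x)‖ ≤ 2 * ℓ →
    |P x 0 - u 0| ≤ 2 * A → ‖Fin.tail (P x - u)‖ ≤ 2 * ℓ →
    lam (a u x) = lam x ∧ P (a u x) = P x - u

/-- the target property: within distance `R` of every point of every orbit there is a ball of radius `2 r`
(along the orbit) contained in `U` -/
def TP {n : ℕ} {X : Type u} [TopologicalSpace X] (a : Flow (E n) X) (U : Set X) (R r : ℝ) : Prop :=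
  ∀ x, ∃ w : E n, ‖w‖ ≤ R ∧ ∀ e : E n, ‖e‖ ≤ 2 * r → a (w + e) x ∈ U

/-- the value `σ` is successful at the node `t` of the box with centre `z` -/
def Succ {n : ℕ} {X : Type u} [TopologicalSpace X] (a : Flow (E (n + 1)) X) (U : Set X) (r : ℝ)
    (F : X → E (n + 1)) (t : ℝ) (s0 y0 : E (n + 1)) (z : X) (σ : E (n + 1)) : Prop :=
  ∀ s y : E (n + 1), ‖s - s0‖ ≤ r / 2 → ‖y - y0‖ ≤ r / 4 →
    a (s + F (a (ax n t - y) z) + σ) (a (ax n t - y) z) ∈ U

/-- the tent function with centre `c` and half width `w` -/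
noncomputable def tent (w c τ : ℝ) : ℝ := max 0 (1 - |τ - c| / w)

/-- the cut-off in the directions different from the first one -/
noncomputable def cut {n : ℕ} (ℓ : ℝ) (p : E (n + 1)) : ℝ :=
  max 0 (min 1 (15 - 8 * ‖Fin.tail p‖ / ℓ))

/-- the programme: near the node `j` (at time `2 w (j + 1)` after the centre `z = a (P x) x` of the box) the value
is `S j z` -/
noncomputable def prog {n J : ℕ} {X : Type u} [TopologicalSpace X] (a : Flow (E (n + 1)) X) (w ℓ : ℝ)
    (lam : X → ℝ) (P : X → E (n + 1)) (S : Fin J → X → E (n + 1)) (x : X) : E (n + 1) :=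
  ∑ j : Fin J, (lam x * tent w (2 * w * ((j : ℕ) + 1)) (-(P x 0)) * cut ℓ (P x)) • S j (a (P x) x)

/-! ## basic lemmas -/

section basic

variable {n : ℕ} {X : Type u} [TopologicalSpace X] (a : Flow (E n) X)

theorem act_cont : Continuous (fun p : E n × X => a p.1 p.2) :=
  a.continuous continuous_fst continuous_snd

theorem act_cont' (u : E n) : Continuous (fun x => a u x) := a.continuous continuous_const continuous_id

theorem act_add (u v : E n) (x : X) : a (u + v) x = a u (a v x) := a.map_add u v x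

theorem act_zero (x : X) : a 0 x = x := a.map_zero_apply x

theorem act_neg (u : E n) (x : X) : a (-u) (a u x) = x := by
  rw [← act_add, neg_add_cancel, act_zero]

theorem act_neg' (u : E n) (x : X) : a u (a (-u) x) = x := by
  rw [← act_add, add_neg_cancel, act_zero]

/-- `a v x = a (v - u) (a u x)` -/
theorem act_sub (u v : E n) (x : X) : a (v - u) (a u x) = a v x := by
  rw [← act_add, sub_add_cancel]

theorem act_inj (u : E n) {x y : X} (h : a u x = a u y) : x = y := by
  rw [← act_neg a u x, h, act_neg]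

theorem hgt_cont (r : ℝ) {b : X → ℝ} (hb : Continuous b) : Continuous (hgt a r b) := by
  unfold hgt
  apply IsCompact.continuous_sSup (isCompact_closedBall 0 r) (f := fun (y : X) (u : E n) => b (a u y))
  exact hb.comp (a.continuous continuous_snd continuous_fst)

theorem kap_cont (W : ℝ) : Continuous (kap (n := n) W) := by
  unfold kap
  fun_prop

theorem kap_nonneg (W : ℝ) (v : E n) : 0 ≤ kap W v := le_max_left _ _

theorem one_le_kap {W : ℝ} {v : E n} (h : ‖v‖ ≤ W) : 1 ≤ kap W v := by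
  unfold kap
  exact le_max_of_le_right (by linarith)

theorem kap_pos {W : ℝ} {v : E n} (h : 0 < kap W v) : ‖v‖ < W + 1 / 4 := by
  unfold kap at h
  rcases lt_max_iff.1 h with h | h
  · exact absurd h (lt_irrefl _)
  · linarith

theorem om_cont (r W : ℝ) {b b' : X → ℝ} (hb : Continuous b) (hb' : Continuous b') :
    Continuous (fun p : X × E n => om a r W b b' p.1 p.2) := by
  unfold om
  apply IsCompact.continuous_sSup ((isCompact_closedBall (0 : E n) r).prod (isCompact_closedBall 0 r))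
    (f := fun (p : X × E n) (q : E n × E n) => min (b (a q.1 p.1)) (min (b' (a (p.2 + q.2) p.1))
      (kap W (p.2 + q.2 - q.1))))
  have h1 : Continuous (fun z : (X × E n) × (E n × E n) => b (a z.2.1 z.1.1)) :=
    hb.comp (a.continuous (by fun_prop) (by fun_prop))
  have h2 : Continuous (fun z : (X × E n) × (E n × E n) => b' (a (z.1.2 + z.2.2) z.1.1)) :=
    hb'.comp (a.continuous (by fun_prop) (by fun_prop))
  have h3 : Continuous (fun z : (X × E n) × (E n × E n) => kap W (z.1.2 + z.2.2 - z.2.1)) :=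
    (kap_cont W).comp (by fun_prop)
  exact h1.min (h2.min h3)

/-- `t < hgt` iff `t < b (a u y)` for some `‖u‖ ≤ r` -/
theorem lt_hgt {r t : ℝ} {b : X → ℝ} (hr : 0 ≤ r) (hb : Continuous b) (y : X) :
    t < hgt a r b y ↔ ∃ u : E n, ‖u‖ ≤ r ∧ t < b (a u y) := by
  unfold hgt
  have hc : IsCompact ((fun u => b (a u y)) '' Metric.closedBall (0 : E n) r) :=
    (isCompact_closedBall 0 r).image (hb.comp (a.continuous continuous_id continuous_const))
  have hne : ((fun u => b (a u y)) '' Metric.closedBall (0 : E n) r).Nonempty :=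
    ⟨_, 0, by simpa using hr, rfl⟩
  rw [lt_csSup_iff hc.bddAbove hne]
  constructor
  · rintro ⟨c, ⟨u, hu, rfl⟩, h⟩
    exact ⟨u, by simpa using hu, h⟩
  · rintro ⟨u, hu, h⟩
    exact ⟨_, ⟨u, by simpa using hu, rfl⟩, h⟩

theorem le_hgt {r : ℝ} {b : X → ℝ} (hb : Continuous b) (y : X) {u : E n} (hu : ‖u‖ ≤ r) :
    b (a u y) ≤ hgt a r b y := by
  have hr : 0 ≤ r := (norm_nonneg u).trans hu
  by_contra h
  push Not at h
  exact lt_irrefl _ ((lt_hgt a hr hb y).2 ⟨u, hu, h⟩)

/-- the supremum in `hgt` is attained -/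
theorem hgt_att {r : ℝ} {b : X → ℝ} (hr : 0 ≤ r) (hb : Continuous b) (y : X) :
    ∃ u : E n, ‖u‖ ≤ r ∧ b (a u y) = hgt a r b y := by
  have hc : IsCompact (Metric.closedBall (0 : E n) r) := isCompact_closedBall 0 r
  have hne : (Metric.closedBall (0 : E n) r).Nonempty := ⟨0, by simpa using hr⟩
  obtain ⟨u, hu, h⟩ := hc.exists_isMaxOn hne
    (hb.comp (a.continuous continuous_id continuous_const) : Continuous (fun u => b (a u y))).continuousOn
  refine ⟨u, by simpa using hu, le_antisymm (le_hgt a hb y (by simpa using hu)) ?_⟩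
  by_contra h'
  push Not at h'
  obtain ⟨v, hv, hv'⟩ := (lt_hgt a hr hb y).1 h'
  have h2 := h (show v ∈ Metric.closedBall (0 : E n) r by simpa using hv)
  exact absurd hv' (not_lt.2 h2)

/-- `t < om` iff there are witnesses `u` near `0` and `v` near `w` -/
theorem lt_om {r W t : ℝ} {b b' : X → ℝ} (hr : 0 ≤ r) (hb : Continuous b) (hb' : Continuous b')
    (y : X) (w : E n) : t < om a r W b b' y w ↔ ∃ u v : E n, ‖u‖ ≤ r ∧ ‖v - w‖ ≤ r ∧
      t < b (a u y) ∧ t < b' (a v y) ∧ t < kap W (v - u) := by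
  unfold om
  have hcont : Continuous (fun p : E n × E n => min (b (a p.1 y)) (min (b' (a (w + p.2) y))
      (kap W (w + p.2 - p.1)))) := by
    have h1 : Continuous (fun z : E n × E n => b (a z.1 y)) :=
      hb.comp (a.continuous (by fun_prop) (by fun_prop))
    have h2 : Continuous (fun z : E n × E n => b' (a (w + z.2) y)) :=
      hb'.comp (a.continuous (by fun_prop) (by fun_prop))
    have h3 : Continuous (fun z : E n × E n => kap W (w + z.2 - z.1)) :=
      (kap_cont W).comp (by fun_prop)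
    exact h1.min (h2.min h3)
  have hc := ((isCompact_closedBall (0 : E n) r).prod (isCompact_closedBall (0 : E n) r)).image hcont
  have hne : ((fun p : E n × E n => min (b (a p.1 y)) (min (b' (a (w + p.2) y))
      (kap W (w + p.2 - p.1)))) '' (Metric.closedBall (0 : E n) r ×ˢ Metric.closedBall (0 : E n) r)).Nonempty :=
    ⟨_, (0, 0), ⟨by simpa using hr, by simpa using hr⟩, rfl⟩
  rw [lt_csSup_iff hc.bddAbove hne]
  constructor
  · rintro ⟨c, ⟨⟨u, v⟩, ⟨hu, hv⟩, rfl⟩, h⟩
    simp only [lt_min_iff] at h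
    refine ⟨u, w + v, by simpa using hu, by simpa using hv, h.1, h.2.1, h.2.2⟩
  · rintro ⟨u, v, hu, hv, h1, h2, h3⟩
    refine ⟨_, ⟨(u, v - w), ⟨by simpa using hu, by simpa using hv⟩, rfl⟩, ?_⟩
    simp only [lt_min_iff, add_sub_cancel]
    exact ⟨h1, h2, h3⟩

theorem om_nonneg {r W : ℝ} {b b' : X → ℝ} (hr : 0 ≤ r) (hb : Continuous b) (hb' : Continuous b')
    (h0 : ∀ x, 0 ≤ b x) (h0' : ∀ x, 0 ≤ b' x) (y : X) (w : E n) : 0 ≤ om a r W b b' y w := by
  by_contra h
  push Not at h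
  have hneg : ¬ ((om a r W b b' y w) < om a r W b b' y w) := lt_irrefl _
  apply hneg
  rw [lt_om a hr hb hb']
  exact ⟨0, w, by simpa using hr, by simpa using hr, lt_of_lt_of_le h (h0 _), lt_of_lt_of_le h (h0' _),
    lt_of_lt_of_le h (kap_nonneg _ _)⟩

theorem ax_zero (n : ℕ) : ax n 0 = 0 := by
  funext i
  refine Fin.cases ?_ (fun j => ?_) i <;> simp [ax]

theorem ax_add (n : ℕ) (s t : ℝ) : ax n (s + t) = ax n s + ax n t := by
  funext i
  refine Fin.cases ?_ (fun j => ?_) i <;> simp [ax]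

theorem ax_cont (n : ℕ) : Continuous (ax n) := by
  unfold ax
  apply continuous_pi
  intro i
  refine Fin.cases ?_ (fun j => ?_) i
  · exact continuous_id
  · exact continuous_const

theorem norm_tail_le {n : ℕ} (p : E (n + 1)) : ‖Fin.tail p‖ ≤ ‖p‖ :=
  (pi_norm_le_iff_of_nonneg (norm_nonneg p)).2 (fun i => norm_le_pi_norm p i.succ)

theorem norm_le_head_tail {n : ℕ} (p : E (n + 1)) {c : ℝ} (h0 : |p 0| ≤ c) (h1 : ‖Fin.tail p‖ ≤ c) :
    ‖p‖ ≤ c := by
  have hc : 0 ≤ c := (abs_nonneg _).trans h0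
  rw [pi_norm_le_iff_of_nonneg hc]
  intro i
  refine Fin.cases ?_ (fun j => ?_) i
  · exact h0
  · exact (norm_le_pi_norm (Fin.tail p) j).trans h1

end basic

end Pool.Agent.MP98850d
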