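import Pool.Agent.Lib.MP_98850d_an.SpecB

/-! # MP_98850d_an: a dense set of directions -/

set_option autoImplicit false

namespace Pool.Agent.MP98850d

open Set Filter Topology

universe u

theorem dn_ins_zero {n : ℕ} (i0 : Fin (n + 2)) :
    i0.insertNth (α := fun _ => ℝ) 0 (0 : E (n + 1)) = 0 := by
  funext i
  rcases Fin.eq_self_or_eq_succAbove i0 i with h | ⟨j, h⟩
  · rw [h, Fin.insertNth_apply_same, Pi.zero_apply]
  · rw [h, Fin.insertNth_apply_succAbove, Pi.zero_apply, Pi.zero_apply]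

theorem dn_ins_add {n : ℕ} (i0 : Fin (n + 2)) (v v' : E (n + 1)) :
    i0.insertNth (α := fun _ => ℝ) 0 (v + v') =
      i0.insertNth (α := fun _ => ℝ) 0 v + i0.insertNth (α := fun _ => ℝ) 0 v' := by
  funext i
  rcases Fin.eq_self_or_eq_succAbove i0 i with h | ⟨j, h⟩
  · rw [h, Pi.add_apply, Fin.insertNth_apply_same, Fin.insertNth_apply_same,
      Fin.insertNth_apply_same, add_zero]
  · rw [h, Pi.add_apply, Fin.insertNth_apply_succAbove, Fin.insertNth_apply_succAbove,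
      Fin.insertNth_apply_succAbove, Pi.add_apply]

theorem dn_ins_cont {n : ℕ} (i0 : Fin (n + 2)) :
    Continuous (fun v : E (n + 1) => (i0.insertNth (α := fun _ => ℝ) 0 v : E (n + 2))) := by
  apply continuous_pi
  intro i
  rcases Fin.eq_self_or_eq_succAbove i0 i with h | ⟨j, h⟩
  · rw [h]
    simp only [Fin.insertNth_apply_same]
    exact continuous_const
  · rw [h]
    simp only [Fin.insertNth_apply_succAbove]
    exact continuous_apply j

theorem dn_hyp_zero {n : ℕ} (i0 : Fin (n + 2)) (γ : E (n + 2)) (c : E (n + 1)) :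
    hyp i0 γ c 0 = 0 := by
  unfold hyp
  rw [dn_ins_zero]
  simp

theorem dn_hyp_add {n : ℕ} (i0 : Fin (n + 2)) (γ : E (n + 2)) (c v v' : E (n + 1)) :
    hyp i0 γ c (v + v') = hyp i0 γ c v + hyp i0 γ c v' := by
  unfold hyp
  rw [dn_ins_add]
  have h : ∑ i, c i * (v + v') i = ∑ i, c i * v i + ∑ i, c i * v' i := by
    rw [← Finset.sum_add_distrib]
    exact Finset.sum_congr rfl (fun i _ => by rw [Pi.add_apply, mul_add])
  rw [h, add_smul]
  abel

theorem dn_hyp_cont {n : ℕ} (i0 : Fin (n + 2)) (γ : E (n + 2)) :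
    Continuous (fun p : E (n + 1) × E (n + 1) => hyp i0 γ p.1 p.2) := by
  unfold hyp
  have h1 : Continuous (fun p : E (n + 1) × E (n + 1) =>
      (i0.insertNth (α := fun _ => ℝ) 0 p.2 : E (n + 2))) := (dn_ins_cont i0).comp continuous_snd
  have h2 : Continuous (fun p : E (n + 1) × E (n + 1) => (∑ i, p.1 i * p.2 i) • γ) := by
    fun_prop
  exact h1.add h2

/-- every vector is `hyp v + θ γ` -/
theorem dn_hyp_surj {n : ℕ} {i0 : Fin (n + 2)} {γ : E (n + 2)} (hγ : γ i0 ≠ 0) (c : E (n + 1))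
    (u : E (n + 2)) : ∃ (v : E (n + 1)) (θ : ℝ), u = hyp i0 γ c v + θ • γ := by
  set u' : E (n + 2) := u - (u i0 / γ i0) • γ with hu'
  set v : E (n + 1) := i0.removeNth u' with hv
  refine ⟨v, u i0 / γ i0 - ∑ i, c i * v i, ?_⟩
  have h0 : u' i0 = 0 := by
    rw [hu', Pi.sub_apply, Pi.smul_apply, smul_eq_mul, div_mul_cancel₀ _ hγ, sub_self]
  have h1 : i0.insertNth (α := fun _ => ℝ) 0 v = u' := by
    rw [hv, ← h0]
    exact Fin.insertNth_self_removeNth i0 u'
  unfold hyp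
  rw [h1, hu', sub_smul]
  abel

theorem dn_zsmul {n : ℕ} {X : Type u} [TopologicalSpace X] (a : Flow (E n) X) {γ : E n}
    (h : ∀ x, a γ x = x) (k : ℤ) (x : X) : a ((k : ℝ) • γ) x = x := by
  induction k using Int.induction_on generalizing x with
  | zero => rw [Int.cast_zero, zero_smul, act_zero]
  | succ k ih =>
    have e : (((k : ℤ) + 1 : ℤ) : ℝ) • γ = ((k : ℤ) : ℝ) • γ + γ := by
      rw [Int.cast_add, Int.cast_one, add_smul, one_smul]
    rw [e, act_add, h, ih]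
  | pred k ih =>
    have e : ((-(k : ℤ) - 1 : ℤ) : ℝ) • γ = ((-(k : ℤ) : ℤ) : ℝ) • γ + -γ := by
      rw [Int.cast_sub, Int.cast_one, sub_smul, one_smul, sub_eq_add_neg]
    have h' : a (-γ) x = x := by
      have := act_neg a γ x
      rwa [h] at this
    rw [e, act_add, h', ih]

theorem tDn (hMS : S_MS.{u}) : S_Dn.{u} := by
  classical
  intro n X _ _ _ a i0 γ U hmin hγ hγx hU hUne c ε hε
  let α : Flow (E (n + 1)) X :=
    { toFun := fun v x => a (hyp i0 γ c v) x
      cont' := a.continuous ((dn_hyp_cont i0 γ).comp (continuous_const.prodMk continuous_fst))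
        continuous_snd
      map_add' := fun v v' x => by rw [dn_hyp_add, act_add]
      map_zero' := fun x => by rw [dn_hyp_zero, act_zero] }
  have hα : ∀ v x, α v x = a (hyp i0 γ c v) x := fun _ _ => rfl
  obtain ⟨M, hMc, ⟨m0, hm0⟩, hMinv, hMd⟩ := hMS (n + 1) X α
  have hMcomp : IsCompact M := hMc.isCompact
  -- the whole space
  set Y : Set X := (fun p : ℝ × X => a (p.1 • γ) p.2) '' (Icc (0 : ℝ) 1 ×ˢ M) with hY
  have hYcont : Continuous (fun p : ℝ × X => a (p.1 • γ) p.2) :=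
    a.continuous (by fun_prop) continuous_snd
  have hYc : IsClosed Y := ((isCompact_Icc.prod hMcomp).image hYcont).isClosed
  have hYall : ∀ x, x ∈ Y := by
    intro x
    have h1 : (range fun u => a u m0) ⊆ Y := by
      rintro _ ⟨u, rfl⟩
      obtain ⟨v, θ, huv⟩ := dn_hyp_surj hγ c u
      refine ⟨(Int.fract θ, α v m0), ⟨⟨Int.fract_nonneg θ, (Int.fract_lt_one θ).le⟩,
        hMinv m0 hm0 v⟩, ?_⟩
      change a (Int.fract θ • γ) (a (hyp i0 γ c v) m0) = a u m0
      have e1 : u = Int.fract θ • γ + (((⌊θ⌋ : ℤ) : ℝ) • γ + hyp i0 γ c v) := by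
        have e0 : Int.fract θ • γ + ((⌊θ⌋ : ℤ) : ℝ) • γ = θ • γ := by
          rw [← add_smul, Int.fract_add_floor]
        calc u = hyp i0 γ c v + θ • γ := huv
          _ = hyp i0 γ c v + (Int.fract θ • γ + ((⌊θ⌋ : ℤ) : ℝ) • γ) := by rw [e0]
          _ = _ := by abel
      rw [e1, act_add, act_add, dn_zsmul a hγx]
    have h2 := closure_mono h1
    rw [hYc.closure_eq, (hmin m0).closure_eq] at h2
    exact h2 (mem_univ x)
  -- a point of `M` which is mapped to `U`
  obtain ⟨u0, hu0⟩ := hUne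
  obtain ⟨⟨θM, m1⟩, ⟨-, hm1⟩, hθM⟩ := hYall u0
  change a (θM • γ) m1 = u0 at hθM
  change m1 ∈ M at hm1
  -- compactness
  have hcomp : ∃ T ξ : ℝ, 0 < ξ ∧ ∀ x ∈ M, ∃ v : E (n + 1), ‖v‖ ≤ T ∧ ∀ e : ℝ, |e| ≤ ξ →
      a (e • γ) (a (θM • γ) (α v x)) ∈ U := by
    refine hMcomp.induction_on (p := fun S : Set X => ∃ T ξ : ℝ, 0 < ξ ∧ ∀ x ∈ S,
      ∃ v : E (n + 1), ‖v‖ ≤ T ∧ ∀ e : ℝ, |e| ≤ ξ → a (e • γ) (a (θM • γ) (α v x)) ∈ U) ?_ ?_ ?_ ?_
    · exact ⟨0, 1, one_pos, fun x hx => absurd hx (notMem_empty x)⟩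
    · rintro s t hst ⟨T, ξ, hξ, h⟩
      exact ⟨T, ξ, hξ, fun x hx => h x (hst hx)⟩
    · rintro s t ⟨T, ξ, hξ, h⟩ ⟨T', ξ', hξ', h'⟩
      refine ⟨max T T', min ξ ξ', lt_min hξ hξ', ?_⟩
      rintro x (hx | hx)
      · obtain ⟨v, h1, h2⟩ := h x hx
        exact ⟨v, h1.trans (le_max_left _ _), fun e he => h2 e (he.trans (min_le_left _ _))⟩
      · obtain ⟨v, h1, h2⟩ := h' x hx
        exact ⟨v, h1.trans (le_max_right _ _), fun e he => h2 e (he.trans (min_le_right _ _))⟩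
    · intro x hx
      have hV : IsOpen {y | a (θM • γ) y ∈ U} := hU.preimage (act_cont' a _)
      have h1 : m1 ∈ closure (range fun v => α v x) := hMd x hx hm1
      obtain ⟨_, hv, ⟨v, rfl⟩⟩ := mem_closure_iff.1 h1 _ hV (by
        change a (θM • γ) m1 ∈ U
        rw [hθM]
        exact hu0)
      have hop : IsOpen {p : ℝ × X | a (p.1 • γ) (a (θM • γ) (α v p.2)) ∈ U} :=
        hU.preimage (a.continuous (by fun_prop) (a.continuous continuous_const
          (α.continuous continuous_const continuous_snd)))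
      have hmem : ((0 : ℝ), x) ∈ {p : ℝ × X | a (p.1 • γ) (a (θM • γ) (α v p.2)) ∈ U} := by
        change a ((0 : ℝ) • γ) (a (θM • γ) (α v x)) ∈ U
        rw [zero_smul, act_zero]
        exact hv
      obtain ⟨η, hη, hball⟩ := Metric.isOpen_iff.1 hop _ hmem
      refine ⟨Metric.ball x η, mem_nhdsWithin_of_mem_nhds (Metric.ball_mem_nhds x hη), ‖v‖, η / 2,
        by positivity, ?_⟩
      intro x' hx'
      refine ⟨v, le_rfl, fun e he => ?_⟩
      have : ((e, x') : ℝ × X) ∈ Metric.ball ((0 : ℝ), x) η := by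
        rw [← ball_prod_same]
        refine ⟨?_, hx'⟩
        rw [mem_ball_zero_iff, Real.norm_eq_abs]
        linarith
      exact hball this
  obtain ⟨T, ξ, hξ, hTξ⟩ := hcomp
  have hT1 : 0 < |T| + 1 := by positivity
  set ε1 : ℝ := min (ε / 2) (ξ / (|T| + 1)) with hε1
  have hε1pos : 0 < ε1 := lt_min (by positivity) (by positivity)
  have hε1T : ε1 * (|T| + 1) ≤ ξ := by
    have h1 : ε1 ≤ ξ / (|T| + 1) := min_le_right _ _
    rwa [le_div_iff₀ hT1] at h1
  have hε1ε : ε1 < ε := lt_of_le_of_lt (min_le_left _ _) (by linarith)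
  set c' : E (n + 1) := c + Pi.single 0 ε1 with hc'
  have hhyp : ∀ v, hyp i0 γ c' v = hyp i0 γ c v + (ε1 * v 0) • γ := by
    intro v
    unfold hyp
    have h1 : ∑ i, c' i * v i = ∑ i, c i * v i + ε1 * v 0 := by
      have h2 : ∀ i, c' i * v i = c i * v i + (Pi.single 0 ε1 : E (n + 1)) i * v i := by
        intro i
        rw [hc', Pi.add_apply, add_mul]
      rw [Finset.sum_congr rfl (fun i _ => h2 i), Finset.sum_add_distrib]
      congr 1
      rw [Finset.sum_eq_single 0]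
      · rw [Pi.single_eq_same]
      · intro i _ hi
        rw [Pi.single_eq_of_ne hi, zero_mul]
      · intro h
        exact absurd (Finset.mem_univ _) h
    rw [h1, add_smul]
    abel
  refine ⟨c', ?_, ?_⟩
  · rw [hc', dist_eq_norm, add_sub_cancel_left]
    refine lt_of_le_of_lt ?_ hε1ε
    rw [pi_norm_le_iff_of_nonneg hε1pos.le]
    intro i
    by_cases hi : i = 0
    · rw [hi, Pi.single_eq_same, Real.norm_of_nonneg hε1pos.le]
    · rw [Pi.single_eq_of_ne hi, norm_zero]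
      exact hε1pos.le
  · intro x
    obtain ⟨⟨θ1, m⟩, ⟨-, hm⟩, hx⟩ := hYall x
    change a (θ1 • γ) m = x at hx
    change m ∈ M at hm
    set v0 : E (n + 1) := Pi.single 0 ((θM - θ1) / ε1) with hv0
    obtain ⟨v, hvT, hv⟩ := hTξ (α v0 m) (hMinv m hm v0)
    refine ⟨v + v0, ?_⟩
    have h1 : |ε1 * v 0| ≤ ξ := by
      rw [abs_mul, abs_of_pos hε1pos]
      have h2 : |v 0| ≤ |T| + 1 := by
        have e1 : |v 0| ≤ ‖v‖ := norm_le_pi_norm v 0
        have e2 := le_abs_self T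
        linarith
      exact (mul_le_mul_of_nonneg_left h2 hε1pos.le).trans hε1T
    have h2 := hv (ε1 * v 0) h1
    rw [hα, hα, ← act_add, ← act_add, ← act_add] at h2
    rw [← hx, ← act_add]
    have h3 : ε1 * (v + v0) 0 = ε1 * v 0 + (θM - θ1) := by
      rw [Pi.add_apply, hv0, Pi.single_eq_same, mul_add, mul_div_cancel₀ _ hε1pos.ne']
    have h4 : hyp i0 γ c' (v + v0) + θ1 • γ =
        (ε1 * v 0) • γ + θM • γ + hyp i0 γ c v + hyp i0 γ c v0 := by
      rw [hhyp, h3, dn_hyp_add, add_smul, sub_smul]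
      abel
    rw [h4]
    exact h2

end Pool.Agent.MP98850d
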