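import Pool.Agent.Lib.MP_98850d_an.Dn
import Pool.Agent.Lib.MP_98850d_an.Lim

/-! # MP_98850d_an: a minimal action which is not free gives a minimal action of a smaller group -/

set_option autoImplicit false

namespace Pool.Agent.MP98850d

open Set Filter Topology

universe u

theorem tDrop (hDn : S_Dn.{u}) : S_Drop.{u} := by
  intro n X _ _ a hmin hnfree
  rcases isEmpty_or_nonempty X with hX | hX
  · refine ⟨{ toFun := fun _ x => x
              cont' := continuous_snd
              map_add' := fun _ _ _ => rfl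
              map_zero' := fun _ => rfl }, fun x => (hX.false x).elim⟩
  unfold FreeA at hnfree
  push Not at hnfree
  obtain ⟨γ, x0, hx0, hγ⟩ := hnfree
  have hγx : ∀ x, a γ x = x := by
    intro x
    have hc : IsClosed {x | a γ x = x} := isClosed_eq (act_cont' a γ) continuous_id
    have hsub : (range fun u => a u x0) ⊆ {x | a γ x = x} := by
      rintro _ ⟨v, rfl⟩
      change a γ (a v x0) = a v x0
      rw [← act_add, add_comm γ v, act_add, hx0]
    have h2 := closure_minimal hsub hc
    rw [(hmin x0).closure_eq] at h2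
    exact h2 (mem_univ x)
  obtain ⟨i0, hi0⟩ := Function.ne_iff.1 hγ
  rw [Pi.zero_apply] at hi0
  obtain ⟨U, hUo, hUne, hUV⟩ := lim_base X
  set D : ℕ → Set (E (n + 1)) := fun k => {c | ∀ x, ∃ v : E (n + 1), a (hyp i0 γ c v) x ∈ U k} with hD
  have hDo : ∀ k, IsOpen (D k) := by
    intro k
    rw [isOpen_iff_eventually]
    intro c hc
    have hev : ∀ᶠ c' in 𝓝 c, ∀ x ∈ (univ : Set X), ∃ v : E (n + 1), a (hyp i0 γ c' v) x ∈ U k := by
      apply isCompact_univ.eventually_forall_of_forall_eventually
      intro x _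
      obtain ⟨v, hv⟩ := hc x
      have hop : IsOpen {p : E (n + 1) × X | a (hyp i0 γ p.1 v) p.2 ∈ U k} :=
        (hUo k).preimage (a.continuous ((dn_hyp_cont i0 γ).comp (continuous_fst.prodMk
          continuous_const)) continuous_snd)
      filter_upwards [hop.mem_nhds hv] with p hp
      exact ⟨v, hp⟩
    filter_upwards [hev] with c' hc' x
    exact hc' x (mem_univ x)
  have hDd : ∀ k, Dense (D k) := by
    intro k
    rw [Metric.dense_iff]
    intro c ε hε
    obtain ⟨c', hcc, hc'⟩ := hDn n X a i0 γ (U k) hmin hi0 hγx (hUo k) (hUne k) c ε hε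
    exact ⟨c', hcc, hc'⟩
  obtain ⟨c, hc⟩ := (dense_iInter_of_isOpen_nat hDo hDd).nonempty
  rw [mem_iInter] at hc
  refine ⟨{ toFun := fun v x => a (hyp i0 γ c v) x
            cont' := a.continuous ((dn_hyp_cont i0 γ).comp (continuous_const.prodMk continuous_fst))
              continuous_snd
            map_add' := fun v v' x => by rw [dn_hyp_add, act_add]
            map_zero' := fun x => by rw [dn_hyp_zero, act_zero] }, fun x => ?_⟩
  rw [dense_iff_inter_open]
  intro V hV hVne
  obtain ⟨k, hk⟩ := hUV V hV hVne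
  obtain ⟨v, hv⟩ := hc k x
  exact ⟨a (hyp i0 γ c v) x, hk hv, v, rfl⟩

end Pool.Agent.MP98850d
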