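import Pool.Agent.Lib.MP_98850d_an.SpecB

/-! # MP_98850d_an: all levels -/

set_option autoImplicit false

namespace Pool.Agent.MP98850d

open Set Filter Topology

universe u

/-- the properties of the function of level `k` -/
def fld_Pr {n : ℕ} {X : Type u} [TopologicalSpace X] (a : Flow (E (n + 1)) X) (U : Set X)
    (R r ρ CT κ ℓ A : ℝ) (dl : ℕ → ℝ) (lam : ℕ → X → ℝ) (P : ℕ → X → E (n + 1))
    (f : ℕ → X → E (n + 1)) (k : ℕ) : Prop :=
  Continuous (f k) ∧ (∀ x, ‖f k x‖ ≤ R) ∧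
  (∀ x u, ‖f k (a u x) - f k x‖ ≤ dl k * |u 0| + κ * ‖Fin.tail u‖) ∧
  ∀ x, lam k x = 1 → |P k x 0| ≤ 7 / 4 * A → ‖Fin.tail (P k x)‖ ≤ 7 / 4 * ℓ →
    ∃ t0 : ℝ, ∀ s : ℝ → E (n + 1), (∀ t, t0 ≤ t → t ≤ t0 + CT / dl k → ‖s t‖ ≤ ρ) →
      (∀ t t', t0 ≤ t → t ≤ t0 + CT / dl k → t0 ≤ t' → t' ≤ t0 + CT / dl k →
        ‖s t - s t'‖ ≤ r / 4) →
      ∃ t, t0 ≤ t ∧ t ≤ t0 + CT / dl k ∧
        a (s t + (∑ j ∈ Finset.range k, f j (a (ax n t) x)) + f k (a (ax n t) x)) (a (ax n t) x) ∈ U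

theorem fld_sum {n : ℕ} {X : Type u} [TopologicalSpace X] (a : Flow (E (n + 1)) X) (κ : ℝ)
    (dl : ℕ → ℝ) (f : ℕ → X → E (n + 1)) (T : Finset ℕ)
    (h : ∀ k ∈ T, ∀ x u, ‖f k (a u x) - f k x‖ ≤ dl k * |u 0| + κ * ‖Fin.tail u‖)
    (x : X) (u : E (n + 1)) :
    ‖(∑ j ∈ T, f j (a u x)) - ∑ j ∈ T, f j x‖ ≤
      (∑ j ∈ T, dl j) * |u 0| + (T.card : ℝ) * κ * ‖Fin.tail u‖ := by
  rw [← Finset.sum_sub_distrib]
  refine (norm_sum_le _ _).trans ?_
  refine (Finset.sum_le_sum (fun k hk => h k hk x u)).trans ?_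
  rw [Finset.sum_add_distrib, ← Finset.sum_mul, Finset.sum_const, nsmul_eq_mul]
  linarith

/-- construction of the levels -/
theorem fld_ex {n : ℕ} {X : Type u} [MetricSpace X] (a : Flow (E (n + 1)) X) (U : Set X) (R r ρ CT κ ℓ A : ℝ) (dl : ℕ → ℝ) (lam : ℕ → X → ℝ)
    (P : ℕ → X → E (n + 1)) (K : ℕ) (hκ : 0 ≤ κ) (hdl : ∀ k, 0 < dl k)
    (hsum : ∀ k, k ≤ K → ∑ j ∈ Finset.range k, dl j ≤ 1 / 4) (hκK : (K : ℝ) * κ ≤ 1 / 2)
    (hlev : ∀ (F : X → E (n + 1)) (k : ℕ), k < K → Continuous F →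
      (∀ x u, ‖F (a u x) - F x‖ ≤ ‖u‖) →
      ∃ f : X → E (n + 1), Continuous f ∧ (∀ x, ‖f x‖ ≤ R) ∧
        (∀ x u, ‖f (a u x) - f x‖ ≤ dl k * |u 0| + κ * ‖Fin.tail u‖) ∧
        ∀ x, lam k x = 1 → |P k x 0| ≤ 7 / 4 * A → ‖Fin.tail (P k x)‖ ≤ 7 / 4 * ℓ →
          ∃ t0 : ℝ, ∀ s : ℝ → E (n + 1), (∀ t, t0 ≤ t → t ≤ t0 + CT / dl k → ‖s t‖ ≤ ρ) →
            (∀ t t', t0 ≤ t → t ≤ t0 + CT / dl k → t0 ≤ t' → t' ≤ t0 + CT / dl k →
              ‖s t - s t'‖ ≤ r / 4) →
            ∃ t, t0 ≤ t ∧ t ≤ t0 + CT / dl k ∧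
              a (s t + F (a (ax n t) x) + f (a (ax n t) x)) (a (ax n t) x) ∈ U) :
    ∃ f : ℕ → X → E (n + 1), ∀ k, k < K → fld_Pr a U R r ρ CT κ ℓ A dl lam P f k := by
  have main : ∀ k, k ≤ K → ∃ f : ℕ → X → E (n + 1), ∀ i, i < k → fld_Pr a U R r ρ CT κ ℓ A dl lam P f i := by
    intro k
    induction k with
    | zero => exact fun _ => ⟨fun _ _ => 0, fun i hi => absurd hi (by omega)⟩
    | succ k ih =>
      intro hk
      obtain ⟨f, hf⟩ := ih (by omega)
      have hFc : Continuous (fun x => ∑ j ∈ Finset.range k, f j x) :=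
        continuous_finsetSum _ (fun j hj => (hf j (Finset.mem_range.1 hj)).1)
      have hFL : ∀ x u, ‖(∑ j ∈ Finset.range k, f j (a u x)) - ∑ j ∈ Finset.range k, f j x‖ ≤ ‖u‖ := by
        intro x u
        refine (fld_sum a κ dl f (Finset.range k)
          (fun j hj => (hf j (Finset.mem_range.1 hj)).2.2.1) x u).trans ?_
        rw [Finset.card_range]
        have h1 : (∑ j ∈ Finset.range k, dl j) * |u 0| ≤ 1 / 4 * ‖u‖ := by
          have h0 : 0 ≤ ∑ j ∈ Finset.range k, dl j := Finset.sum_nonneg (fun j _ => (hdl j).le)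
          exact mul_le_mul (hsum k (by omega)) (norm_le_pi_norm u 0) (abs_nonneg _) (by norm_num)
        have h2 : (k : ℝ) * κ * ‖Fin.tail u‖ ≤ 1 / 2 * ‖u‖ := by
          have hkK : (k : ℝ) ≤ K := by exact_mod_cast (by omega : k ≤ K)
          have h3 : (k : ℝ) * κ ≤ 1 / 2 := (mul_le_mul_of_nonneg_right hkK hκ).trans hκK
          exact mul_le_mul h3 (norm_tail_le u) (norm_nonneg _) (by norm_num)
        have := norm_nonneg u
        linarith
      obtain ⟨fk, h1, h2, h3, h4⟩ := hlev (fun x => ∑ j ∈ Finset.range k, f j x) k (by omega) hFc hFL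
      refine ⟨Function.update f k fk, fun i hi => ?_⟩
      have hne : ∀ j, j < k → Function.update f k fk j = f j := fun j hj =>
        Function.update_of_ne (by omega) _ _
      by_cases hik : i = k
      · subst hik
        have hs : ∀ x, ∑ j ∈ Finset.range i, Function.update f i fk j x = ∑ j ∈ Finset.range i, f j x :=
          fun x => Finset.sum_congr rfl (fun j hj => by rw [hne j (Finset.mem_range.1 hj)])
        unfold fld_Pr
        simp only [Function.update_self, hs]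
        exact ⟨h1, h2, h3, h4⟩
      · have hik' : i < k := by omega
        have h := hf i hik'
        have hs : ∀ x, ∑ j ∈ Finset.range i, Function.update f k fk j x = ∑ j ∈ Finset.range i, f j x :=
          fun x => Finset.sum_congr rfl (fun j hj => by
            rw [hne j (by have := Finset.mem_range.1 hj; omega)])
        unfold fld_Pr at h ⊢
        simp only [hne i hik', hs]
        exact h
  exact main K le_rfl

theorem tFld (hBoxA : S_BoxA.{u}) (hLev : S_Lev.{u}) : S_Fld.{u} := by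
  intro n m X _ _ a ι U R r δ hfree hι hinj hU hTP hR hr hδ
  set K : ℕ := NN (n + 1) m with hKdef
  have hK : 1 ≤ K := by
    rw [hKdef]
    unfold NN
    exact Nat.succ_le_of_lt (Nat.mul_pos (by omega) (by positivity))
  have hKr : (1 : ℝ) ≤ K := by exact_mod_cast hK
  have hK0 : (0 : ℝ) < K := by linarith
  obtain ⟨CT, hCT, hlev⟩ := hLev n m R r (K * R) (16 * R * K) hR hr (by positivity) (by positivity)
  set c : ℝ := min 1 (r / (4 * K * CT)) with hc
  have hc0 : 0 < c := lt_min one_pos (by positivity)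
  have hc1 : c ≤ 1 := min_le_left _ _
  have hc2 : c * (4 * K * CT) ≤ r := by
    have : c ≤ r / (4 * K * CT) := min_le_right _ _
    rwa [le_div_iff₀ (by positivity)] at this
  set d0 : ℝ := min δ (1 / 4) / K with hd0
  have hm0 : 0 < min δ (1 / 4) := lt_min hδ (by norm_num)
  have hd0p : 0 < d0 := by positivity
  have hd0K : (K : ℝ) * d0 = min δ (1 / 4) := by
    rw [hd0]
    field_simp
  set dl : ℕ → ℝ := fun k => d0 * c ^ k with hdl
  have hdlp : ∀ k, 0 < dl k := fun k => by rw [hdl]; positivity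
  have hdl0 : ∀ k, dl k ≤ d0 := by
    intro k
    have : c ^ k ≤ 1 := pow_le_one₀ hc0.le hc1
    calc d0 * c ^ k ≤ d0 * 1 := by gcongr
      _ = d0 := mul_one _
  have hdlanti : ∀ i k, k ≤ i → dl i ≤ dl k := by
    intro i k hik
    have : c ^ i ≤ c ^ k := pow_le_pow_of_le_one hc0.le hc1 hik
    exact mul_le_mul_of_nonneg_left this hd0p.le
  have hsumle : ∀ T : Finset ℕ, T.card ≤ K → ∑ j ∈ T, dl j ≤ min δ (1 / 4) := by
    intro T hT
    have h1 : ∑ j ∈ T, dl j ≤ ∑ _j ∈ T, d0 := Finset.sum_le_sum (fun j _ => hdl0 j)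
    rw [Finset.sum_const, nsmul_eq_mul] at h1
    have hTr : (T.card : ℝ) ≤ K := by exact_mod_cast hT
    calc ∑ j ∈ T, dl j ≤ T.card * d0 := h1
      _ ≤ K * d0 := by gcongr
      _ = _ := hd0K
  set A : ℝ := CT / dl (K - 1) with hA
  have hA0 : 0 < A := by rw [hA]; have := hdlp (K - 1); positivity
  have hAk : ∀ k, k < K → CT / dl k ≤ A := by
    intro k hk
    rw [hA]
    exact div_le_div_of_nonneg_left hCT.le (hdlp _) (hdlanti _ _ (by omega))
  obtain ⟨lam, P, hbox, hcov⟩ := hBoxA n m X a ι A (16 * R * K) hfree hι hinj hA0 (by positivity)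
  have hκ : 8 * R / (16 * R * K) = 1 / (2 * K) := by
    field_simp
    norm_num
  -- extend the families to `ℕ`
  set lam' : ℕ → X → ℝ := fun k => if h : k < K then lam ⟨k, h⟩ else fun _ => 0 with hlam'
  set P' : ℕ → X → E (n + 1) := fun k => if h : k < K then P ⟨k, h⟩ else fun _ => 0 with hP'
  have hlamk : ∀ k : Fin K, lam' k = lam k := by
    intro k
    rw [hlam']
    simp [k.2]
  have hPk : ∀ k : Fin K, P' k = P k := by
    intro k
    rw [hP']
    simp [k.2]
  obtain ⟨f, hf⟩ := fld_ex a U R r (K * R) CT (1 / (2 * K)) (16 * R * K) A dl lam' P' K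
    (by positivity) hdlp
    (fun k hk => (hsumle _ (by rw [Finset.card_range]; exact hk)).trans (min_le_right _ _))
    (by
      have : (K : ℝ) * (1 / (2 * K)) = 1 / 2 := by field_simp
      rw [this])
    (by
      intro F k hk hFc hFL
      have h := hlev X a ι U F A (dl k) (lam ⟨k, hk⟩) (P ⟨k, hk⟩) hι hinj hU hTP hFc hFL (hdlp k)
        (hAk k hk) (hbox ⟨k, hk⟩)
      rw [hκ] at h
      have e1 := hlamk ⟨k, hk⟩
      have e2 := hPk ⟨k, hk⟩
      simp only at e1 e2
      rw [e1, e2]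
      exact h)
  -- the displacement field
  have hL : ∀ T : Finset ℕ, (∀ j ∈ T, j < K) → ∀ x u, ‖(∑ j ∈ T, f j (a u x)) - ∑ j ∈ T, f j x‖ ≤
      (∑ j ∈ T, dl j) * |u 0| + (T.card : ℝ) * (1 / (2 * K)) * ‖Fin.tail u‖ := fun T hT x u =>
    fld_sum a (1 / (2 * K)) dl f T (fun j hj => (hf j (hT j hj)).2.2.1) x u
  refine ⟨fun x => ∑ j ∈ Finset.range K, f j x,
    continuous_finsetSum _ (fun j hj => (hf j (Finset.mem_range.1 hj)).1), ?_, ?_, ?_⟩
  · intro x t
    have h := hL (Finset.range K) (fun j hj => Finset.mem_range.1 hj) x (ax n t)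
    have ht : Fin.tail (ax n t) = 0 := by
      funext i
      simp [ax, Fin.tail]
    rw [ht, norm_zero, mul_zero, add_zero] at h
    refine h.trans ?_
    have h1 := (hsumle (Finset.range K) (by rw [Finset.card_range])).trans (min_le_left _ _)
    have h2 : (ax n t) 0 = t := by simp [ax]
    rw [h2]
    exact mul_le_mul_of_nonneg_right h1 (abs_nonneg _)
  · intro x u
    have h := hL (Finset.range K) (fun j hj => Finset.mem_range.1 hj) x u
    refine h.trans ?_
    rw [Finset.card_range]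
    have h1 := (hsumle (Finset.range K) (by rw [Finset.card_range])).trans (min_le_right _ _)
    have h2 : (K : ℝ) * (1 / (2 * K)) = 1 / 2 := by field_simp
    rw [h2]
    have h3 : (∑ j ∈ Finset.range K, dl j) * |u 0| ≤ 1 / 4 * ‖u‖ :=
      mul_le_mul h1 (norm_le_pi_norm u 0) (abs_nonneg _) (by norm_num)
    have h4 := norm_tail_le u
    linarith
  · intro x
    obtain ⟨k, hk1, hk2, hk3⟩ := hcov x
    obtain ⟨-, -, -, hs⟩ := hf k k.2
    obtain ⟨t0, ht0⟩ := hs x (by rw [hlamk]; exact hk1) (by rw [hPk]; exact hk2)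
      (by rw [hPk]; exact hk3)
    set T : Finset ℕ := Finset.Ico ((k : ℕ) + 1) K with hT
    have hTc : (T.card : ℝ) ≤ K := by
      rw [hT, Nat.card_Ico]
      exact_mod_cast Nat.sub_le _ _
    have hTlt : ∀ j ∈ T, j < K := fun j hj => (Finset.mem_Ico.1 hj).2
    obtain ⟨t, -, -, ht⟩ := ht0 (fun t => ∑ j ∈ T, f j (a (ax n t) x)) (by
      intro t _ _
      calc ‖∑ j ∈ T, f j (a (ax n t) x)‖ ≤ ∑ j ∈ T, ‖f j (a (ax n t) x)‖ := norm_sum_le _ _
        _ ≤ ∑ _j ∈ T, R := Finset.sum_le_sum (fun j hj => (hf j (hTlt j hj)).2.1 _)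
        _ = T.card * R := by rw [Finset.sum_const, nsmul_eq_mul]
        _ ≤ K * R := by gcongr) (by
      intro t t' h1 h2 h3 h4
      have hax : a (ax n t) x = a (ax n (t - t')) (a (ax n t') x) := by
        rw [← act_add, ← ax_add, sub_add_cancel]
      rw [hax]
      refine (hL T hTlt (a (ax n t') x) (ax n (t - t'))).trans ?_
      have h5 : Fin.tail (ax n (t - t')) = 0 := by
        funext i
        simp [ax, Fin.tail]
      have h6 : (ax n (t - t')) 0 = t - t' := by simp [ax]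
      rw [h5, norm_zero, mul_zero, add_zero, h6]
      have h7 : |t - t'| ≤ CT / dl k := by
        rw [abs_le]
        constructor <;> linarith
      have h8 : ∑ j ∈ T, dl j ≤ K * (c * dl k) := by
        have h9 : ∀ j ∈ T, dl j ≤ c * dl k := by
          intro j hj
          have hj1 := (Finset.mem_Ico.1 hj).1
          have : dl j ≤ dl ((k : ℕ) + 1) := hdlanti _ _ hj1
          refine this.trans (le_of_eq ?_)
          simp only [hdl]
          ring
        calc ∑ j ∈ T, dl j ≤ ∑ _j ∈ T, c * dl k := Finset.sum_le_sum h9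
          _ = T.card * (c * dl k) := by rw [Finset.sum_const, nsmul_eq_mul]
          _ ≤ K * (c * dl k) := by
            have := hdlp k
            gcongr
      have hdk := hdlp k
      calc (∑ j ∈ T, dl j) * |t - t'| ≤ (K * (c * dl k)) * (CT / dl k) := by
            apply mul_le_mul h8 h7 (abs_nonneg _)
            positivity
        _ = (c * (4 * K * CT)) / 4 := by
            field_simp
        _ ≤ r / 4 := by linarith)
    refine ⟨t, ?_⟩
    have hsplit : ∀ y, ∑ j ∈ Finset.range K, f j y =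
        (∑ j ∈ T, f j y) + (∑ j ∈ Finset.range k, f j y) + f k y := by
      intro y
      rw [Finset.range_eq_Ico, Finset.range_eq_Ico,
        ← Finset.sum_Ico_consecutive (fun j => f j y) (Nat.zero_le ((k : ℕ) + 1)) k.2,
        Finset.sum_Ico_succ_top (Nat.zero_le _)]
      abel
    simp only [hsplit]
    exact ht

end Pool.Agent.MP98850d
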