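import Pool.Agent.Lib.MP_98850d_an.SpecB

/-! # MP_98850d_an: the free case -/

set_option autoImplicit false

namespace Pool.Agent.MP98850d

open Set Filter Topology

universe u

theorem tFre (hTP : S_TP.{u}) (hFld : S_Fld.{u}) (hHom : S_Hom.{u}) (hLim : S_Lim.{u}) :
    S_Fre.{u} := by
  intro n m X _ _ a ι hfree hmin hι hιinj
  let φ : Flow ℝ X :=
    { toFun := fun t x => a (ax n t) x
      cont' := a.continuous ((ax_cont n).comp continuous_fst) continuous_snd
      map_add' := fun s t x => by rw [ax_add, act_add]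
      map_zero' := fun x => by rw [ax_zero, act_zero] }
  have hφ : ∀ t x, φ t x = a (ax n t) x := fun _ _ => rfl
  apply hLim X {ψ | ∃ H : X ≃ₜ X, ∀ t x, ψ t x = H (φ t (H.symm x))}
    ⟨φ, Homeomorph.refl X, fun _ _ => rfl⟩
  rintro ψ ⟨H, hH⟩ U hU hUne ε T hε
  obtain ⟨ε1, hε1, hunif⟩ := Metric.uniformContinuous_iff.1
    (CompactSpace.uniformContinuous_of_continuous H.continuous) ε hε
  have hev : ∀ᶠ u : E (n + 1) in 𝓝 0, ∀ x ∈ (univ : Set X), dist (a u x) x < ε1 := by
    apply isCompact_univ.eventually_forall_of_forall_eventually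
    intro x _
    have hop : IsOpen {p : E (n + 1) × X | dist (a p.1 p.2) p.2 < ε1} :=
      isOpen_lt ((act_cont a).dist continuous_snd) continuous_const
    apply hop.mem_nhds
    change dist (a 0 x) x < ε1
    rw [act_zero, dist_self]
    exact hε1
  obtain ⟨ρ, hρ, hball⟩ := Metric.eventually_nhds_iff_ball.1 hev
  have hsmall : ∀ u : E (n + 1), ‖u‖ ≤ ρ / 2 → ∀ x, dist (a u x) x < ε1 := by
    intro u hu x
    apply hball u _ x (mem_univ x)
    rw [mem_ball_zero_iff]
    linarith
  have hU' : IsOpen (H ⁻¹' U) := hU.preimage H.continuous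
  have hU'ne : (H ⁻¹' U).Nonempty := by
    obtain ⟨y, hy⟩ := hUne
    exact ⟨H.symm y, by simpa using hy⟩
  obtain ⟨R, r, hR, hr, htp⟩ := hTP (n + 1) X a (H ⁻¹' U) hmin hU' hU'ne
  have hT1 : 0 < |T| + 1 := by positivity
  obtain ⟨g, hg, hgt, hgs, hghit⟩ := hFld n m X a ι (H ⁻¹' U) R r (ρ / 2 / (|T| + 1)) hfree hι hιinj
    hU' htp hR hr (by positivity)
  obtain ⟨h, hh⟩ := hHom (n + 1) X a g hg hgs
  let ψ' : Flow ℝ X :=
    { toFun := fun t x => H (h (φ t (h.symm (H.symm x))))
      cont' := H.continuous.comp (h.continuous.comp (φ.continuous continuous_fst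
        (h.symm.continuous.comp (H.symm.continuous.comp continuous_snd))))
      map_add' := fun s t x => by
        rw [φ.map_add]
        simp
      map_zero' := fun x => by
        rw [φ.map_zero_apply]
        simp }
  have hψ' : ∀ t x, ψ' t x = H (h (φ t (h.symm (H.symm x)))) := fun _ _ => rfl
  refine ⟨ψ', ⟨h.trans H, fun t x => rfl⟩, ?_, ?_⟩
  · intro t x ht
    rw [hψ', hH]
    apply (hunif _).le
    set y := h.symm (H.symm x) with hy
    have e1 : H.symm x = a (g y) y := by
      rw [← hh, hy]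
      simp
    have e2 : h (φ t y) = a (g (a (ax n t) y) - g y) (φ t (H.symm x)) := by
      rw [hh, e1, hφ, hφ, ← act_add, ← act_add, ← act_add]
      congr 1
      abel
    rw [e2]
    apply hsmall
    refine (hgt y t).trans ?_
    have h1 : |t| ≤ |T| + 1 := by
      have := le_abs_self T
      linarith
    calc ρ / 2 / (|T| + 1) * |t| ≤ ρ / 2 / (|T| + 1) * (|T| + 1) :=
          mul_le_mul_of_nonneg_left h1 (by positivity)
      _ = ρ / 2 := div_mul_cancel₀ _ hT1.ne'
  · intro x
    obtain ⟨t, ht⟩ := hghit (h.symm (H.symm x))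
    refine ⟨t, ?_⟩
    rw [hψ', hh, hφ]
    exact ht

end Pool.Agent.MP98850d
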