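import Pool.Agent.Lib.MP_98850d_an.SpecA

/-! # MP_98850d_an: the open sets for one parameter -/

set_option autoImplicit false

namespace Pool.Agent.MP98850d

open Set Filter Topology

universe u

section
variable {n q : ℕ} {X : Type u} [MetricSpace X] {a : Flow (E n) X} {r s : ℝ} {b : Fin q → X → ℝ}
  {st : Fin q → X → ℕ}

/-- a positive label: the point is high, there is no near labelled point of smaller type, and the label is not
used in the window `8` -/
theorem grd_pos (hst : IsSt a r s b st)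
    (hne : ∀ (j : Fin q) (y : X), ({l | 1 ≤ l ∧ l ∉ Used a r s b st 8 j y} : Set ℕ).Nonempty)
    {j : Fin q} {y : X} (h : 1 ≤ st j y) :
    1 / 2 + s / 4 < hgt a r (b j) y ∧ Used a r s b st 1 j y = ∅ ∧ st j y ∉ Used a r s b st 8 j y := by
  have h1 := hst j y
  by_cases hc : 1 / 2 + s / 4 < hgt a r (b j) y ∧ Used a r s b st 1 j y = ∅
  · rw [if_pos hc] at h1
    refine ⟨hc.1, hc.2, ?_⟩
    rw [h1]
    exact (Nat.sInf_mem (hne j y)).2
  · rw [if_neg hc] at h1
    omega

theorem grd_no (hr : 0 < r) (hs1 : s ≤ 1) (hB : Bas a r b) (hst : IsSt a r s b st)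
    (hne : ∀ (j : Fin q) (y : X), ({l | 1 ≤ l ∧ l ∉ Used a r s b st 8 j y} : Set ℕ).Nonempty)
    {i j : Fin q} {y : X} {v : E n} {l : ℕ} (hij : i < j) (hj : 1 / 2 < b j y)
    (hi : 1 / 2 < b i (a v y)) (hv : ‖v‖ ≤ 8) (h1 : st j y = l + 1) (h2 : st i (a v y) = l + 1) :
    False := by
  have hom : 1 / 4 + s / 4 < om a r 8 (b j) (b i) y v := by
    rw [lt_om a hr.le (hB.1 j) (hB.1 i)]
    refine ⟨0, v, by simpa using hr.le, by simpa using hr.le, ?_, by linarith, ?_⟩
    · rw [act_zero]; linarith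
    · have := one_le_kap (n := n) (W := 8) (v := v - 0) (by simpa using hv)
      linarith
  have h3 := (grd_pos hst hne (by omega : 1 ≤ st j y)).2.2
  apply h3
  rw [h1]
  exact ⟨by omega, i, hij, v, by linarith, h2, hom⟩

end

theorem tGrd (hStE : S_StE.{u}) (hCI : S_CI.{u}) (hPk : S_Pk.{u}) (hLC : S_LC.{u})
    (hGO : S_GO.{u}) : S_Grd.{u} := by
  intro n q X _ a r s b hr hr8 hs hs1 hB hcov
  obtain ⟨st, hst⟩ := hStE n q X a r s b
  have hpk := hPk n q X a r s b st hr hr8 hs hs1 hB hst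
  have hne : ∀ (j : Fin q) (y : X), ({l | 1 ≤ l ∧ l ∉ Used a r s b st 8 j y} : Set ℕ).Nonempty :=
    fun j y => (hpk j y).2.2
  have hmono : ∀ (Q Q' : ℝ) (y : X), Q ≤ Q' → Good a r Q' s b y → Good a r Q s b y := by
    intro Q Q' y hQ hG
    have h := (hGO n q X a r s Q b hB).2 Q' 0 y 0 hG (by simp) (by linarith)
    rwa [act_zero] at h
  refine ⟨fun l => {y | Good a r (9 * q) s b y ∧ ∃ j, 1 / 2 < b j y ∧ st j y = l + 1}, ?_, ?_, ?_⟩
  · intro l
    rw [isOpen_iff_mem_nhds]
    rintro y ⟨hG, j, hj, hstj⟩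
    have e1 : ∀ᶠ y' in 𝓝 y, Good a r (9 * q) s b y' :=
      (hGO n q X a r s (9 * q) b hB).1.mem_nhds hG
    have e2 : ∀ᶠ y' in 𝓝 y, 1 / 2 < b j y' := (hB.1 j).continuousAt.eventually (lt_mem_nhds hj)
    have hjq : ((j : ℕ) : ℝ) + 1 ≤ q := by exact_mod_cast j.2
    have e3 := hLC n q X a r s b st hr hr8 hs hs1 hB hst j y (by linarith)
      (hmono _ _ y (by linarith) hG)
    filter_upwards [e1, e2, e3] with y' h1 h2 h3
    exact ⟨h1, j, h2, by rw [h3, hstj]⟩
  · intro l y v hy hvy hv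
    obtain ⟨-, j, hj, hj2⟩ := hy
    obtain ⟨-, i, hi, hi2⟩ := hvy
    rcases lt_trichotomy i j with h | h | h
    · exact (grd_no hr hs1 hB hst hne h hj hi hv hj2 hi2).elim
    · subst h
      refine hB.2.2 i y v ?_ ?_ (by linarith)
      · show 0 < b i y
        linarith
      · show 0 < b i (a v y)
        linarith
    · exfalso
      have h3 : a (-v) (a v y) = y := act_neg a v y
      refine grd_no hr hs1 hB hst hne (y := a v y) (v := -v) h hi (by rw [h3]; exact hj)
        (by rw [norm_neg]; exact hv) hi2 (by rw [h3]; exact hj2)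
  · intro x hG
    obtain ⟨j, hj⟩ := hcov x
    have hq0 : (0 : ℝ) ≤ q := Nat.cast_nonneg q
    have hhgt : 1 / 2 + s / 4 < hgt a r (b j) x := by
      have h := le_hgt a (r := r) (hB.1 j) x (u := 0) (by simpa using hr.le)
      rw [act_zero] at h
      linarith
    by_cases hU : Used a r s b st 1 j x = ∅
    · have h1 := hst j x
      rw [if_pos ⟨hhgt, hU⟩] at h1
      have h2 := Nat.sInf_mem (hne j x)
      rw [← h1] at h2
      have h3 := (hpk j x).2.1
      refine ⟨⟨st j x - 1, by have := h2.1; omega⟩, 0, by rw [norm_zero]; positivity, ?_⟩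
      rw [act_zero]
      refine ⟨hmono _ _ x (by linarith) hG, j, by linarith, ?_⟩
      have := h2.1
      simp only
      omega
    · obtain ⟨l, hl1, i, hij, w, hbw, hstw, hom⟩ := Set.nonempty_iff_ne_empty.2 hU
      obtain ⟨u, v, hu, hv, -, -, hk⟩ := (lt_om a hr.le (hB.1 j) (hB.1 i) x w).1 hom
      have hk2 := kap_pos (lt_of_le_of_lt (by positivity) hk)
      have h1 := (grd_pos hst hne (by rw [hstw]; exact hl1 : 1 ≤ st i (a w x))).1
      obtain ⟨v', hv', hb'⟩ := (lt_hgt a hr.le (hB.1 i) (a w x)).1 h1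
      have hst' : st i (a v' (a w x)) = l := by
        rw [← hstw]
        exact hCI n q X a r s b st hr hr8 hB hst i (a w x) v' (by linarith) (by linarith) (by linarith)
      have hlc : l ≤ 19 ^ n + 1 := by rw [← hstw]; exact (hpk i _).2.1
      have hw : ‖w‖ ≤ ‖v - u‖ + ‖u‖ + ‖v - w‖ := by
        have h5 : w = (v - u) + u - (v - w) := by abel
        calc ‖w‖ = ‖(v - u) + u - (v - w)‖ := by rw [← h5]
          _ ≤ ‖(v - u) + u‖ + ‖v - w‖ := norm_sub_le _ _
          _ ≤ ‖v - u‖ + ‖u‖ + ‖v - w‖ := by gcongr; exact norm_add_le _ _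
      have hvw : ‖v' + w‖ ≤ 5 / 4 + 3 * r := by
        have := norm_add_le v' w
        linarith
      refine ⟨⟨l - 1, by omega⟩, v' + w, hvw, ?_, i, ?_, ?_⟩
      · exact (hGO n q X a r s (9 * q) b hB).2 (9 * q + 12) 2 x (v' + w) hG (by linarith) (by linarith)
      · rw [act_add]; linarith
      · rw [act_add, hst']
        simp only
        omega

end Pool.Agent.MP98850d
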