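import Pool.Agent.Lib.MP_98850d_an.SpecB

/-! # MP_98850d_an: coloured grids -/

set_option autoImplicit false

namespace Pool.Agent.MP98850d

open Set Filter Topology

universe u

/-- the cut-off: `1` on `[0, 1]`, `0` outside `(-1/4, 5/4)` -/
noncomputable def grid_phi (t : ℝ) : ℝ := max 0 (min 1 (min (1 + 4 * t) (5 - 4 * t)))

theorem grid_phi_cont : Continuous grid_phi := by
  unfold grid_phi
  fun_prop

theorem grid_phi_nonneg (t : ℝ) : 0 ≤ grid_phi t := le_max_left _ _

theorem grid_phi_le (t : ℝ) : grid_phi t ≤ 1 := max_le zero_le_one (min_le_left _ _)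

theorem grid_phi_one {t : ℝ} (h0 : 0 ≤ t) (h1 : t ≤ 1) : grid_phi t = 1 := by
  unfold grid_phi
  rw [min_eq_left (le_min (by linarith) (by linarith))]
  norm_num

theorem grid_phi_ne {t : ℝ} (h : grid_phi t ≠ 0) : -1 / 4 < t ∧ t < 5 / 4 := by
  have h1 : 0 < grid_phi t := lt_of_le_of_ne (grid_phi_nonneg t) (Ne.symm h)
  unfold grid_phi at h1
  rcases lt_max_iff.1 h1 with h2 | h2
  · exact absurd h2 (lt_irrefl _)
  · have h3 := lt_min_iff.1 (lt_min_iff.1 h2).2
    constructor <;> linarith [h3.1, h3.2]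

theorem tGrid : S_Grid.{u} := by
  classical
  intro m X _ _ ι O hι hιinj hO
  rcases isEmpty_or_nonempty X with hX | hX
  · exact ⟨Empty, inferInstance, fun _ _ _ => 0, fun _ _ => continuous_const,
      fun _ _ z => (hX.false z).elim, fun _ k => k.elim, fun _ k => k.elim,
      fun z => (hX.false z).elim⟩
  -- Lebesgue number
  obtain ⟨ε0, hε0, hleb⟩ := lebesgue_number_lemma_of_metric (s := (univ : Set X))
    (c := fun z => interior (O z)) isCompact_univ (fun z => isOpen_interior)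
    (fun z _ => mem_iUnion.2 ⟨z, mem_interior_iff_mem_nhds.2 (hO z)⟩)
  -- the mesh
  have hK : IsCompact {p : X × X | ε0 ≤ dist p.1 p.2} :=
    (isClosed_le continuous_const continuous_dist).isCompact
  obtain ⟨δ, hδ, hδ'⟩ := hK.exists_forall_le' (f := fun p : X × X => dist (ι p.1) (ι p.2)) (a := 0)
    (by fun_prop) (by
      intro p hp
      apply dist_pos.2
      intro h
      have h1 := hιinj h
      change ε0 ≤ dist p.1 p.2 at hp
      rw [h1, dist_self] at hp
      linarith)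
  obtain ⟨M, hM⟩ := exists_nat_gt (2 / δ)
  have hM0 : (0 : ℝ) < M := lt_of_le_of_lt (by positivity) hM
  have hMδ : 2 / (M : ℝ) < δ := by
    rw [div_lt_iff₀ hδ] at hM
    rw [div_lt_iff₀ hM0]
    linarith
  have hmesh : ∀ z z' : X, (∀ i, |ι z i - ι z' i| ≤ 2 / M) → dist z z' < ε0 := by
    intro z z' h
    by_contra hcon
    push Not at hcon
    have h1 := hδ' (z, z') hcon
    have h2 : dist (ι z) (ι z') ≤ 2 / M := by
      rw [dist_pi_le_iff (by positivity)]
      intro i
      rw [Real.dist_eq]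
      exact h i
    simp only at h1
    linarith
  obtain ⟨B, hB⟩ := isCompact_univ.exists_bound_of_continuousOn hι.continuousOn
  have hBi : ∀ z i, |ι z i| ≤ B := fun z i => (norm_le_pi_norm (ι z) i).trans (hB z (mem_univ z))
  set K0 : ℤ := ⌈M * B⌉ + 1 with hK0
  let e : Fin (2 ^ m) ≃ (Fin m → Bool) := (Fintype.equivFinOfCardEq (by simp)).symm
  let κ : Type := Fin m → (Finset.Icc (-K0) K0 : Finset ℤ)
  let g : Fin (2 ^ m) → κ → X → ℝ := fun β k z =>
    if ∀ i, (e β i = true ↔ Even (k i : ℤ)) then ∏ i, grid_phi (M * ι z i - ((k i : ℤ) : ℝ)) else 0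
  have hgdef : ∀ β k z, g β k z = if ∀ i, (e β i = true ↔ Even (k i : ℤ)) then
      ∏ i, grid_phi (M * ι z i - ((k i : ℤ) : ℝ)) else 0 := fun _ _ _ => rfl
  have hgne : ∀ β k z, g β k z ≠ 0 → (∀ i, (e β i = true ↔ Even (k i : ℤ))) ∧
      ∀ i, -1 / 4 < M * ι z i - ((k i : ℤ) : ℝ) ∧ M * ι z i - ((k i : ℤ) : ℝ) < 5 / 4 := by
    intro β k z h
    rw [hgdef] at h
    split_ifs at h with hp
    · refine ⟨hp, fun i => grid_phi_ne ?_⟩
      exact Finset.prod_ne_zero_iff.1 h i (Finset.mem_univ i)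
    · exact absurd rfl h
  refine ⟨κ, inferInstance, g, ?_, ?_, ?_, ?_, ?_⟩
  · intro β k
    by_cases hp : ∀ i, (e β i = true ↔ Even (k i : ℤ))
    · have : g β k = fun z => ∏ i, grid_phi (M * ι z i - ((k i : ℤ) : ℝ)) := by
        funext z
        rw [hgdef, if_pos hp]
      rw [this]
      apply continuous_finsetProd
      intro i _
      exact grid_phi_cont.comp ((continuous_const.mul ((continuous_apply i).comp hι)).sub
        continuous_const)
    · have : g β k = fun _ => 0 := by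
        funext z
        rw [hgdef, if_neg hp]
      rw [this]
      exact continuous_const
  · intro β k z
    rw [hgdef]
    split_ifs
    · exact ⟨Finset.prod_nonneg (fun i _ => grid_phi_nonneg _),
        Finset.prod_le_one (fun i _ => grid_phi_nonneg _) (fun i _ => grid_phi_le _)⟩
    · exact ⟨le_rfl, zero_le_one⟩
  · intro β k k' z h h'
    obtain ⟨hp, h1⟩ := hgne β k z h
    obtain ⟨hp', h1'⟩ := hgne β k' z h'
    funext i
    apply Subtype.ext
    have h2 := h1 i
    have h2' := h1' i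
    have h3 : ((k i : ℤ) : ℝ) - ((k' i : ℤ) : ℝ) < 2 := by linarith [h2.1, h2'.2]
    have h4 : ((k' i : ℤ) : ℝ) - ((k i : ℤ) : ℝ) < 2 := by linarith [h2.2, h2'.1]
    have h5 : (k i : ℤ) - (k' i : ℤ) < 2 := by exact_mod_cast h3
    have h6 : (k' i : ℤ) - (k i : ℤ) < 2 := by exact_mod_cast h4
    have h7 : Even (k i : ℤ) ↔ Even (k' i : ℤ) := (hp i).symm.trans (hp' i)
    rw [Int.even_iff, Int.even_iff] at h7
    omega
  · rintro β k ⟨z0, hz0⟩
    obtain ⟨c, hc⟩ := hleb z0 (mem_univ z0)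
    refine ⟨c, fun z hz => interior_subset (hc ?_)⟩
    rw [Metric.mem_ball]
    apply hmesh
    intro i
    have h2 := (hgne β k z0 hz0).2 i
    have h2' := (hgne β k z hz).2 i
    have h9 : |ι z i - ι z0 i| * M = |(ι z i - ι z0 i) * M| := by rw [abs_mul, abs_of_pos hM0]
    rw [le_div_iff₀ hM0, h9, abs_le]
    constructor <;> nlinarith [h2.1, h2.2, h2'.1, h2'.2]
  · intro z
    have hmem : ∀ i, ⌊M * ι z i⌋ ∈ Finset.Icc (-K0) K0 := by
      intro i
      have h1 := abs_le.1 (hBi z i)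
      have h2 : (M : ℝ) * ι z i ≤ M * B := mul_le_mul_of_nonneg_left h1.2 hM0.le
      have h3 : (M : ℝ) * (-B) ≤ M * ι z i := mul_le_mul_of_nonneg_left h1.1 hM0.le
      have h4 : (M : ℝ) * B ≤ ⌈M * B⌉ := Int.le_ceil _
      rw [Finset.mem_Icc]
      constructor
      · rw [Int.le_floor, hK0]
        push_cast
        linarith
      · have h5 : (⌊M * ι z i⌋ : ℝ) ≤ M * ι z i := Int.floor_le _
        have h6 : (⌊M * ι z i⌋ : ℝ) ≤ (⌈M * B⌉ : ℝ) := by linarith
        have h7 : ⌊M * ι z i⌋ ≤ ⌈M * B⌉ := by exact_mod_cast h6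
        omega
    refine ⟨e.symm (fun i => decide (Even ⌊M * ι z i⌋)), fun i => ⟨⌊M * ι z i⌋, hmem i⟩, ?_⟩
    rw [hgdef, if_pos]
    · apply Finset.prod_eq_one
      intro i _
      apply grid_phi_one
      · change 0 ≤ M * ι z i - (⌊M * ι z i⌋ : ℝ)
        linarith [Int.floor_le (M * ι z i)]
      · change M * ι z i - (⌊M * ι z i⌋ : ℝ) ≤ 1
        linarith [Int.lt_floor_add_one (M * ι z i)]
    · intro i
      rw [Equiv.apply_symm_apply]
      simp

end Pool.Agent.MP98850d
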