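import Pool.Agent.Lib.MP_98850d_an.SpecB

/-! # MP_98850d_an: hgt and om are constant on clusters -/

set_option autoImplicit false

namespace Pool.Agent.MP98850d

open Set Filter Topology

universe u

theorem hi_hgt {n : ℕ} {X : Type u} [TopologicalSpace X] (a : Flow (E n) X) {r : ℝ} {b : X → ℝ}
    {y : X} {u : E n} (hr : 0 < r) (hr8 : r ≤ 1 / 8) (hb : Continuous b)
    (hcls : Cls a r 20 {x | 0 < b x}) (hy : 0 < b y) (huy : 0 < b (a u y)) (hu : ‖u‖ ≤ 20) {t : ℝ}
    (ht : 0 ≤ t) (h : t < hgt a r b (a u y)) : t < hgt a r b y := by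
  have hur : ‖u‖ < r := hcls y u hy huy hu
  rw [lt_hgt a hr.le hb] at h ⊢
  obtain ⟨v, hv, hvt⟩ := h
  rw [← act_add] at hvt
  refine ⟨v + u, ?_, hvt⟩
  apply (hcls y (v + u) hy (ht.trans_lt hvt) _).le
  exact (norm_add_le _ _).trans (by linarith)

theorem hi_om {n : ℕ} {X : Type u} [TopologicalSpace X] (a : Flow (E n) X) {r W : ℝ} {b b' : X → ℝ}
    {y : X} {u w w' : E n} (hr : 0 < r) (hr8 : r ≤ 1 / 8) (hb : Continuous b) (hb' : Continuous b')
    (hcls : Cls a r 20 {x | 0 < b x}) (hcls' : Cls a r 20 {x | 0 < b' x}) (hy : 0 < b y)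
    (huy : 0 < b (a u y)) (hu : ‖u‖ ≤ 20) (hwy : 0 < b' (a w y)) (hwy' : 0 < b' (a w' (a u y)))
    (hww : ‖w' + u - w‖ ≤ 19) {t : ℝ} (ht : 0 ≤ t) (h : t < om a r W b b' (a u y) w') :
    t < om a r W b b' y w := by
  have hur : ‖u‖ < r := hcls y u hy huy hu
  rw [lt_om a hr.le hb hb'] at h ⊢
  obtain ⟨u1, v1, hu1, hv1, h1, h2, h3⟩ := h
  rw [← act_add] at h1 h2
  have hd : ‖w' + u - w‖ < r := by
    apply hcls' (a w y) (w' + u - w) hwy
    · change 0 < b' (a (w' + u - w) (a w y))
      rw [act_sub, act_add]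
      exact hwy'
    · linarith
  refine ⟨u1 + u, v1 + u, ?_, ?_, h1, h2, ?_⟩
  · apply (hcls y (u1 + u) hy (ht.trans_lt h1) _).le
    exact (norm_add_le _ _).trans (by linarith)
  · apply (hcls' (a w y) (v1 + u - w) hwy _ _).le
    · change 0 < b' (a (v1 + u - w) (a w y))
      rw [act_sub]
      exact ht.trans_lt h2
    · calc ‖v1 + u - w‖ = ‖(v1 - w') + (w' + u - w)‖ := by congr 1; abel
        _ ≤ ‖v1 - w'‖ + ‖w' + u - w‖ := norm_add_le _ _
        _ ≤ 20 := by linarith
  · rwa [add_sub_add_right_eq_sub]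

theorem tHI : S_HI.{u} := by
  intro n X _ a r W b b' y u w w' hr hr8 hb hb' h0 h0' hcls hcls' hy huy hu
  have hback : 0 < b (a (-u) (a u y)) := by rwa [act_neg]
  refine ⟨?_, ?_⟩
  · apply eq_of_forall_lt_iff
    intro t
    rcases lt_or_ge t 0 with ht | ht
    · constructor
      · intro _
        exact ht.trans_le ((h0 _).trans (le_hgt a hb y (u := 0) (by rw [norm_zero]; exact hr.le)))
      · intro _
        exact ht.trans_le ((h0 _).trans (le_hgt a hb (a u y) (u := 0) (by rw [norm_zero]; exact hr.le)))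
    · constructor
      · exact hi_hgt a hr hr8 hb hcls hy huy hu ht
      · intro h
        apply hi_hgt a (y := a u y) (u := -u) hr hr8 hb hcls huy hback (by rwa [norm_neg]) ht
        rwa [act_neg]
  · intro hwy hwy' hww
    apply eq_of_forall_lt_iff
    intro t
    rcases lt_or_ge t 0 with ht | ht
    · constructor
      · intro _
        exact ht.trans_le (om_nonneg a hr.le hb hb' h0 h0' _ _)
      · intro _
        exact ht.trans_le (om_nonneg a hr.le hb hb' h0 h0' _ _)
    · constructor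
      · exact hi_om a hr hr8 hb hb' hcls hcls' hy huy hu hwy hwy' hww ht
      · intro h
        apply hi_om a (y := a u y) (u := -u) (w := w') (w' := w) hr hr8 hb hb' hcls hcls' huy hback
          (by rwa [norm_neg]) hwy' (by rwa [act_neg]) _ ht
        · rwa [act_neg]
        · rw [show w + -u - w' = -(w' + u - w) by abel, norm_neg]
          exact hww

end Pool.Agent.MP98850d
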