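import Pool.Agent.Lib.MP_98850d_an.SpecA

/-! # MP_98850d_an: from functions to boxes -/

set_option autoImplicit false

namespace Pool.Agent.MP98850d

open Set Filter Topology

universe u

/-- the supremum of `v i + 20 b (a v x)` over `‖v‖ ≤ 4` -/
noncomputable def hat_m {n : ℕ} {X : Type u} [TopologicalSpace X] (a : Flow (E n) X) (b : X → ℝ)
    (i : Fin n) (x : X) : ℝ :=
  sSup ((fun v : E n => v i + 20 * b (a v x)) '' Metric.closedBall (0 : E n) 4)

section
variable {n : ℕ} {X : Type u} [MetricSpace X] (a : Flow (E n) X) {b : X → ℝ}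

theorem hat_cont (hb : Continuous b) (i : Fin n) : Continuous (hat_m a b i) := by
  unfold hat_m
  apply IsCompact.continuous_sSup (isCompact_closedBall 0 4)
    (f := fun (x : X) (v : E n) => v i + 20 * b (a v x))
  have h1 : Continuous (fun z : X × E n => b (a z.2 z.1)) :=
    hb.comp (a.continuous continuous_snd continuous_fst)
  have h2 : Continuous (fun z : X × E n => z.2 i) := (continuous_apply i).comp continuous_snd
  exact h2.add (h1.const_mul 20)

theorem hat_le (hb : Continuous b) (i : Fin n) (x : X) {v : E n} (hv : ‖v‖ ≤ 4) :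
    v i + 20 * b (a v x) ≤ hat_m a b i x := by
  have hc : Continuous (fun v : E n => v i + 20 * b (a v x)) := by
    have h1 : Continuous (fun v : E n => b (a v x)) := hb.comp (a.continuous continuous_id continuous_const)
    exact (continuous_apply i).add (h1.const_mul 20)
  exact le_csSup ((isCompact_closedBall (0 : E n) 4).image hc).bddAbove ⟨v, by simpa using hv, rfl⟩

theorem hat_att (hb : Continuous b) (i : Fin n) (x : X) :
    ∃ v : E n, ‖v‖ ≤ 4 ∧ v i + 20 * b (a v x) = hat_m a b i x := by
  have hc : Continuous (fun v : E n => v i + 20 * b (a v x)) := by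
    have h1 : Continuous (fun v : E n => b (a v x)) := hb.comp (a.continuous continuous_id continuous_const)
    exact (continuous_apply i).add (h1.const_mul 20)
  have hK := (isCompact_closedBall (0 : E n) 4).image hc
  have hne : ((fun v : E n => v i + 20 * b (a v x)) '' Metric.closedBall (0 : E n) 4).Nonempty :=
    ⟨_, 0, by simp, rfl⟩
  obtain ⟨v, hv, hv2⟩ := hK.sSup_mem hne
  exact ⟨v, by simpa using hv, hv2⟩

/-- (A) -/
theorem hat_A (hb : Continuous b) (h01 : ∀ x, 0 ≤ b x ∧ b x ≤ 1)
    (hcl : Cls a (1 / 8) 8 {x | 0 < b x}) {x : X} (hh : 1 / 2 < hgt a 4 b x) {v : E n} (hv : ‖v‖ ≤ 4)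
    (hbv : 0 < b (a v x)) (i : Fin n) : |hat_m a b i x - 20 * hgt a 4 b x - v i| ≤ 1 / 8 := by
  have hclose : ∀ v v' : E n, ‖v‖ ≤ 4 → ‖v'‖ ≤ 4 → 0 < b (a v x) → 0 < b (a v' x) → ‖v' - v‖ < 1 / 8 := by
    intro v v' h1 h2 h3 h4
    refine hcl (a v x) (v' - v) h3 ?_ ?_
    · rw [act_sub]; exact h4
    · have := norm_sub_le v' v
      linarith
  obtain ⟨vs, hvs, hvs2⟩ := hgt_att a (r := 4) (by norm_num) hb x
  have hvs3 : 0 < b (a vs x) := by rw [hvs2]; linarith
  have h1 := hat_le a hb i x hvs
  rw [hvs2] at h1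
  obtain ⟨w, hw, hw2⟩ := hat_att a hb i x
  have hcoord : ∀ v : E n, ∀ c, ‖v‖ ≤ c → |v i| ≤ c := fun v c h => (norm_le_pi_norm v i).trans h
  have h2 := abs_le.1 (hcoord vs 4 hvs)
  have h3 := abs_le.1 (hcoord w 4 hw)
  have hwpos : 0 < b (a w x) := by
    rcases lt_or_eq_of_le (h01 (a w x)).1 with h | h
    · exact h
    · exfalso
      rw [← h] at hw2
      linarith [h2.1, h3.2]
  have h4 := le_hgt a hb x hw
  have h5 := abs_le.1 (hcoord (vs - v) _ (hclose v vs hv hvs hbv hvs3).le)
  have h6 := abs_le.1 (hcoord (w - v) _ (hclose v w hv hw hbv hwpos).le)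
  simp only [Pi.sub_apply] at h5 h6
  rw [abs_le]
  constructor <;> linarith [h5.1, h5.2, h6.1, h6.2]

end

theorem tHat : S_Hat.{u} := by
  intro n X _ a b hb h01 hcl
  set P : X → E n := fun x i => hat_m a b i x - 20 * hgt a 4 b x with hP
  have hhc := hgt_cont a 4 hb
  have hPc : Continuous P := continuous_pi (fun i => (hat_cont a hb i).sub (hhc.const_mul 20))
  have hA : ∀ x v, 1 / 2 < hgt a 4 b x → ‖v‖ ≤ 4 → 0 < b (a v x) → ‖P x - v‖ ≤ 1 / 8 := by
    intro x v h1 h2 h3
    rw [pi_norm_le_iff_of_nonneg (by norm_num)]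
    intro i
    exact hat_A a hb h01 hcl h1 h2 h3 i
  have hh1 : ∀ x, hgt a 4 b x ≤ 1 := by
    intro x
    obtain ⟨v, hv, hv2⟩ := hgt_att a (r := 4) (by norm_num) hb x
    rw [← hv2]
    exact (h01 _).2
  refine ⟨fun x => max 0 (2 * hgt a 4 b x - 1), P, continuous_const.max ((hhc.const_mul 2).sub continuous_const),
    hPc, fun x => ⟨le_max_left _ _, max_le (by norm_num) (by have := hh1 x; linarith)⟩, ?_, ?_⟩
  · intro x u hlam hP1 hP2
    have hh : 1 / 2 < hgt a 4 b x := by
      rcases lt_max_iff.1 hlam with h | h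
      · exact absurd h (lt_irrefl _)
      · linarith
    obtain ⟨vs, hvs, hvs2⟩ := hgt_att a (r := 4) (by norm_num) hb x
    have hvs3 : 0 < b (a vs x) := by rw [hvs2]; linarith
    have hAvs := hA x vs hh hvs hvs3
    -- points of the cluster are in both windows
    have hin : ∀ w : E n, ‖w‖ ≤ 4 → 0 < b (a w x) → ‖w - u‖ ≤ 2 + 1 / 8 := by
      intro w hw hbw
      have h1 := hA x w hh hw hbw
      have h2 : w - u = (P x - u) - (P x - w) := by abel
      rw [h2]
      have := norm_sub_le (P x - u) (P x - w)
      linarith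
    have hout : ∀ w : E n, ‖w - u‖ ≤ 4 → 0 < b (a w x) → ‖w‖ ≤ 4 := by
      intro w hw hbw
      have h1 := hin vs hvs hvs3
      have h2 : ‖w - vs‖ ≤ 8 := by
        have h3 : w - vs = (w - u) - (vs - u) := by abel
        rw [h3]
        have := norm_sub_le (w - u) (vs - u)
        linarith
      have h3 : ‖w - vs‖ < 1 / 8 := by
        refine hcl (a vs x) (w - vs) hvs3 ?_ h2
        rw [act_sub]
        exact hbw
      have h4 : w = P x + (w - vs) - (P x - vs) := by abel
      rw [h4]
      have h5 := norm_sub_le (P x + (w - vs)) (P x - vs)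
      have h6 := norm_add_le (P x) (w - vs)
      linarith
    have hsub : ∀ v : E n, a v (a u x) = a (v + u) x := fun v => (act_add a v u x).symm
    have hhu : hgt a 4 b (a u x) = hgt a 4 b x := by
      apply le_antisymm
      · obtain ⟨v, hv, hv2⟩ := hgt_att a (r := 4) (by norm_num) hb (a u x)
        rw [← hv2, hsub]
        rcases lt_or_eq_of_le (h01 (a (v + u) x)).1 with h | h
        · exact le_hgt a hb x (hout (v + u) (by simpa using hv) h)
        · rw [← h]
          linarith
      · rw [← hvs2]
        have h1 := hin vs hvs hvs3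
        have h2 := le_hgt a (r := 4) hb (a u x) (u := vs - u) (by linarith)
        rwa [act_sub] at h2
    have hmu : ∀ i, hat_m a b i (a u x) = hat_m a b i x - u i := by
      intro i
      have hcoord : ∀ v : E n, ∀ c, ‖v‖ ≤ c → |v i| ≤ c := fun v c h => (norm_le_pi_norm v i).trans h
      apply le_antisymm
      · obtain ⟨v, hv, hv2⟩ := hat_att a hb i (a u x)
        rw [hsub] at hv2
        rcases lt_or_eq_of_le (h01 (a (v + u) x)).1 with h | h
        · have h1 := hat_le a hb i x (hout (v + u) (by simpa using hv) h)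
          simp only [Pi.add_apply] at h1
          linarith
        · exfalso
          rw [← h] at hv2
          have h1 := hin vs hvs hvs3
          have h2 := hat_le a hb i (a u x) (v := vs - u) (by linarith)
          rw [act_sub, hvs2] at h2
          have h3 := (abs_le.1 (hcoord v 4 hv)).2
          have h4 := (abs_le.1 (hcoord (vs - u) _ h1)).1
          linarith
      · obtain ⟨w, hw, hw2⟩ := hat_att a hb i x
        rcases lt_or_eq_of_le (h01 (a w x)).1 with h | h
        · have h1 := hin w hw h
          have h2 := hat_le a hb i (a u x) (v := w - u) (by linarith)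
          rw [act_sub] at h2
          simp only [Pi.sub_apply] at h2
          linarith
        · exfalso
          rw [← h] at hw2
          have h1 := hat_le a hb i x hvs
          rw [hvs2] at h1
          have h3 := (abs_le.1 (hcoord w 4 hw)).2
          have h4 := (abs_le.1 (hcoord vs 4 hvs)).1
          linarith
    refine ⟨by simp only [hhu], ?_⟩
    funext i
    simp only [hP, Pi.sub_apply, hhu, hmu]
    ring
  · intro x u hu hbu
    have hu4 : ‖u‖ ≤ 4 := by linarith
    have h1 : hgt a 4 b x = 1 := by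
      apply le_antisymm (hh1 x)
      rw [← hbu]
      exact le_hgt a hb x hu4
    refine ⟨?_, ?_⟩
    · simp only [h1]
      norm_num
    · have h2 := hA x u (by rw [h1]; norm_num) hu4 (by rw [hbu]; norm_num)
      have h3 : P x = (P x - u) + u := by abel
      rw [h3]
      have := norm_add_le (P x - u) u
      linarith

end Pool.Agent.MP98850d
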