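import Pool.Agent.Lib.MP_98850d_an.SpecB

/-! # MP_98850d_an: slow displacements are homeomorphisms -/

set_option autoImplicit false

namespace Pool.Agent.MP98850d

open Set Filter Topology

universe u

theorem tHom : S_Hom.{u} := by
  intro n X _ _ a g hg hs
  have hcont : Continuous (fun x => a (g x) x) := a.continuous hg continuous_id
  have hinj : Function.Injective (fun x => a (g x) x) := by
    intro x x' h
    change a (g x) x = a (g x') x' at h
    have h1 : x' = a (g x - g x') x := by
      rw [sub_eq_add_neg, add_comm, act_add, h, act_neg]
    have h2 := hs x (g x - g x')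
    rw [← h1, norm_sub_rev] at h2
    have h3 : ‖g x - g x'‖ = 0 := by
      have := norm_nonneg (g x - g x')
      linarith
    rw [norm_eq_zero] at h3
    rw [h1, h3, act_zero]
  have hsurj : Function.Surjective (fun x => a (g x) x) := by
    intro y
    have hc : ContractingWith (3 / 4) (fun v : E n => g (a (-v) y)) := by
      refine ⟨?_, LipschitzWith.of_dist_le_mul ?_⟩
      · rw [← NNReal.coe_lt_coe]
        norm_num
      · intro v v'
        have h1 : a (-v) y = a (v' - v) (a (-v') y) := by
          rw [← act_add]
          congr 1
          abel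
        have h2 := hs (a (-v') y) (v' - v)
        rw [← h1] at h2
        rw [dist_eq_norm, dist_eq_norm, norm_sub_rev v v']
        have h4 : ((3 / 4 : NNReal) : ℝ) = 3 / 4 := by norm_num
        rw [h4]
        exact h2
    have hfix := hc.fixedPoint_isFixedPt
    set v := ContractingWith.fixedPoint _ hc with hv
    refine ⟨a (-v) y, ?_⟩
    have h1 : g (a (-v) y) = v := hfix
    change a (g (a (-v) y)) (a (-v) y) = y
    rw [h1, act_neg']
  let e : X ≃ X := Equiv.ofBijective _ ⟨hinj, hsurj⟩
  have he : Continuous e := hcont
  exact ⟨he.homeoOfEquivCompactToT2, fun x => rfl⟩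

end Pool.Agent.MP98850d
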