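import Pool.Agent.Lib.MP_98850d_an.SpecA

/-! # MP_98850d_an: the labels are locally constant -/

set_option autoImplicit false

namespace Pool.Agent.MP98850d

open Set Filter Topology

universe u

theorem lc_norm {n : ℕ} {X : Type u} [MetricSpace X] (a : Flow (E n) X) {r W t : ℝ} {b b' : X → ℝ}
    {y : X} {w : E n} (hr : 0 < r) (hr8 : r ≤ 1 / 8) (hW : W = 1 ∨ W = 8) (ht : 0 ≤ t)
    (hb : Continuous b) (hb' : Continuous b') (h : t < om a r W b b' y w) : ‖w‖ ≤ 9 := by
  obtain ⟨u, v, hu, hv, -, -, h3⟩ := (lt_om a hr.le hb hb' y w).1 h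
  have h4 := kap_pos (lt_of_le_of_lt ht h3)
  have h5 : w = (v - u) + u - (v - w) := by abel
  have h6 : ‖w‖ ≤ ‖v - u‖ + ‖u‖ + ‖v - w‖ := by
    calc ‖w‖ = ‖(v - u) + u - (v - w)‖ := by rw [← h5]
      _ ≤ ‖(v - u) + u‖ + ‖v - w‖ := norm_sub_le _ _
      _ ≤ ‖v - u‖ + ‖u‖ + ‖v - w‖ := by gcongr; exact norm_add_le _ _
  rcases hW with hW | hW <;> subst hW <;> linarith

/-- one window -/
theorem lc_used {n q : ℕ} {X : Type u} [MetricSpace X] (a : Flow (E n) X) {r s W : ℝ}
    {b : Fin q → X → ℝ} {st : Fin q → X → ℕ} (hHI : S_HI.{u}) (hCI : S_CI.{u}) (hr : 0 < r)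
    (hr8 : r ≤ 1 / 8) (hs : 0 ≤ s) (hB : Bas a r b) (hst : IsSt a r s b st)
    (hbd : ∀ i y, st i y ≤ 19 ^ n + 1) (hW : W = 1 ∨ W = 8) (j : Fin q) (y : X)
    (hy : 1 / 4 ≤ b j y) (hG : Good a r (9 * ((j : ℕ) + 1)) s b y)
    (hloc : ∀ i, i < j → ∀ w : E n, ‖w‖ ≤ 9 → 1 / 4 ≤ b i (a w y) →
      ∀ᶠ z in 𝓝 (a w y), st i z = st i (a w y)) :
    ∀ᶠ y' in 𝓝 y, Used a r s b st W j y' = Used a r s b st W j y := by
  have hthr : 0 ≤ 1 / 4 + s / 4 := by positivity
  -- the inclusion of the right side in the left side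
  have hsup : ∀ᶠ y' in 𝓝 y, ∀ l ∈ Used a r s b st W j y, l ∈ Used a r s b st W j y' := by
    have hfin : (Used a r s b st W j y).Finite := by
      apply (Set.finite_Iic (19 ^ n + 1)).subset
      rintro l ⟨-, i, -, w, -, h, -⟩
      rw [Set.mem_Iic, ← h]
      exact hbd i _
    rw [Filter.eventually_all_finite hfin]
    rintro l ⟨hl1, i, hij, w, hbw, hstw, hom⟩
    -- improve the witness
    obtain ⟨u0, v, hu0, hv, -, hv2, -⟩ := (lt_om a hr.le (hB.1 j) (hB.1 i) y w).1 hom
    have hv2' : 1 / 4 < b i (a v y) := by linarith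
    have hsv : a (v - w) (a w y) = a v y := act_sub a w v y
    have hvw20 : ‖v - w‖ ≤ 20 := by linarith
    have hst' : st i (a v y) = l := by
      rw [← hsv, ← hstw]
      exact hCI n q X a r s b st hr hr8 hB hst i (a w y) (v - w) (by linarith)
        (by rw [hsv]; linarith) hvw20
    have hom' : om a r W (b j) (b i) y v = om a r W (b j) (b i) y w := by
      have h := (hHI n X a r W (b j) (b i) y 0 w v hr hr8 (hB.1 j) (hB.1 i)
        (fun x => (hB.2.1 j x).1) (fun x => (hB.2.1 i x).1) (hB.2.2 j) (hB.2.2 i) (by linarith)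
        (by rw [act_zero]; linarith) (by simp)).2 (by linarith) (by rw [act_zero]; linarith)
        (by rw [add_zero]; linarith)
      rw [act_zero] at h
      exact h
    have hom2 : 1 / 4 + s / 4 < om a r W (b j) (b i) y v := by rw [hom']; exact hom
    have hv9 : ‖v‖ ≤ 9 := lc_norm a hr hr8 hW hthr (hB.1 j) (hB.1 i) hom2
    have e1 : ∀ᶠ y' in 𝓝 y, st i (a v y') = st i (a v y) :=
      ((act_cont' a v).continuousAt.eventually (hloc i hij v hv9 hv2'.le))
    have e2 : ∀ᶠ y' in 𝓝 y, 1 / 4 < b i (a v y') :=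
      ((hB.1 i).comp (act_cont' a v)).continuousAt.eventually (lt_mem_nhds hv2')
    have e3 : ∀ᶠ y' in 𝓝 y, 1 / 4 + s / 4 < om a r W (b j) (b i) y' v := by
      have hc : Continuous (fun y' => om a r W (b j) (b i) y' v) :=
        (om_cont a r W (hB.1 j) (hB.1 i)).comp (by fun_prop : Continuous (fun y' : X => (y', v)))
      exact hc.continuousAt.eventually (lt_mem_nhds hom2)
    filter_upwards [e1, e2, e3] with y' h1 h2 h3
    exact ⟨hl1, i, hij, v, h2.le, by rw [h1, hst'], h3⟩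
  -- the converse
  have hsub : ∀ᶠ y' in 𝓝 y, ∀ l ∈ Used a r s b st W j y', l ∈ Used a r s b st W j y := by
    have key : ∀ i : Fin q, ∀ l ∈ Set.Iic (19 ^ n + 1), ∀ᶠ y' in 𝓝 y, ∀ w ∈ Metric.closedBall (0 : E n) 9,
        (i < j → 1 ≤ l → 1 / 4 ≤ b i (a w y') → st i (a w y') = l →
          1 / 4 + s / 4 < om a r W (b j) (b i) y' w → l ∈ Used a r s b st W j y) := by
      intro i l _
      apply (isCompact_closedBall (0 : E n) 9).eventually_forall_of_forall_eventually
      intro w hw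
      have hw9 : ‖w‖ ≤ 9 := by simpa using hw
      by_cases hij : i < j
      swap
      · exact Filter.Eventually.of_forall (fun z h => absurd h hij)
      by_cases hbw : b i (a w y) < 1 / 4
      · have hc : Continuous (fun z : X × E n => b i (a z.2 z.1)) :=
          (hB.1 i).comp (a.continuous continuous_snd continuous_fst)
        have : ∀ᶠ z : X × E n in 𝓝 (y, w), b i (a z.2 z.1) < 1 / 4 :=
          hc.continuousAt.eventually (gt_mem_nhds hbw)
        filter_upwards [this] with z hz _ _ h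
        exact absurd h (not_le.2 hz)
      push Not at hbw
      have hcz : Continuous (fun z : X × E n => a z.2 z.1) := a.continuous continuous_snd continuous_fst
      have e1 : ∀ᶠ z : X × E n in 𝓝 (y, w), st i (a z.2 z.1) = st i (a w y) :=
        (hcz.continuousAt (x := (y, w))).eventually (hloc i hij w hw9 hbw)
      have hco := om_cont a r W (hB.1 j) (hB.1 i)
      have hne : om a r W (b j) (b i) y w ≠ 1 / 4 + s / 4 := by
        have hj0 : (0 : ℝ) ≤ ((j : ℕ) : ℝ) := Nat.cast_nonneg _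
        have h := hG.2 W hW j i 0 w (by rw [norm_zero]; positivity) (by linarith)
          (by rw [act_zero]; exact hy) hbw
        rw [act_zero, sub_zero] at h
        exact h
      rcases lt_or_gt_of_ne hne with hlt | hgt
      · have : ∀ᶠ z : X × E n in 𝓝 (y, w), om a r W (b j) (b i) z.1 z.2 < 1 / 4 + s / 4 :=
          hco.continuousAt.eventually (gt_mem_nhds hlt)
        filter_upwards [this] with z hz _ _ _ _ h
        exact absurd h (not_lt.2 hz.le)
      · by_cases hl : st i (a w y) = l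
        · exact Filter.Eventually.of_forall
            (fun z _ hl1 _ _ _ => ⟨hl1, i, hij, w, hbw, hl, hgt⟩)
        · filter_upwards [e1] with z hz _ _ _ h _
          exact absurd (hz.symm.trans h) hl
    have key2 : ∀ᶠ y' in 𝓝 y, ∀ i : Fin q, ∀ l ∈ Set.Iic (19 ^ n + 1), ∀ w ∈ Metric.closedBall (0 : E n) 9,
        (i < j → 1 ≤ l → 1 / 4 ≤ b i (a w y') → st i (a w y') = l →
          1 / 4 + s / 4 < om a r W (b j) (b i) y' w → l ∈ Used a r s b st W j y) := by
      rw [Filter.eventually_all]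
      intro i
      rw [Filter.eventually_all_finite (Set.finite_Iic _)]
      exact key i
    filter_upwards [key2] with y' hy' l hl
    obtain ⟨hl1, i, hij, w, h1, h2, h3⟩ := hl
    have hw9 : ‖w‖ ≤ 9 := lc_norm a hr hr8 hW hthr (hB.1 j) (hB.1 i) h3
    exact hy' i l (by rw [Set.mem_Iic, ← h2]; exact hbd i _) w (by simpa using hw9) hij hl1 h1 h2 h3
  filter_upwards [hsup, hsub] with y' h1 h2
  exact Set.Subset.antisymm h2 h1

theorem tLC (hHI : S_HI.{u}) (hCI : S_CI.{u}) (hPk : S_Pk.{u}) (hGO : S_GO.{u}) : S_LC.{u} := by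
  intro n q X _ a r s b st hr hr8 hs hs1 hB hst j
  have hbd : ∀ i y, st i y ≤ 19 ^ n + 1 := fun i y => (hPk n q X a r s b st hr hr8 hs hs1 hB hst i y).2.1
  refine WellFoundedLT.induction (motive := fun j : Fin q => ∀ y : X, 1 / 4 ≤ b j y →
    Good a r (9 * ((j : ℕ) + 1)) s b y → ∀ᶠ y' in 𝓝 y, st j y' = st j y) j ?_
  intro j IH y hy hG
  have hloc : ∀ i, i < j → ∀ w : E n, ‖w‖ ≤ 9 → 1 / 4 ≤ b i (a w y) →
      ∀ᶠ z in 𝓝 (a w y), st i z = st i (a w y) := by
    intro i hij w hw hbw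
    apply IH i hij (a w y) hbw
    refine (hGO n q X a r s (9 * ((i : ℕ) + 1)) b hB).2 (9 * ((j : ℕ) + 1)) 9 y w hG hw ?_
    have : ((i : ℕ) : ℝ) + 1 ≤ ((j : ℕ) : ℝ) := by exact_mod_cast hij
    linarith
  have e1 := lc_used a hHI hCI hr hr8 hs hB hst hbd (Or.inl rfl) j y hy hG hloc
  have e8 := lc_used a hHI hCI hr hr8 hs hB hst hbd (Or.inr rfl) j y hy hG hloc
  have hj0 : (0 : ℝ) ≤ ((j : ℕ) : ℝ) := Nat.cast_nonneg _
  have hne : hgt a r (b j) y ≠ 1 / 2 + s / 4 := by
    have h := hG.1 j 0 (by rw [norm_zero]; positivity) (by rw [act_zero]; exact hy)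
    rw [act_zero] at h
    exact h
  have eh : ∀ᶠ y' in 𝓝 y, (1 / 2 + s / 4 < hgt a r (b j) y' ↔ 1 / 2 + s / 4 < hgt a r (b j) y) := by
    have hc := hgt_cont a r (hB.1 j)
    rcases lt_or_gt_of_ne hne with h | h
    · filter_upwards [hc.continuousAt.eventually (gt_mem_nhds h)] with y' hy'
      constructor
      · intro h'; exact absurd h' (not_lt.2 hy'.le)
      · intro h'; exact absurd h' (not_lt.2 h.le)
    · filter_upwards [hc.continuousAt.eventually (lt_mem_nhds h)] with y' hy'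
      exact ⟨fun _ => h, fun _ => hy'⟩
  filter_upwards [e1, e8, eh] with y' h1 h8 hh
  rw [hst j y', hst j y, h1, h8]
  by_cases hc : 1 / 2 + s / 4 < hgt a r (b j) y ∧ Used a r s b st 1 j y = ∅
  · rw [if_pos hc, if_pos ⟨hh.2 hc.1, hc.2⟩]
  · rw [if_neg hc, if_neg (fun h => hc ⟨hh.1 h.1, h.2⟩)]

end Pool.Agent.MP98850d
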