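import Pool.Agent.Lib.MP_98850d_an.SpecB

/-! # MP_98850d_an: one level -/

set_option autoImplicit false

namespace Pool.Agent.MP98850d

open Set Filter Topology

universe u

theorem lev_tail_sub {n : ℕ} (p : E (n + 1)) (t : ℝ) : Fin.tail (p - ax n t) = Fin.tail p := by
  funext i
  simp [Fin.tail, ax]

theorem lev_ax_head (n : ℕ) (t : ℝ) : ax n t 0 = t := rfl

theorem tLev (hNet : S_Net) (hSlot : S_Slot.{u}) (hPrB : S_PrB.{u}) (hPrL : S_PrL.{u}) :
    S_Lev.{u} := by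
  classical
  intro n m R r ρ ℓ hR hr hρ hℓ
  obtain ⟨A1, -, hA1⟩ := hNet (n + 1) ρ (r / 4) (by positivity)
  obtain ⟨A2, -, hA2⟩ := hNet (n + 1) (2 * ℓ) (r / 4) (by positivity)
  obtain ⟨c1, hc1, -⟩ := hA1 0 (by rw [norm_zero]; exact hρ.le)
  obtain ⟨c2, hc2, -⟩ := hA2 0 (by rw [norm_zero]; positivity)
  have hne : Nonempty ((A1 × A2) × Fin (2 ^ m)) :=
    ⟨((⟨c1, hc1⟩, ⟨c2, hc2⟩), ⟨0, by positivity⟩)⟩
  set J : ℕ := Fintype.card ((A1 × A2) × Fin (2 ^ m)) with hJ
  have hJpos : 0 < J := Fintype.card_pos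
  have hJ0 : (0 : ℝ) < J := by exact_mod_cast hJpos
  let e : (A1 × A2) × Fin (2 ^ m) ≃ Fin J := Fintype.equivFin _
  refine ⟨J * R * (2 * J + 2), by positivity, ?_⟩
  intro X _ _ a ι U F A δ lam P hι hιinj hU hTP hF hslow hδ hA hbox
  set w : ℝ := J * R / δ with hw
  have hwpos : 0 < w := by positivity
  have hCT : J * R * (2 * J + 2) / δ = 2 * w * J + 2 * w := by
    rw [hw]
    field_simp
  rw [hCT] at hA
  rw [hCT]
  have hwJ : 0 < 2 * w * J := by positivity
  have hA0 : 0 < A := by linarith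
  obtain ⟨S, hSc, hSR, hS⟩ := hSlot n m X a ι U R r F (A1 × A2)
    (fun i β => 2 * w * (((e (i, β) : Fin J) : ℕ) + 1)) (fun i => (i.1 : E (n + 1)))
    (fun i => (i.2 : E (n + 1))) hι hιinj hU hTP hr hF hslow
  set S' : Fin J → X → E (n + 1) := fun j => S (e.symm j).1 (e.symm j).2 with hS'
  have hS'c : ∀ j, Continuous (S' j) := fun j => hSc _ _
  have hS'R : ∀ j z, ‖S' j z‖ ≤ R := fun j z => hSR _ _ z
  obtain ⟨hlam, hP, h01, hB⟩ := hbox
  obtain ⟨b1, b2, -, b4⟩ := hPrB n J X a w ℓ R lam P S' hwpos hℓ hR.le hlam hP h01 hS'c hS'R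
  have hsl := hPrL n J X a A w ℓ R lam P S' hwpos hℓ hR.le (by linarith) ⟨hlam, hP, h01, hB⟩ hS'c hS'R
  refine ⟨prog a w ℓ lam P S', b1, b2, ?_, ?_⟩
  · intro x u
    have h1 := hsl x u
    have h2 : J * R / w = δ := by
      rw [hw]
      field_simp
    rwa [h2] at h1
  · intro x hl hp0 htail
    refine ⟨P x 0, ?_⟩
    intro s hs1 hs2
    set t0 := P x 0 with ht0
    set z := a (P x) x with hz
    obtain ⟨β, hβ⟩ := hS z
    set y : E (n + 1) := P x - ax n t0 with hy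
    have hyn : ‖y‖ ≤ 2 * ℓ := by
      apply norm_le_head_tail
      · rw [hy, Pi.sub_apply, lev_ax_head, ht0, sub_self, abs_zero]
        positivity
      · rw [hy, lev_tail_sub]
        linarith
    have hCT0 : 0 ≤ 2 * w * J + 2 * w := by positivity
    obtain ⟨s0, hs0, hss0⟩ := hA1 (s t0) (hs1 t0 le_rfl (by linarith))
    obtain ⟨y0, hy0, hyy0⟩ := hA2 y hyn
    set i : A1 × A2 := (⟨s0, hs0⟩, ⟨y0, hy0⟩) with hi
    set j : Fin J := e (i, β) with hj
    set τ : ℝ := 2 * w * ((j : ℕ) + 1) with hτ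
    have hj1 : ((j : ℕ) : ℝ) + 1 ≤ J := by exact_mod_cast j.2
    have hτ0 : 0 ≤ τ := by positivity
    have hτ1 : τ ≤ 2 * w * J := mul_le_mul_of_nonneg_left hj1 (by positivity)
    set t : ℝ := t0 + τ with ht
    have ht1 : t0 ≤ t := by linarith
    have ht2 : t ≤ t0 + (2 * w * J + 2 * w) := by linarith
    refine ⟨t, ht1, ht2, ?_⟩
    set x' := a (ax n t) x with hx'
    obtain ⟨e1, e2⟩ := hB x (ax n t) (by rw [hl]; exact one_pos) (by linarith) (by linarith)
      (by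
        rw [lev_ax_head, ← ht0, ht, show t0 - (t0 + τ) = -τ by ring, abs_neg, abs_of_nonneg hτ0]
        linarith)
      (by rw [lev_tail_sub]; linarith)
    rw [← hx'] at e1 e2
    have e3 : prog a w ℓ lam P S' x' = S' j (a (P x') x') := by
      apply b4 x' j
      · rw [e1, hl]
      · rw [e2, Pi.sub_apply, lev_ax_head, ← ht0, ht]
        ring
      · rw [e2, lev_tail_sub]
        exact htail
    have e4 : a (P x') x' = z := by
      rw [e2, hx', act_sub]
    have e5 : S' j z = S i β z := by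
      rw [hS', hj]
      simp only [Equiv.symm_apply_apply]
    have e6 : a (ax n τ - y) z = x' := by
      rw [hz, ← act_add, hx']
      congr 1
      rw [hy, ht, add_comm t0 τ, ax_add]
      abel
    have h7 := hβ i (s t) y (by
      calc ‖s t - s0‖ = ‖(s t - s t0) + (s t0 - s0)‖ := by rw [sub_add_sub_cancel]
        _ ≤ ‖s t - s t0‖ + ‖s t0 - s0‖ := norm_add_le _ _
        _ ≤ r / 4 + r / 4 := add_le_add (hs2 t t0 ht1 ht2 le_rfl (by linarith)) hss0
        _ = r / 2 := by ring) hyy0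
    change a (s t + F (a (ax n τ - y) z) + S i β z) (a (ax n τ - y) z) ∈ U at h7
    rw [e6] at h7
    rw [e3, e4, e5]
    exact h7

end Pool.Agent.MP98850d
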