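import Pool.Agent.Lib.MP_98850d_an.SpecB

/-! # MP_98850d_an: approximation by Lipschitz functions of an embedding -/

set_option autoImplicit false

namespace Pool.Agent.MP98850d

open Set Filter Topology

universe u

theorem tLip : S_Lip.{u} := by
  intro X _ _ Y _ χ f τ hχ hinj hf hτ
  rcases isEmpty_or_nonempty X with hX | hX
  · exact ⟨fun _ => 0, 1, one_pos, fun p p' => by simp, fun x => (hX.false x).elim⟩
  obtain ⟨M, hM⟩ := isCompact_univ.exists_bound_of_continuousOn hf.continuousOn
  have hM' : ∀ x, |f x| ≤ M := fun x => hM x (mem_univ x)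
  have hM0 : 0 ≤ M := (abs_nonneg _).trans (hM' hX.some)
  have hK : IsCompact {p : X × X | τ / 2 ≤ |f p.1 - f p.2|} :=
    (isClosed_le continuous_const (by fun_prop)).isCompact
  obtain ⟨δ, hδ, hδ'⟩ := hK.exists_forall_le' (f := fun p : X × X => dist (χ p.1) (χ p.2)) (a := 0)
    (by fun_prop) (by
      intro p hp
      apply dist_pos.2
      intro h
      have h1 := hinj h
      change τ / 2 ≤ |f p.1 - f p.2| at hp
      rw [h1, sub_self, abs_zero] at hp
      linarith)
  set L : ℝ := 2 * M / δ + 1 with hL
  have hL0 : 0 < L := by positivity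
  have hLδ : 2 * M ≤ L * δ := by
    rw [hL, add_mul, div_mul_cancel₀ _ hδ.ne']
    linarith
  have hbdd : ∀ p : Y, BddBelow (range fun x => f x + L * dist p (χ x)) := by
    intro p
    refine ⟨-M, ?_⟩
    rintro _ ⟨x, rfl⟩
    have h1 := (abs_le.1 (hM' x)).1
    have h2 : 0 ≤ L * dist p (χ x) := by positivity
    change -M ≤ f x + L * dist p (χ x)
    linarith
  have hle : ∀ p p' : Y, (⨅ x, (f x + L * dist p (χ x))) ≤ (⨅ x, (f x + L * dist p' (χ x))) +
      L * dist p p' := by
    intro p p'
    rw [← sub_le_iff_le_add]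
    apply le_ciInf
    intro x
    have h1 := ciInf_le (hbdd p) x
    have h2 : L * dist p (χ x) ≤ L * (dist p p' + dist p' (χ x)) :=
      mul_le_mul_of_nonneg_left (dist_triangle _ _ _) hL0.le
    linarith
  refine ⟨fun p => ⨅ x, (f x + L * dist p (χ x)), L, hL0, ?_, ?_⟩
  · intro p p'
    rw [abs_sub_le_iff]
    have h1 := hle p p'
    have h2 := hle p' p
    rw [dist_comm p' p] at h2
    constructor <;> linarith
  · intro x
    have h1 : (⨅ x', (f x' + L * dist (χ x) (χ x'))) ≤ f x := by
      have h := ciInf_le (hbdd (χ x)) x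
      simpa using h
    have h2 : f x - τ / 2 ≤ ⨅ x', (f x' + L * dist (χ x) (χ x')) := by
      apply le_ciInf
      intro x'
      have h3 : 0 ≤ L * dist (χ x) (χ x') := by positivity
      by_cases hc : τ / 2 ≤ |f x - f x'|
      · have h4 : δ ≤ dist (χ x) (χ x') := hδ' (x, x') hc
        have h5 : L * δ ≤ L * dist (χ x) (χ x') := mul_le_mul_of_nonneg_left h4 hL0.le
        have h6 := (abs_le.1 (hM' x)).2
        have h7 := (abs_le.1 (hM' x')).1
        linarith
      · push Not at hc
        have := (abs_lt.1 hc).2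
        linarith
    rw [abs_lt]
    constructor <;> linarith

end Pool.Agent.MP98850d
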