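import Pool.Agent.Lib.MP_98850d_an.SpecB

/-! # MP_98850d_an: local choice of a successful value -/

set_option autoImplicit false

namespace Pool.Agent.MP98850d

open Set Filter Topology

universe u

theorem tLoc : S_Loc.{u} := by
  intro n X _ a U R r F t s0 y0 z0 hU hTP hr hF hslow
  set xc := a (ax n t - y0) z0 with hxc
  obtain ⟨σ, hσR, hσ⟩ := hTP (a (s0 + F xc) xc)
  have hev1 : ∀ᶠ z in 𝓝 z0, ∀ e ∈ Metric.closedBall (0 : E (n + 1)) (2 * r),
      a (σ + e) (a (s0 + F xc) (a (ax n t - y0) z)) ∈ U := by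
    apply (isCompact_closedBall (0 : E (n + 1)) (2 * r)).eventually_forall_of_forall_eventually
    intro e he
    have hop : IsOpen {p : X × E (n + 1) | a (σ + p.2) (a (s0 + F xc) (a (ax n t - y0) p.1)) ∈ U} :=
      hU.preimage (a.continuous (by fun_prop) (a.continuous continuous_const
        (a.continuous continuous_const continuous_fst)))
    exact hop.mem_nhds (hσ e (by simpa using he))
  have hFc : Continuous (fun z => ‖F (a (ax n t - y0) z) - F xc‖) :=
    ((hF.comp (a.continuous continuous_const continuous_id)).sub continuous_const).norm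
  have hev2 : ∀ᶠ z in 𝓝 z0, ‖F (a (ax n t - y0) z) - F xc‖ < r / 4 := by
    apply (isOpen_lt hFc continuous_const).mem_nhds
    change ‖F (a (ax n t - y0) z0) - F xc‖ < r / 4
    rw [← hxc, sub_self, norm_zero]
    positivity
  refine ⟨_, hev1.and hev2, σ, hσR, ?_⟩
  rintro z ⟨h1, h2⟩ s y hs hy
  set x2 := a (ax n t - y0) z with hx2
  have e1 : a (ax n t - y) z = a (y0 - y) x2 := by
    rw [hx2, ← act_add]
    congr 1
    abel
  set x1 := a (ax n t - y) z with hx1
  have hF1 : ‖F x1 - F x2‖ ≤ ‖y0 - y‖ := by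
    rw [e1]
    exact hslow x2 (y0 - y)
  have hy' : ‖y0 - y‖ ≤ r / 4 := by rw [norm_sub_rev]; exact hy
  set e : E (n + 1) := (s - s0) + ((F x1 - F x2) + (F x2 - F xc)) + (y0 - y) with he
  have hen : ‖e‖ ≤ 2 * r := by
    calc ‖e‖ ≤ ‖(s - s0) + ((F x1 - F x2) + (F x2 - F xc))‖ + ‖y0 - y‖ := norm_add_le _ _
      _ ≤ (‖s - s0‖ + ‖(F x1 - F x2) + (F x2 - F xc)‖) + ‖y0 - y‖ := by
          gcongr; exact norm_add_le _ _
      _ ≤ (‖s - s0‖ + (‖F x1 - F x2‖ + ‖F x2 - F xc‖)) + ‖y0 - y‖ := by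
          gcongr; exact norm_add_le _ _
      _ ≤ 2 * r := by linarith
  have h3 := h1 e (by simpa using hen)
  rw [← act_add] at h3
  have e2 : a (s + F x1 + σ) x1 = a (σ + e + (s0 + F xc)) x2 := by
    rw [e1, ← act_add]
    congr 1
    rw [← e1, he]
    abel
  rw [e2]
  exact h3

end Pool.Agent.MP98850d
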