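import Pool.Agent.Lib.MP_98850d_an.SpecB

/-! # MP_98850d_an: equivariant coordinates near a point -/

set_option autoImplicit false

namespace Pool.Agent.MP98850d

open Set Filter Topology

universe u

theorem locp_sup {n : ℕ} {g : E n → ℝ} (hg : Continuous g) {R : ℝ} (hR : 0 ≤ R) :
    (∃ v : E n, ‖v‖ ≤ R ∧ g v = sSup (g '' Metric.closedBall (0 : E n) R)) ∧
    ∀ v : E n, ‖v‖ ≤ R → g v ≤ sSup (g '' Metric.closedBall (0 : E n) R) := by
  have hc : IsCompact (Metric.closedBall (0 : E n) R) := isCompact_closedBall 0 R
  have hne : (Metric.closedBall (0 : E n) R).Nonempty := ⟨0, by simpa using hR⟩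
  have hle : ∀ v : E n, ‖v‖ ≤ R → g v ≤ sSup (g '' Metric.closedBall (0 : E n) R) := by
    intro v hv
    exact le_csSup (hc.image hg).bddAbove ⟨v, by simpa using hv, rfl⟩
  refine ⟨?_, hle⟩
  obtain ⟨v, hv, h⟩ := (hc.image hg).sSup_mem (hne.image g)
  exact ⟨v, by simpa using hv, h⟩

theorem tLocP (hNbd : S_Nbd.{u}) : S_LocP.{u} := by
  intro n X _ a Q x0 hfree
  by_cases hQ : Q < 0
  · refine ⟨univ, univ_mem, fun _ => 0, continuous_const, fun x _ u hu => ?_⟩
    exact absurd ((norm_nonneg u).trans hu) (not_le.2 hQ)
  push Not at hQ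
  obtain ⟨V, hV, hx0, hcls⟩ := hNbd n X a 1 (2 * Q + 1) x0 hfree one_pos
  obtain ⟨ρ, hρ, hball⟩ := Metric.isOpen_iff.1 hV x0 hx0
  set b : X → ℝ := fun x => max 0 (1 - dist x x0 / ρ) with hb
  have hbc : Continuous b := by
    rw [hb]
    fun_prop
  have hb0 : ∀ x, 0 ≤ b x := fun x => le_max_left _ _
  have hbV : ∀ x, 0 < b x → x ∈ V := by
    intro x hx
    apply hball
    rw [Metric.mem_ball]
    rcases lt_max_iff.1 hx with h | h
    · exact absurd h (lt_irrefl _)
    · have : dist x x0 / ρ < 1 := by linarith
      rwa [div_lt_one hρ] at this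
  set C : ℝ := 2 * (2 * Q + 1) with hC
  have hC0 : 0 < C := by positivity
  refine ⟨{x | 1 / 2 < b x}, ?_, fun y i => sSup ((fun v : E n => v i + C * b (a v y)) ''
    Metric.closedBall (0 : E n) (Q + 1)), ?_, ?_⟩
  · apply (isOpen_lt continuous_const hbc).mem_nhds
    change 1 / 2 < b x0
    rw [hb]
    simp only [dist_self, zero_div, sub_zero]
    norm_num
  · apply continuous_pi
    intro i
    apply IsCompact.continuous_sSup (isCompact_closedBall (0 : E n) (Q + 1))
      (f := fun (y : X) (v : E n) => v i + C * b (a v y))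
    have h1 : Continuous (fun p : X × E n => b (a p.2 p.1)) :=
      hbc.comp (a.continuous continuous_snd continuous_fst)
    have h2 : Continuous (fun p : X × E n => p.2 i) := by fun_prop
    exact h2.add (continuous_const.mul h1)
  · intro x hx
    change 1 / 2 < b x at hx
    have claim : ∀ (i : Fin n) (u : E n), ‖u‖ ≤ Q →
        sSup ((fun v : E n => v i + C * b (a v (a u x))) '' Metric.closedBall (0 : E n) (Q + 1)) =
        sSup ((fun w : E n => w i + C * b (a w x)) '' Metric.closedBall (0 : E n) 1) - u i := by
      intro i u hu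
      have hg1 : Continuous (fun v : E n => v i + C * b (a v (a u x))) :=
        (continuous_apply i).add (continuous_const.mul (hbc.comp (a.continuous continuous_id
          continuous_const)))
      have hg2 : Continuous (fun w : E n => w i + C * b (a w x)) :=
        (continuous_apply i).add (continuous_const.mul (hbc.comp (a.continuous continuous_id
          continuous_const)))
      obtain ⟨⟨v, hv, hv1⟩, hle1⟩ := locp_sup hg1 (R := Q + 1) (by linarith)
      obtain ⟨⟨w, hw, hw1⟩, hle2⟩ := locp_sup hg2 (R := 1) (by norm_num)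
      have hui : |u i| ≤ Q := (norm_le_pi_norm u i).trans hu
      apply le_antisymm
      · rw [← hv1]
        have e1 : a v (a u x) = a (v + u) x := (act_add a v u x).symm
        rw [e1]
        rcases (hb0 (a (v + u) x)).lt_or_eq with h | h
        · have h1 : ‖v + u‖ ≤ 2 * Q + 1 := (norm_add_le _ _).trans (by linarith)
          have h2 := hcls x (v + u) (hbV x (by linarith)) (hbV _ h) h1
          have h3 := hle2 (v + u) h2.le
          rw [Pi.add_apply] at h3
          linarith
        · rw [← h, mul_zero, add_zero]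
          have h3 := hle2 0 (by rw [norm_zero]; norm_num)
          rw [act_zero, Pi.zero_apply, zero_add] at h3
          have h4 : C * (1 / 2) ≤ C * b x := mul_le_mul_of_nonneg_left hx.le hC0.le
          have h5 : v i ≤ Q + 1 := (le_abs_self _).trans ((norm_le_pi_norm v i).trans hv)
          have h6 := (abs_le.1 hui).2
          have h7 : C * (1 / 2) = 2 * Q + 1 := by rw [hC]; ring
          linarith
      · rw [← hw1]
        have h1 : ‖w - u‖ ≤ Q + 1 := (norm_sub_le _ _).trans (by linarith)
        have h2 := hle1 (w - u) h1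
        rw [act_sub, Pi.sub_apply] at h2
        linarith
    intro u hu
    funext i
    rw [Pi.sub_apply]
    have h1 := claim i u hu
    have h2 := claim i 0 (by rw [norm_zero]; exact hQ)
    rw [act_zero, Pi.zero_apply, sub_zero] at h2
    exact h1.trans (congrArg (fun t => t - u i) h2.symm)

end Pool.Agent.MP98850d
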