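import Pool.Agent.Lib.MP_98850d_an.SpecB

/-! # MP_98850d_an: minimal sets -/

set_option autoImplicit false

namespace Pool.Agent.MP98850d

open Set Filter Topology

universe u

theorem tMS : S_MS.{u} := by
  intro n X _ _ _ a
  obtain ⟨M, -, hM⟩ := zorn_superset_nonempty {M : Set X | IsClosed M ∧ M.Nonempty ∧
    ∀ x ∈ M, ∀ u, a u x ∈ M} (by
      intro c hc hchain hne
      have : Nonempty c := hne.to_subtype
      refine ⟨⋂₀ c, ⟨isClosed_sInter (fun s hs => (hc hs).1), ?_, ?_⟩, fun s hs => sInter_subset_of_mem hs⟩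
      · apply IsCompact.nonempty_sInter_of_directed_nonempty_isCompact_isClosed
        · intro A hA B hB
          rcases hchain.total hA hB with h | h
          · exact ⟨A, hA, Subset.rfl, h⟩
          · exact ⟨B, hB, h, Subset.rfl⟩
        · exact fun s hs => (hc hs).2.1
        · exact fun s hs => (hc hs).1.isCompact
        · exact fun s hs => (hc hs).1
      · intro x hx u
        rw [mem_sInter] at hx ⊢
        exact fun s hs => (hc hs).2.2 x (hx s hs) u) univ
    ⟨isClosed_univ, univ_nonempty, fun x _ u => mem_univ _⟩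
  obtain ⟨⟨hMc, hMne, hMinv⟩, hmin⟩ := hM
  refine ⟨M, hMc, hMne, hMinv, fun x hx => ?_⟩
  have hsub : closure (range fun u => a u x) ⊆ M := by
    apply closure_minimal _ hMc
    rintro _ ⟨u, rfl⟩
    exact hMinv x hx u
  apply hmin _ hsub
  refine ⟨isClosed_closure, ⟨a 0 x, subset_closure ⟨0, rfl⟩⟩, ?_⟩
  intro y hy u
  refine map_mem_closure (act_cont' a u) hy ?_
  rintro _ ⟨v, rfl⟩
  exact ⟨u + v, act_add a u v x⟩

end Pool.Agent.MP98850d
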