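import Pool.Agent.Lib.MP_98850d_an.SpecB

/-! # MP_98850d_an: the theorem for compact metric spaces -/

set_option autoImplicit false

namespace Pool.Agent.MP98850d

open Set Filter Topology

universe u

theorem tMet (hFre : S_Fre.{u}) (hDrop : S_Drop.{u}) : S_Met.{u} := by
  intro n
  induction n with
  | zero =>
    intro m X _ _ a ι hmin hι hιinj
    refine ⟨{ toFun := fun t x => a (ax 0 t) x
              cont' := a.continuous ((ax_cont 0).comp continuous_fst) continuous_snd
              map_add' := fun s t x => by rw [ax_add, act_add]
              map_zero' := fun x => by rw [ax_zero, act_zero] }, fun x => ?_⟩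
    have h1 : (range fun u => a u x) ⊆ range fun t => a (ax 0 t) x := by
      rintro _ ⟨u, rfl⟩
      refine ⟨u 0, ?_⟩
      have : ax 0 (u 0) = u := by
        funext i
        exact Fin.cases rfl (fun j => j.elim0) i
      change a (ax 0 (u 0)) x = a u x
      rw [this]
    exact (hmin x).mono h1
  | succ n ih =>
    intro m X _ _ a ι hmin hι hιinj
    by_cases hfree : FreeA a
    · exact hFre (n + 1) m X a ι hfree hmin hι hιinj
    · obtain ⟨a', ha'⟩ := hDrop n X a hmin hfree
      exact ih m X a' ι ha' hι hιinj

end Pool.Agent.MP98850d
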