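import Pool.Agent.Lib.MP_98850d_an.SpecB

/-! # MP_98850d_an: approximation by functions with the covering property -/

set_option autoImplicit false

namespace Pool.Agent.MP98850d

open Set Filter Topology

universe u

theorem tNF (hLocP : S_LocP.{u}) (hCovD : S_CovD.{u}) (hCovO : S_CovO.{u}) : S_NF.{u} := by
  classical
  intro n m q X _ _ a ι Q b τ η hfree hι hιinj hb hτ hη
  choose D hD P hP hPeq using fun x0 : X => hLocP n X a Q x0 hfree
  obtain ⟨hO1, hO2⟩ := hCovO n q X a Q (n + m + 1)
  have main : ∀ t : Finset X, ∀ (b : Fin q → X → ℝ) (τ η : ℝ), (∀ j, Continuous (b j)) → 0 < τ →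
      0 < η → ∃ b' : Fin q → X → ℝ, (∀ j, Continuous (b' j)) ∧ (∀ j x, |b' j x - b j x| < τ) ∧
        Cov a Q b' (⋃ x ∈ t, D x) (n + m + 1) η := by
    intro t
    induction t using Finset.induction_on with
    | empty =>
      intro b τ η hb hτ hη
      refine ⟨b, hb, fun j x => by simpa using hτ, Empty, inferInstance, fun _ => ∅, fun _ => 1,
        fun _ => one_pos, by simp, by simpa using hη, fun i => i.elim⟩
    | insert x t hx ih =>
      intro b τ η hb hτ hη
      obtain ⟨b1, hb1, hbb1, hcov1⟩ := ih b (τ / 2) (η / 2) hb (by positivity) (by positivity)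
      obtain ⟨τ1, hτ1, hstab⟩ := hO1 b1 _ _ hcov1
      obtain ⟨b2, hb2, hbb2, hcov2⟩ := hCovD n m q X a ι Q (D x) (P x) b1 (min (τ / 2) τ1) (η / 2)
        hι hιinj (hP x) (hPeq x) hb1 (lt_min (by positivity) hτ1) (by positivity)
      refine ⟨b2, hb2, fun j y => ?_, ?_⟩
      · have h1 := abs_lt.1 (hbb1 j y)
        have h2 := abs_lt.1 ((hbb2 j y).trans_le (min_le_left _ _))
        rw [abs_lt]
        constructor <;> linarith [h1.1, h1.2, h2.1, h2.2]
      · have h1 := hstab b2 (fun j y => ((hbb2 j y).trans_le (min_le_right _ _)).le)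
        have h2 := hO2 b2 _ _ _ _ hcov2 h1
        rw [add_halves] at h2
        rw [Finset.set_biUnion_insert]
        exact h2
  obtain ⟨t, ht⟩ := CompactSpace.elim_nhds_subcover D hD
  obtain ⟨b', h1, h2, h3⟩ := main t b τ η hb hτ hη
  refine ⟨b', h1, h2, ?_⟩
  rw [ht] at h3
  exact h3

end Pool.Agent.MP98850d
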