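import Pool.Agent.Lib.MP_98850d_an.SpecB

/-! # MP_98850d_an: hgt and om are values at the points of a net -/

set_option autoImplicit false

namespace Pool.Agent.MP98850d

open Set Filter Topology

universe u

theorem netv_lt1 {n : ℕ} {X : Type u} [TopologicalSpace X] (a : Flow (E n) X) {r t : ℝ}
    {b : X → ℝ} (hr : 0 ≤ r) (hb : Continuous b) (c : E n) (x : X) :
    t < val1 a r b c x ↔ ∃ u : E n, ‖u - c‖ ≤ 3 * r ∧ t < b (a u x) := by
  unfold val1
  have hc : IsCompact ((fun u => b (a u x)) '' Metric.closedBall c (3 * r)) :=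
    (isCompact_closedBall c (3 * r)).image (hb.comp (a.continuous continuous_id continuous_const))
  have hne : ((fun u => b (a u x)) '' Metric.closedBall c (3 * r)).Nonempty :=
    ⟨_, c, Metric.mem_closedBall_self (by positivity), rfl⟩
  rw [lt_csSup_iff hc.bddAbove hne]
  constructor
  · rintro ⟨_, ⟨u, hu, rfl⟩, h⟩
    exact ⟨u, by rwa [Metric.mem_closedBall, dist_eq_norm] at hu, h⟩
  · rintro ⟨u, hu, h⟩
    exact ⟨_, ⟨u, by rwa [Metric.mem_closedBall, dist_eq_norm], rfl⟩, h⟩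

theorem netv_lt2 {n : ℕ} {X : Type u} [TopologicalSpace X] (a : Flow (E n) X) {r W t : ℝ}
    {b b' : X → ℝ} (hr : 0 ≤ r) (hb : Continuous b) (hb' : Continuous b') (c c' : E n) (x : X) :
    t < val2 a r W b b' c c' x ↔ ∃ u v : E n, ‖u - c‖ ≤ 3 * r ∧ ‖v - c'‖ ≤ 3 * r ∧ t < b (a u x) ∧
      t < b' (a v x) ∧ t < kap W (v - u) := by
  unfold val2
  have hcont : Continuous (fun p : E n × E n => min (b (a p.1 x)) (min (b' (a p.2 x))
      (kap W (p.2 - p.1)))) := by
    have h1 : Continuous (fun z : E n × E n => b (a z.1 x)) :=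
      hb.comp (a.continuous (by fun_prop) (by fun_prop))
    have h2 : Continuous (fun z : E n × E n => b' (a z.2 x)) :=
      hb'.comp (a.continuous (by fun_prop) (by fun_prop))
    have h3 : Continuous (fun z : E n × E n => kap W (z.2 - z.1)) :=
      (kap_cont W).comp (by fun_prop)
    exact h1.min (h2.min h3)
  have hc := ((isCompact_closedBall c (3 * r)).prod (isCompact_closedBall c' (3 * r))).image hcont
  have hne : ((fun p : E n × E n => min (b (a p.1 x)) (min (b' (a p.2 x))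
      (kap W (p.2 - p.1)))) '' (Metric.closedBall c (3 * r) ×ˢ Metric.closedBall c' (3 * r))).Nonempty :=
    ⟨_, (c, c'), ⟨Metric.mem_closedBall_self (by positivity),
      Metric.mem_closedBall_self (by positivity)⟩, rfl⟩
  rw [lt_csSup_iff hc.bddAbove hne]
  constructor
  · rintro ⟨_, ⟨⟨u, v⟩, ⟨hu, hv⟩, rfl⟩, h⟩
    simp only [lt_min_iff] at h
    simp only [Metric.mem_closedBall, dist_eq_norm] at hu hv
    exact ⟨u, v, hu, hv, h.1, h.2.1, h.2.2⟩
  · rintro ⟨u, v, hu, hv, h1, h2, h3⟩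
    refine ⟨_, ⟨(u, v), ⟨?_, ?_⟩, rfl⟩, ?_⟩
    · rwa [Metric.mem_closedBall, dist_eq_norm]
    · rwa [Metric.mem_closedBall, dist_eq_norm]
    · simp only [lt_min_iff]
      exact ⟨h1, h2, h3⟩

theorem tNetV : S_NetV.{u} := by
  intro n X _ a r W b b' c c' u1 v1 x hr hr8 hb hb' h0 h0' hcls hcls' hu1 hv1 hbu hbv
  -- clusters
  have hC : ∀ u : E n, ‖u - c‖ ≤ 3 * r → 0 < b (a u x) → ‖u - u1‖ < r := by
    intro u hu hux
    apply hcls (a u1 x) (u - u1) hbu
    · change 0 < b (a (u - u1) (a u1 x))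
      rwa [act_sub]
    · calc ‖u - u1‖ = ‖(u - c) - (u1 - c)‖ := by rw [sub_sub_sub_cancel_right]
        _ ≤ ‖u - c‖ + ‖u1 - c‖ := norm_sub_le _ _
        _ ≤ 20 := by linarith
  have hC' : ∀ v : E n, ‖v - c'‖ ≤ 3 * r → 0 < b' (a v x) → ‖v - v1‖ < r := by
    intro v hv hvx
    apply hcls' (a v1 x) (v - v1) hbv
    · change 0 < b' (a (v - v1) (a v1 x))
      rwa [act_sub]
    · calc ‖v - v1‖ = ‖(v - c') - (v1 - c')‖ := by rw [sub_sub_sub_cancel_right]
        _ ≤ ‖v - c'‖ + ‖v1 - c'‖ := norm_sub_le _ _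
        _ ≤ 20 := by linarith
  have hN : ∀ u : E n, ‖u - u1‖ ≤ r → ‖u - c‖ ≤ 3 * r := by
    intro u hu
    calc ‖u - c‖ = ‖(u - u1) + (u1 - c)‖ := by rw [sub_add_sub_cancel]
      _ ≤ ‖u - u1‖ + ‖u1 - c‖ := norm_add_le _ _
      _ ≤ 3 * r := by linarith
  have hN' : ∀ v : E n, ‖v - v1‖ ≤ r → ‖v - c'‖ ≤ 3 * r := by
    intro v hv
    calc ‖v - c'‖ = ‖(v - v1) + (v1 - c')‖ := by rw [sub_add_sub_cancel]
      _ ≤ ‖v - v1‖ + ‖v1 - c'‖ := norm_add_le _ _
      _ ≤ 3 * r := by linarith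
  refine ⟨?_, ?_⟩
  · apply eq_of_forall_lt_iff
    intro t
    rw [lt_hgt a hr.le hb, netv_lt1 a hr.le hb]
    rcases lt_or_ge t 0 with ht | ht
    · constructor
      · intro _
        exact ⟨c, by rw [sub_self, norm_zero]; positivity, ht.trans_le (h0 _)⟩
      · intro _
        exact ⟨0, by rw [norm_zero]; exact hr.le, ht.trans_le (h0 _)⟩
    · constructor
      · rintro ⟨u, hu, h⟩
        rw [← act_add] at h
        exact ⟨u + u1, hN _ (by rwa [add_sub_cancel_right]), h⟩
      · rintro ⟨u, hu, h⟩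
        exact ⟨u - u1, (hC u hu (ht.trans_lt h)).le, by rwa [act_sub]⟩
  · apply eq_of_forall_lt_iff
    intro t
    rw [lt_om a hr.le hb hb', netv_lt2 a hr.le hb hb']
    rcases lt_or_ge t 0 with ht | ht
    · constructor
      · intro _
        exact ⟨c, c', by rw [sub_self, norm_zero]; positivity, by rw [sub_self, norm_zero]; positivity,
          ht.trans_le (h0 _), ht.trans_le (h0' _), ht.trans_le (kap_nonneg _ _)⟩
      · intro _
        exact ⟨0, v1 - u1, by rw [norm_zero]; exact hr.le, by rw [sub_self, norm_zero]; exact hr.le,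
          ht.trans_le (h0 _), ht.trans_le (h0' _), ht.trans_le (kap_nonneg _ _)⟩
    · constructor
      · rintro ⟨u, v, hu, hv, h1, h2, h3⟩
        rw [← act_add] at h1 h2
        refine ⟨u + u1, v + u1, hN _ (by rwa [add_sub_cancel_right]), hN' _ ?_, h1, h2, ?_⟩
        · rw [show v + u1 - v1 = v - (v1 - u1) by abel]
          exact hv
        · rwa [add_sub_add_right_eq_sub]
      · rintro ⟨u, v, hu, hv, h1, h2, h3⟩
        refine ⟨u - u1, v - u1, (hC u hu (ht.trans_lt h1)).le, ?_, by rwa [act_sub],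
          by rwa [act_sub], by rwa [sub_sub_sub_cancel_right]⟩
        rw [sub_sub_sub_cancel_right]
        exact (hC' v hv (ht.trans_lt h2)).le

end Pool.Agent.MP98850d
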