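import Pool.Agent.Lib.MP_98850d_an.SpecB

/-! # MP_98850d_an: the open sets -/

set_option autoImplicit false

namespace Pool.Agent.MP98850d

open Set Filter Topology

universe u

theorem tOpn (hTyp : S_Typ.{u}) (hSel : S_Sel.{u}) (hGrd : S_Grd.{u}) : S_Opn.{u} := by
  intro n m X _ _ a ι r hfree hι hιinj hr hr8
  obtain ⟨q, hq⟩ := hTyp n m X a ι r hfree hι hιinj hr
  obtain ⟨η, hη, hsel⟩ := hSel n q (n + m + 1) (9 * q + 12) r hr hr8
  obtain ⟨b, hbas, hb34, hcov⟩ := hq (9 * q + 12 + 1) η hη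
  obtain ⟨s, hs01, hs⟩ := hsel X a b hbas hcov
  choose O hO hcls hgood using fun k => hGrd n q X a r (s k) b hr hr8 (hs01 k).1 (hs01 k).2 hbas hb34
  refine ⟨O, hO, hcls, fun x => ?_⟩
  obtain ⟨k, hk⟩ := hs x
  obtain ⟨l, u, hu, hx⟩ := hgood k x hk
  exact ⟨k, l, u, hu, hx⟩

end Pool.Agent.MP98850d
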