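import Pool.Agent.Lib.MP_98850d_an.SpecB

/-! # MP_98850d_an: at most 19^n labels near a point -/

set_option autoImplicit false

namespace Pool.Agent.MP98850d

open Set Filter Topology

universe u

theorem pk_ne {n q : ℕ} {X : Type u} [MetricSpace X] (a : Flow (E n) X) {r s : ℝ}
    {b : Fin q → X → ℝ} {st : Fin q → X → ℕ} (hr : 0 < r) (hs1 : s ≤ 1)
    (hbas : Bas a r b) {i i' : Fin q} {z z' : E n} {y : X} {l : ℕ} (hl : 1 ≤ l) (hii : i < i')
    (hzz : ‖z - z'‖ ≤ 1) (h1 : 1 / 2 < b i (a z y)) (h2 : 1 / 2 < b i' (a z' y))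
    (h3 : st i (a z y) = l) (h4 : Used a r s b st 1 i' (a z' y) = ∅) : False := by
  have hmem : l ∈ Used a r s b st 1 i' (a z' y) := by
    refine ⟨hl, i, hii, z - z', ?_, ?_, ?_⟩
    · rw [act_sub]
      linarith
    · rw [act_sub]
      exact h3
    · rw [lt_om a hr.le (hbas.1 i') (hbas.1 i)]
      refine ⟨0, z - z', by rw [norm_zero]; exact hr.le, by rw [sub_self, norm_zero]; exact hr.le,
        ?_, ?_, ?_⟩
      · rw [act_zero]
        linarith
      · rw [act_sub]
        linarith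
      · rw [sub_zero]
        have := one_le_kap hzz
        linarith
  rw [h4] at hmem
  exact hmem

theorem tPk (_hHI : S_HI.{u}) (hCI : S_CI.{u}) : S_Pk.{u} := by
  classical
  intro n q X _ a r s b st hr hr8 hs0 hs1 hbas hst j y
  have hpos : ∀ (i : Fin q) (x : X), 1 ≤ st i x → 1 / 2 + s / 4 < hgt a r (b i) x ∧
      Used a r s b st 1 i x = ∅ := by
    intro i x h
    by_contra hcon
    rw [hst i x, if_neg hcon] at h
    exact absurd h (by norm_num)
  -- the points
  have hex : ∀ l : Used a r s b st 8 j y, ∃ (i : Fin q) (z : E n), ‖z‖ < 9 ∧ 1 / 2 < b i (a z y) ∧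
      st i (a z y) = l ∧ Used a r s b st 1 i (a z y) = ∅ := by
    rintro ⟨l, hl, i, hij, w, h1, h2, h3⟩
    obtain ⟨u, v, hu, hv, -, -, hk⟩ := (lt_om a hr.le (hbas.1 j) (hbas.1 i) y w).1 h3
    have hvu := kap_pos (lt_trans (by linarith) hk)
    have h4 := hpos i (a w y) (by rw [h2]; exact hl)
    obtain ⟨v', hv', h5⟩ := (lt_hgt a hr.le (hbas.1 i) (a w y)).1 h4.1
    have h6 : st i (a v' (a w y)) = l := by
      rw [← h2]
      exact hCI n q X a r s b st hr hr8 hbas hst i (a w y) v' (by linarith) (by linarith)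
        (by linarith)
    refine ⟨i, v' + w, ?_, ?_, ?_, ?_⟩
    · have e1 : v' + w = v' + ((v - u) + u - (v - w)) := by abel
      rw [e1]
      calc ‖v' + ((v - u) + u - (v - w))‖ ≤ ‖v'‖ + ‖(v - u) + u - (v - w)‖ := norm_add_le _ _
        _ ≤ ‖v'‖ + (‖(v - u) + u‖ + ‖v - w‖) := by gcongr; exact norm_sub_le _ _
        _ ≤ ‖v'‖ + ((‖v - u‖ + ‖u‖) + ‖v - w‖) := by gcongr; exact norm_add_le _ _
        _ < 9 := by linarith
    · rw [act_add]
      linarith
    · rw [act_add]
      exact h6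
    · rw [act_add]
      exact (hpos i _ (by rw [h6]; exact hl)).2
  choose I Z hZ hb hstl hU using hex
  have hfl : ∀ l k, -9 ≤ ⌊Z l k⌋ ∧ ⌊Z l k⌋ < 9 + 1 := by
    intro l k
    have h1 := abs_le.1 ((norm_le_pi_norm (Z l) k).trans (hZ l).le)
    constructor
    · rw [Int.le_floor]
      push_cast
      linarith [h1.1]
    · rw [Int.floor_lt]
      push_cast
      linarith [h1.2]
  set φ : Used a r s b st 8 j y → (Fin n → Fin 19) := fun l k => ⟨(⌊Z l k⌋ + 9).toNat, by
    have := hfl l k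
    omega⟩ with hφ
  have hinj : Function.Injective φ := by
    intro l l' h
    by_contra hne
    have hd : ‖Z l - Z l'‖ ≤ 1 := by
      rw [pi_norm_le_iff_of_nonneg zero_le_one]
      intro k
      have h1 : (⌊Z l k⌋ + 9).toNat = (⌊Z l' k⌋ + 9).toNat := by
        have := congrArg Fin.val (congrFun h k)
        exact this
      have h2 := hfl l k
      have h3 := hfl l' k
      have h4 : ⌊Z l k⌋ = ⌊Z l' k⌋ := by omega
      exact (Int.abs_sub_lt_one_of_floor_eq_floor h4).le
    rcases lt_trichotomy (I l) (I l') with h1 | h1 | h1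
    · exact pk_ne a hr hs1 hbas l.2.1 h1 hd (hb l) (hb l') (hstl l) (hU l')
    · have h2 := hCI n q X a r s b st hr hr8 hbas hst (I l') (a (Z l') y) (Z l - Z l')
        (by have := hb l'; linarith) (by rw [act_sub, ← h1]; have := hb l; linarith) (by linarith)
      rw [act_sub, hstl l', ← h1, hstl l] at h2
      exact hne (Subtype.ext h2)
    · exact pk_ne a hr hs1 hbas l'.2.1 h1 (by rw [norm_sub_rev]; exact hd) (hb l') (hb l)
        (hstl l') (hU l)
  have hfin : Finite (Used a r s b st 8 j y) := Finite.of_injective φ hinj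
  have hfin' : (Used a r s b st 8 j y).Finite := Set.toFinite _
  have hcard : (Used a r s b st 8 j y).ncard ≤ 19 ^ n := by
    have h1 := Nat.card_le_card_of_injective φ hinj
    rw [Nat.card_eq_fintype_card (α := Fin n → Fin 19), Fintype.card_fun, Fintype.card_fin,
      Fintype.card_fin] at h1
    exact h1
  have hexl : ∃ l, 1 ≤ l ∧ l ≤ 19 ^ n + 1 ∧ l ∉ Used a r s b st 8 j y := by
    by_contra hcon
    push Not at hcon
    have hsub : (↑(Finset.Icc 1 (19 ^ n + 1)) : Set ℕ) ⊆ Used a r s b st 8 j y := by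
      intro l hl
      rw [Finset.coe_Icc] at hl
      exact hcon l hl.1 hl.2
    have h1 := Set.ncard_le_ncard hsub hfin'
    rw [Set.ncard_coe_finset, Nat.card_Icc] at h1
    omega
  obtain ⟨l, hl1, hl2, hl3⟩ := hexl
  refine ⟨hfin', ?_, ⟨l, hl1, hl3⟩⟩
  rw [hst j y]
  split_ifs
  · have hmem : l ∈ {l | 1 ≤ l ∧ l ∉ Used a r s b st 8 j y} := ⟨hl1, hl3⟩
    exact (Nat.sInf_le hmem).trans hl2
  · exact Nat.zero_le _

end Pool.Agent.MP98850d
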