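import Pool.Agent.Lib.MP_98850d_an.SpecB

/-! # MP_98850d_an: the programme, bound and continuity -/

set_option autoImplicit false

namespace Pool.Agent.MP98850d

open Set Filter Topology

universe u

theorem prb_tent_nonneg (w c τ : ℝ) : 0 ≤ tent w c τ := le_max_left _ _

theorem prb_tent_le {w c τ : ℝ} (hw : 0 < w) : tent w c τ ≤ 1 := by
  unfold tent
  apply max_le (by norm_num)
  have : 0 ≤ |τ - c| / w := by positivity
  linarith

theorem prb_tent_ne {w c τ : ℝ} (hw : 0 < w) (h : tent w c τ ≠ 0) : |τ - c| < w := by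
  unfold tent at h
  by_contra hcon
  push Not at hcon
  apply h
  apply max_eq_left
  have : 1 ≤ |τ - c| / w := by rw [le_div_iff₀ hw]; linarith
  linarith

theorem prb_tent_cont (w c : ℝ) : Continuous (tent w c) := by
  unfold tent
  fun_prop

theorem prb_cut_nonneg {n : ℕ} (ℓ : ℝ) (p : E (n + 1)) : 0 ≤ cut ℓ p := le_max_left _ _

theorem prb_cut_le {n : ℕ} (ℓ : ℝ) (p : E (n + 1)) : cut ℓ p ≤ 1 :=
  max_le (by norm_num) (min_le_left _ _)

theorem prb_tail_cont (n : ℕ) : Continuous (fun p : E (n + 1) => Fin.tail p) :=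
  continuous_pi (fun i => continuous_apply i.succ)

theorem prb_cut_cont {n : ℕ} (ℓ : ℝ) : Continuous (cut (n := n) ℓ) := by
  unfold cut
  have h := (prb_tail_cont n).norm
  have h2 : Continuous (fun p : E (n + 1) => 15 - 8 * ‖Fin.tail p‖ / ℓ) :=
    continuous_const.sub ((h.const_mul 8).div_const ℓ)
  exact continuous_const.max (continuous_const.min h2)

theorem prb_cut_ne {n : ℕ} {ℓ : ℝ} {p : E (n + 1)} (hℓ : 0 < ℓ) (h : cut ℓ p ≠ 0) :
    ‖Fin.tail p‖ < 15 / 8 * ℓ := by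
  unfold cut at h
  by_contra hcon
  push Not at hcon
  apply h
  apply max_eq_left
  have : 15 ≤ 8 * ‖Fin.tail p‖ / ℓ := by rw [le_div_iff₀ hℓ]; linarith
  exact (min_le_right _ _).trans (by linarith)

theorem prb_cut_one {n : ℕ} {ℓ : ℝ} {p : E (n + 1)} (hℓ : 0 < ℓ) (h : ‖Fin.tail p‖ ≤ 7 / 4 * ℓ) :
    cut ℓ p = 1 := by
  unfold cut
  have h1 : 8 * ‖Fin.tail p‖ / ℓ ≤ 14 := by rw [div_le_iff₀ hℓ]; linarith
  rw [min_eq_left (by linarith)]
  norm_num

/-- at most one tent is not zero -/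
theorem prb_one {w τ : ℝ} (hw : 0 < w) {J : ℕ} {i j : Fin J}
    (hi : tent w (2 * w * ((i : ℕ) + 1)) τ ≠ 0) (hj : tent w (2 * w * ((j : ℕ) + 1)) τ ≠ 0) : i = j := by
  have h1 := abs_lt.1 (prb_tent_ne hw hi)
  have h2 := abs_lt.1 (prb_tent_ne hw hj)
  have h3 : (((i : ℕ) : ℝ) - ((j : ℕ) : ℝ)) * (2 * w) < 1 * (2 * w) := by linarith [h1.1, h1.2, h2.1, h2.2]
  have h4 : (((j : ℕ) : ℝ) - ((i : ℕ) : ℝ)) * (2 * w) < 1 * (2 * w) := by linarith [h1.1, h1.2, h2.1, h2.2]
  have h5 := lt_of_mul_lt_mul_right h3 (by positivity)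
  have h6 := lt_of_mul_lt_mul_right h4 (by positivity)
  have h7 : ((i : ℕ) : ℝ) < ((j : ℕ) : ℝ) + 1 := by linarith
  have h8 : ((j : ℕ) : ℝ) < ((i : ℕ) : ℝ) + 1 := by linarith
  have h9 : (i : ℕ) < (j : ℕ) + 1 := by exact_mod_cast h7
  have h10 : (j : ℕ) < (i : ℕ) + 1 := by exact_mod_cast h8
  exact Fin.ext (by omega)

/-- the sum of the tents is at most one -/
theorem prb_sum {w τ : ℝ} (hw : 0 < w) (J : ℕ) :
    ∑ j : Fin J, tent w (2 * w * ((j : ℕ) + 1)) τ ≤ 1 := by
  by_cases h : ∃ j : Fin J, tent w (2 * w * ((j : ℕ) + 1)) τ ≠ 0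
  · obtain ⟨j, hj⟩ := h
    rw [Finset.sum_eq_single j]
    · exact prb_tent_le hw
    · intro i _ hij
      by_contra hi
      exact hij (prb_one hw hi hj)
    · intro h
      exact absurd (Finset.mem_univ j) h
  · push Not at h
    rw [Finset.sum_eq_zero (fun j _ => h j)]
    norm_num

theorem tPrB : S_PrB.{u} := by
  intro n J X _ a w ℓ R lam P S hw hℓ hR hlam hP h01 hS hSR
  have hz : Continuous (fun x => a (P x) x) := a.continuous hP continuous_id
  refine ⟨?_, ?_, ?_, ?_⟩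
  · unfold prog
    apply continuous_finsetSum
    intro j _
    have h1 : Continuous (fun x => tent w (2 * w * ((j : ℕ) + 1)) (-(P x 0))) :=
      (prb_tent_cont w _).comp (((continuous_apply 0).comp hP).neg)
    have h2 : Continuous (fun x => cut ℓ (P x)) := (prb_cut_cont ℓ).comp hP
    exact ((hlam.mul h1).mul h2).smul ((hS j).comp hz)
  · intro x
    unfold prog
    refine (norm_sum_le _ _).trans ?_
    have h1 : ∀ j : Fin J, ‖(lam x * tent w (2 * w * ((j : ℕ) + 1)) (-(P x 0)) * cut ℓ (P x)) •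
        S j (a (P x) x)‖ ≤ tent w (2 * w * ((j : ℕ) + 1)) (-(P x 0)) * R := by
      intro j
      rw [norm_smul, Real.norm_of_nonneg (mul_nonneg (mul_nonneg (h01 x).1 (prb_tent_nonneg _ _ _))
        (prb_cut_nonneg _ _))]
      apply mul_le_mul _ (hSR j _) (norm_nonneg _) (prb_tent_nonneg _ _ _)
      have ht := prb_tent_nonneg w (2 * w * ((j : ℕ) + 1)) (-(P x 0))
      calc lam x * tent w (2 * w * ((j : ℕ) + 1)) (-(P x 0)) * cut ℓ (P x)
          ≤ 1 * tent w (2 * w * ((j : ℕ) + 1)) (-(P x 0)) * 1 := by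
            apply mul_le_mul _ (prb_cut_le _ _) (prb_cut_nonneg _ _) (by positivity)
            exact mul_le_mul_of_nonneg_right (h01 x).2 ht
        _ = _ := by ring
    refine (Finset.sum_le_sum (fun j _ => h1 j)).trans ?_
    rw [← Finset.sum_mul]
    have := mul_le_mul_of_nonneg_right (prb_sum (τ := -(P x 0)) hw J) hR
    linarith
  · intro x hx
    unfold prog at hx
    obtain ⟨j, -, hj⟩ := Finset.exists_ne_zero_of_sum_ne_zero hx
    have h1 : lam x * tent w (2 * w * ((j : ℕ) + 1)) (-(P x 0)) * cut ℓ (P x) ≠ 0 := by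
      intro h
      rw [h, zero_smul] at hj
      exact hj rfl
    have h2 : cut ℓ (P x) ≠ 0 := right_ne_zero_of_mul h1
    have h3 : tent w (2 * w * ((j : ℕ) + 1)) (-(P x 0)) ≠ 0 :=
      right_ne_zero_of_mul (left_ne_zero_of_mul h1)
    have h4 : lam x ≠ 0 := left_ne_zero_of_mul (left_ne_zero_of_mul h1)
    have h5 := abs_lt.1 (prb_tent_ne hw h3)
    have hj0 : (0 : ℝ) ≤ ((j : ℕ) : ℝ) := Nat.cast_nonneg _
    have hjJ : ((j : ℕ) : ℝ) + 1 ≤ J := by exact_mod_cast j.2
    have h6 : 2 * w * 1 ≤ 2 * w * (((j : ℕ) : ℝ) + 1) := by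
      apply mul_le_mul_of_nonneg_left _ (by positivity)
      linarith
    have h7 : 2 * w * (((j : ℕ) : ℝ) + 1) ≤ 2 * w * J :=
      mul_le_mul_of_nonneg_left hjJ (by positivity)
    refine ⟨lt_of_le_of_ne (h01 x).1 (Ne.symm h4), ?_, ?_, prb_cut_ne hℓ h2⟩
    · linarith [h5.1]
    · linarith [h5.2]
  · intro x j hl hp ht
    unfold prog
    rw [hl, hp, prb_cut_one hℓ ht]
    have hself : tent w (2 * w * ((j : ℕ) + 1)) (2 * w * ((j : ℕ) + 1)) = 1 := by
      unfold tent
      rw [sub_self, abs_zero, zero_div, sub_zero]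
      norm_num
    rw [Finset.sum_eq_single j]
    · rw [hself]
      simp
    · intro i _ hij
      have : tent w (2 * w * ((i : ℕ) + 1)) (2 * w * ((j : ℕ) + 1)) = 0 := by
        by_contra h
        exact hij (prb_one hw h (by rw [hself]; norm_num))
      rw [this]
      simp
    · intro h
      exact absurd (Finset.mem_univ j) h

end Pool.Agent.MP98850d
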