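import Pool.Agent.Lib.MP_98850d_an.PrB

/-! # MP_98850d_an: the programme is slow -/

set_option autoImplicit false

namespace Pool.Agent.MP98850d

open Set Filter Topology

universe u

theorem prl_tent {w c τ τ' : ℝ} (hw : 0 < w) : |tent w c τ' - tent w c τ| ≤ |τ' - τ| / w := by
  unfold tent
  refine (abs_max_sub_max_le_max _ _ _ _).trans ?_
  rw [sub_self, abs_zero]
  apply max_le (by positivity)
  have h1 : (1 - |τ' - c| / w) - (1 - |τ - c| / w) = (|τ - c| - |τ' - c|) / w := by ring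
  rw [h1, abs_div, abs_of_pos hw]
  apply div_le_div_of_nonneg_right _ hw.le
  refine (abs_abs_sub_abs_le_abs_sub _ _).trans ?_
  rw [show τ - c - (τ' - c) = -(τ' - τ) by ring, abs_neg]

theorem prl_cut {n : ℕ} {ℓ : ℝ} {p u : E (n + 1)} (hℓ : 0 < ℓ) :
    |cut ℓ (p - u) - cut ℓ p| ≤ 8 * ‖Fin.tail u‖ / ℓ := by
  unfold cut
  refine (abs_max_sub_max_le_max _ _ _ _).trans ?_
  rw [sub_self, abs_zero]
  apply max_le (by positivity)
  refine (abs_min_sub_min_le_max _ _ _ _).trans ?_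
  rw [sub_self, abs_zero]
  apply max_le (by positivity)
  have h1 : (15 - 8 * ‖Fin.tail (p - u)‖ / ℓ) - (15 - 8 * ‖Fin.tail p‖ / ℓ) =
      (8 * (‖Fin.tail p‖ - ‖Fin.tail (p - u)‖)) / ℓ := by ring
  rw [h1, abs_div, abs_of_pos hℓ]
  apply div_le_div_of_nonneg_right _ hℓ.le
  rw [abs_mul, abs_of_pos (by norm_num : (0 : ℝ) < 8)]
  apply mul_le_mul_of_nonneg_left _ (by norm_num)
  refine (abs_norm_sub_norm_le _ _).trans (le_of_eq ?_)
  have h2 : Fin.tail p - Fin.tail (p - u) = Fin.tail u := by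
    funext i
    simp [Fin.tail]
  rw [h2]

theorem tPrL (hPrB : S_PrB.{u}) (hCh : S_Ch.{u}) : S_PrL.{u} := by
  intro n J X _ a A w ℓ R lam P S hw hℓ hR hA hbox hS hSR
  obtain ⟨hlam, hP, h01, hB⟩ := hbox
  obtain ⟨-, -, h3, -⟩ := hPrB n J X a w ℓ R lam P S hw hℓ hR hlam hP h01 hS hSR
  have hJ0 : (0 : ℝ) ≤ (J : ℝ) := Nat.cast_nonneg _
  have hwJ : 0 ≤ 2 * w * J := by positivity
  have hwA : w ≤ A := by linarith
  -- the main estimate
  have key : ∀ x u, ‖u‖ ≤ min (ℓ / 8) w → prog a w ℓ lam P S x ≠ 0 →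
      ‖prog a w ℓ lam P S (a u x) - prog a w ℓ lam P S x‖ ≤
        J * R / w * |u 0| + 8 * R / ℓ * ‖Fin.tail u‖ := by
    intro x u hu hx
    obtain ⟨hl, hw1, hw2, ht⟩ := h3 x hx
    have hu0 : |u 0| ≤ w := (norm_le_pi_norm u 0).trans (hu.trans (min_le_right _ _))
    have hut : ‖Fin.tail u‖ ≤ ℓ / 8 := (norm_tail_le u).trans (hu.trans (min_le_left _ _))
    have hp0 : |P x 0| ≤ A := by
      rw [abs_le]
      constructor <;> linarith
    have hpu : |P x 0 - u 0| ≤ 2 * A := (abs_sub _ _).trans (by linarith)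
    have htu : ‖Fin.tail (P x - u)‖ ≤ 2 * ℓ := by
      have h2 : Fin.tail (P x - u) = Fin.tail (P x) - Fin.tail u := by
        funext i
        simp [Fin.tail]
      rw [h2]
      exact (norm_sub_le _ _).trans (by linarith)
    obtain ⟨e1, e2⟩ := hB x u hl (by linarith [abs_nonneg (P x 0)]) (by linarith) hpu htu
    set z := a (P x) x with hz
    have e3 : a (P (a u x)) (a u x) = z := by
      rw [e2, act_sub]
    have e4 : prog a w ℓ lam P S (a u x) = ∑ j : Fin J, (lam x * tent w (2 * w * ((j : ℕ) + 1))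
        (-((P x - u) 0)) * cut ℓ (P x - u)) • S j z := by
      unfold prog
      rw [e3, e1, e2]
    have e5 : prog a w ℓ lam P S x = ∑ j : Fin J, (lam x * tent w (2 * w * ((j : ℕ) + 1))
        (-(P x 0)) * cut ℓ (P x)) • S j z := rfl
    rw [e4, e5, ← Finset.sum_sub_distrib]
    refine (norm_sum_le _ _).trans ?_
    have hj : ∀ j : Fin J, ‖(lam x * tent w (2 * w * ((j : ℕ) + 1)) (-((P x - u) 0)) *
        cut ℓ (P x - u)) • S j z - (lam x * tent w (2 * w * ((j : ℕ) + 1)) (-(P x 0)) *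
        cut ℓ (P x)) • S j z‖ ≤ R / w * |u 0| +
          tent w (2 * w * ((j : ℕ) + 1)) (-(P x 0)) * (8 * R / ℓ * ‖Fin.tail u‖) := by
      intro j
      rw [← sub_smul, norm_smul]
      set T' := tent w (2 * w * ((j : ℕ) + 1)) (-((P x - u) 0)) with hT'
      set T := tent w (2 * w * ((j : ℕ) + 1)) (-(P x 0)) with hT
      have hTT : |T' - T| ≤ |u 0| / w := by
        refine (prl_tent hw).trans (le_of_eq ?_)
        congr 1
        rw [Pi.sub_apply, show -(P x 0 - u 0) - -(P x 0) = u 0 by ring]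
      have hcc := prl_cut (p := P x) (u := u) hℓ
      have hT0 : 0 ≤ T := prb_tent_nonneg _ _ _
      have hc0 := prb_cut_nonneg ℓ (P x - u)
      have hc1 := prb_cut_le ℓ (P x - u)
      have e6 : lam x * T' * cut ℓ (P x - u) - lam x * T * cut ℓ (P x) =
          lam x * ((T' - T) * cut ℓ (P x - u) + T * (cut ℓ (P x - u) - cut ℓ (P x))) := by ring
      have e7 : ‖lam x * T' * cut ℓ (P x - u) - lam x * T * cut ℓ (P x)‖ ≤
          |u 0| / w + T * (8 * ‖Fin.tail u‖ / ℓ) := by
        rw [e6, Real.norm_eq_abs, abs_mul, abs_of_nonneg (h01 x).1]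
        have h4 : |(T' - T) * cut ℓ (P x - u) + T * (cut ℓ (P x - u) - cut ℓ (P x))| ≤
            |u 0| / w + T * (8 * ‖Fin.tail u‖ / ℓ) := by
          refine (abs_add_le _ _).trans ?_
          rw [abs_mul, abs_mul, abs_of_nonneg hc0, abs_of_nonneg hT0]
          apply add_le_add
          · calc |T' - T| * cut ℓ (P x - u) ≤ |T' - T| * 1 :=
                  mul_le_mul_of_nonneg_left hc1 (abs_nonneg _)
              _ ≤ _ := by rw [mul_one]; exact hTT
          · exact mul_le_mul_of_nonneg_left hcc hT0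
        calc lam x * _ ≤ 1 * |(T' - T) * cut ℓ (P x - u) + T * (cut ℓ (P x - u) - cut ℓ (P x))| :=
              mul_le_mul_of_nonneg_right (h01 x).2 (abs_nonneg _)
          _ ≤ _ := by rw [one_mul]; exact h4
      calc ‖lam x * T' * cut ℓ (P x - u) - lam x * T * cut ℓ (P x)‖ * ‖S j z‖
          ≤ (|u 0| / w + T * (8 * ‖Fin.tail u‖ / ℓ)) * R :=
            mul_le_mul e7 (hSR j z) (norm_nonneg _) ((norm_nonneg _).trans e7)
        _ = _ := by ring
    refine (Finset.sum_le_sum (fun j _ => hj j)).trans ?_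
    have hs1 : ∑ _j : Fin J, R / w * |u 0| = J * R / w * |u 0| := by
      rw [Finset.sum_const, Finset.card_univ, Fintype.card_fin, nsmul_eq_mul]
      ring
    have hs2 := Finset.sum_mul Finset.univ
      (fun j : Fin J => tent w (2 * w * ((j : ℕ) + 1)) (-(P x 0))) (8 * R / ℓ * ‖Fin.tail u‖)
    rw [Finset.sum_add_distrib, hs1, ← hs2]
    have h8 : 0 ≤ 8 * R / ℓ * ‖Fin.tail u‖ := by positivity
    have h9 := mul_le_mul_of_nonneg_right (prb_sum (τ := -(P x 0)) hw J) h8
    rw [one_mul] at h9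
    linarith
  apply hCh n (n + 1) X a (prog a w ℓ lam P S) (min (ℓ / 8) w) (J * R / w) (8 * R / ℓ)
    (lt_min (by positivity) hw)
  intro x u hu
  by_cases hx : prog a w ℓ lam P S x = 0
  · by_cases hx' : prog a w ℓ lam P S (a u x) = 0
    · rw [hx, hx', sub_zero, norm_zero]
      positivity
    · have h := key (a u x) (-u) (by rwa [norm_neg]) hx'
      rw [act_neg, norm_sub_rev] at h
      have h1 : |(-u) 0| = |u 0| := by rw [Pi.neg_apply, abs_neg]
      have h2 : ‖Fin.tail (-u)‖ = ‖Fin.tail u‖ := by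
        have : Fin.tail (-u) = -Fin.tail u := by
          funext i
          simp [Fin.tail]
        rw [this, norm_neg]
      rw [h1, h2] at h
      exact h
  · exact key x u hu hx

end Pool.Agent.MP98850d
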