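import Pool.Agent.Lib.MP_98850d_an.SpecB

/-! # MP_98850d_an: choice of the parameters -/

set_option autoImplicit false

namespace Pool.Agent.MP98850d

open Set Filter Topology

universe u

theorem tSel (hValL : S_ValL.{u}) (hNetV : S_NetV.{u}) (hUB : S_UB.{u}) (hNet : S_Net) :
    S_Sel.{u} := by
  classical
  intro n q N Q r hr hr8
  obtain ⟨A, hAQ, hA⟩ := hNet n Q r hr
  set c0 : ℝ := (Fintype.card ((Fin q × A) ⊕ (Fin q × Fin q × A × A × Bool)) : ℝ) with hc0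
  have hc0' : 0 ≤ c0 := Nat.cast_nonneg _
  refine ⟨((8 * c0 + 1) ^ N)⁻¹, by positivity, ?_⟩
  rintro X _ a b hbas ⟨κ, hκ, B, ε, hε, hcov, hsum, hosc⟩
  obtain ⟨hbc, hb01, hcls⟩ := hbas
  have hb0 : ∀ j x, 0 ≤ b j x := fun j x => (hb01 j x).1
  set val : ((Fin q × A) ⊕ (Fin q × Fin q × A × A × Bool)) → X → ℝ :=
    Sum.elim (fun p x => val1 a r (b p.1) (p.2 : E n) x)
      (fun p x => val2 a r (if p.2.2.2.2 = true then 8 else 1) (b p.1) (b p.2.1) (p.2.2.1 : E n)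
        (p.2.2.2.1 : E n) x) with hval
  set α : ((Fin q × A) ⊕ (Fin q × Fin q × A × A × Bool)) → ℝ :=
    Sum.elim (fun _ => 1 / 2) (fun _ => 1 / 4) with hα
  have hcQ : ∀ c : A, ‖(c : E n)‖ + 3 * r ≤ Q + 1 := by
    intro c
    have := hAQ c c.2
    linarith
  have hs : (8 * c0) ^ N * ∑ i, ε i ^ N < 1 := by
    have h1 : 0 ≤ ∑ i, ε i ^ N := Finset.sum_nonneg (fun i _ => by have := hε i; positivity)
    have h2 : (8 * c0) ^ N ≤ (8 * c0 + 1) ^ N := pow_le_pow_left₀ (by positivity) (by linarith) N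
    have h3 : 0 < (8 * c0 + 1) ^ N := by positivity
    calc (8 * c0) ^ N * ∑ i, ε i ^ N ≤ (8 * c0 + 1) ^ N * ∑ i, ε i ^ N :=
          mul_le_mul_of_nonneg_right h2 h1
      _ < (8 * c0 + 1) ^ N * ((8 * c0 + 1) ^ N)⁻¹ := mul_lt_mul_of_pos_left hsum h3
      _ = 1 := mul_inv_cancel₀ h3.ne'
  obtain ⟨s, hs01, hsx⟩ := hUB X N ((Fin q × A) ⊕ (Fin q × Fin q × A × A × Bool)) val α κ B ε hε
    (fun x => mem_iUnion.1 (hcov (mem_univ x))) (by
      rintro i x hx x' hx' (⟨j, c⟩ | ⟨j, j', c, c', W⟩)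
      · exact (hValL n X a r 0 (Q + 1) (ε i) (b j) (b j) c c x x' hr.le (hε i).le (hbc j) (hbc j)
          (hcQ c) (hcQ c) (fun u hu => hosc i x hx x' hx' j u hu)
          (fun u hu => hosc i x hx x' hx' j u hu)).1
      · exact (hValL n X a r (if W = true then 8 else 1) (Q + 1) (ε i) (b j) (b j') c c' x x' hr.le
          (hε i).le (hbc j) (hbc j') (hcQ c) (hcQ c') (fun u hu => hosc i x hx x' hx' j u hu)
          (fun u hu => hosc i x hx x' hx' j' u hu)).2) hs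
  refine ⟨s, hs01, fun x => ?_⟩
  obtain ⟨k, hk⟩ := hsx x
  refine ⟨k, ?_, ?_⟩
  · intro j u hu h14
    obtain ⟨c, hc, huc⟩ := hA u hu
    have h1 := (hNetV n X a r 0 (b j) (b j) c c u u x hr hr8 (hbc j) (hbc j) (hb0 j) (hb0 j)
      (hcls j) (hcls j) huc huc (by linarith) (by linarith)).1
    rw [h1]
    exact hk (Sum.inl (j, ⟨c, hc⟩))
  · intro W hW j i u v hu hv h14 h14'
    obtain ⟨c, hc, huc⟩ := hA u hu
    obtain ⟨c', hc', hvc⟩ := hA v hv
    have h1 := (hNetV n X a r W (b j) (b i) c c' u v x hr hr8 (hbc j) (hbc i) (hb0 j) (hb0 i)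
      (hcls j) (hcls i) huc hvc (by linarith) (by linarith)).2
    rw [h1]
    rcases hW with rfl | rfl
    · have := hk (Sum.inr (j, i, ⟨c, hc⟩, ⟨c', hc'⟩, false))
      simpa [hval, hα] using this
    · have := hk (Sum.inr (j, i, ⟨c, hc⟩, ⟨c', hc'⟩, true))
      simpa [hval, hα] using this

end Pool.Agent.MP98850d
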