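import Pool.Agent.Lib.MP_98850d_an.SpecB

/-! # MP_98850d_an: the values at the nodes -/

set_option autoImplicit false

namespace Pool.Agent.MP98850d

open Set Filter Topology

universe u

theorem tSlot (hGrid : S_Grid.{u}) (hLoc : S_Loc.{u}) : S_Slot.{u} := by
  classical
  intro n m X _ _ a ι U R r F I _ t s0 y0 hι hιinj hU hTP hr hF hslow
  rcases isEmpty_or_nonempty X with hX | hX
  · exact ⟨fun _ _ _ => 0, fun _ _ => continuous_const, fun _ _ z => (hX.false z).elim,
      fun z => (hX.false z).elim⟩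
  choose O hO σ hσ hS using fun (z0 : X) (i : I) (β : Fin (2 ^ m)) =>
    hLoc n X a U R r F (t i β) (s0 i) (y0 i) z0 hU hTP hr hF hslow
  obtain ⟨κ, _, g, hgc, hg01, hgone, hgO, hg1⟩ := hGrid m X ι (fun z0 => ⋂ i, ⋂ β, O z0 i β) hι hιinj
    (fun z0 => iInter_mem.2 (fun i => iInter_mem.2 (fun β => hO z0 i β)))
  have hR : 0 ≤ R := by
    obtain ⟨w, hw, -⟩ := hTP hX.some
    exact (norm_nonneg w).trans hw
  have hc : ∀ β k, ∃ c, ∀ z, g β k z ≠ 0 → z ∈ ⋂ i, ⋂ β, O c i β := by
    intro β k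
    by_cases h : ∃ z, g β k z ≠ 0
    · exact hgO β k h
    · exact ⟨hX.some, fun z hz => absurd ⟨z, hz⟩ h⟩
  choose c hc using hc
  have hsum : ∀ (i : I) (β : Fin (2 ^ m)) (z : X) (k : κ), g β k z ≠ 0 →
      ∑ k, g β k z • σ (c β k) i β = g β k z • σ (c β k) i β := by
    intro i β z k hk
    apply Finset.sum_eq_single k
    · intro k' _ hne
      have : g β k' z = 0 := by
        by_contra h
        exact hne (hgone β k' k z h hk)
      rw [this, zero_smul]
    · intro h
      exact absurd (Finset.mem_univ k) h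
  refine ⟨fun i β z => ∑ k, g β k z • σ (c β k) i β, ?_, ?_, ?_⟩
  · intro i β
    exact continuous_finsetSum _ (fun k _ => (hgc β k).smul continuous_const)
  · intro i β z
    by_cases h : ∃ k, g β k z ≠ 0
    · obtain ⟨k, hk⟩ := h
      change ‖∑ k, g β k z • σ (c β k) i β‖ ≤ R
      rw [hsum i β z k hk, norm_smul, Real.norm_of_nonneg (hg01 β k z).1]
      calc g β k z * ‖σ (c β k) i β‖ ≤ 1 * R :=
            mul_le_mul (hg01 β k z).2 (hσ _ _ _) (norm_nonneg _) zero_le_one
        _ = R := one_mul R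
    · push Not at h
      have : ∑ k, g β k z • σ (c β k) i β = 0 :=
        Finset.sum_eq_zero (fun k _ => by rw [h k, zero_smul])
      change ‖∑ k, g β k z • σ (c β k) i β‖ ≤ R
      rw [this, norm_zero]
      exact hR
  · intro z
    obtain ⟨β, k, hk⟩ := hg1 z
    have hk0 : g β k z ≠ 0 := by rw [hk]; exact one_ne_zero
    refine ⟨β, fun i => ?_⟩
    change Succ a U r F (t i β) (s0 i) (y0 i) z (∑ k, g β k z • σ (c β k) i β)
    rw [hsum i β z k hk0, hk, one_smul]
    have hz := hc β k z hk0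
    simp only [mem_iInter] at hz
    exact hS (c β k) i β z (hz i β)

end Pool.Agent.MP98850d
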