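import Pool.Agent.Lib.MP_98850d_an.SpecB

/-! # MP_98850d_an: the target property -/

set_option autoImplicit false

namespace Pool.Agent.MP98850d

open Set Filter Topology

universe u

theorem tTP : S_TP.{u} := by
  intro n X _ _ a U hmin hU hne
  have main : ∃ R r : ℝ, 0 < R ∧ 0 < r ∧ ∀ x ∈ (univ : Set X), ∃ w : E n, ‖w‖ ≤ R ∧
      ∀ e : E n, ‖e‖ ≤ 2 * r → a (w + e) x ∈ U := by
    refine isCompact_univ.induction_on (p := fun S : Set X => ∃ R r : ℝ, 0 < R ∧ 0 < r ∧ ∀ x ∈ S,
      ∃ w : E n, ‖w‖ ≤ R ∧ ∀ e : E n, ‖e‖ ≤ 2 * r → a (w + e) x ∈ U) ?_ ?_ ?_ ?_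
    · exact ⟨1, 1, one_pos, one_pos, fun x hx => absurd hx (notMem_empty x)⟩
    · rintro s t hst ⟨R, r, hR, hr, h⟩
      exact ⟨R, r, hR, hr, fun x hx => h x (hst hx)⟩
    · rintro s t ⟨R, r, hR, hr, h⟩ ⟨R', r', hR', hr', h'⟩
      refine ⟨max R R', min r r', lt_max_of_lt_left hR, lt_min hr hr', ?_⟩
      rintro x (hx | hx)
      · obtain ⟨w, hw, he⟩ := h x hx
        exact ⟨w, hw.trans (le_max_left _ _), fun e h1 => he e (h1.trans
          (mul_le_mul_of_nonneg_left (min_le_left _ _) (by norm_num)))⟩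
      · obtain ⟨w, hw, he⟩ := h' x hx
        exact ⟨w, hw.trans (le_max_right _ _), fun e h1 => he e (h1.trans
          (mul_le_mul_of_nonneg_left (min_le_right _ _) (by norm_num)))⟩
    · intro x _
      obtain ⟨_, ⟨w, rfl⟩, hw⟩ := (hmin x).exists_mem_open hU hne
      have hop : IsOpen {p : E n × X | a (w + p.1) p.2 ∈ U} :=
        hU.preimage (a.continuous (continuous_const.add continuous_fst) continuous_snd)
      have hmem : ((0 : E n), x) ∈ {p : E n × X | a (w + p.1) p.2 ∈ U} := by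
        simpa using hw
      obtain ⟨ε, hε, hball⟩ := Metric.isOpen_iff.1 hop _ hmem
      refine ⟨Metric.ball x ε, mem_nhdsWithin_of_mem_nhds (Metric.ball_mem_nhds x hε), ‖w‖ + 1, ε / 4,
        by positivity, by positivity, ?_⟩
      intro x' hx'
      refine ⟨w, by linarith, fun e he => ?_⟩
      have : ((e, x') : E n × X) ∈ Metric.ball ((0 : E n), x) ε := by
        rw [← ball_prod_same]
        refine ⟨?_, hx'⟩
        rw [mem_ball_zero_iff]
        linarith
      exact hball this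
  obtain ⟨R, r, hR, hr, h⟩ := main
  exact ⟨R, r, hR, hr, fun x => h x (mem_univ x)⟩

end Pool.Agent.MP98850d
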