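import Pool.Agent.Lib.MP_98850d_an.SpecB

/-! # MP_98850d_an: the theorem for compact spaces which embed in `ℝ^m` -/

set_option autoImplicit false

namespace Pool.Agent.MP98850d

open Set Filter Topology

universe u

theorem tTop (hMet : S_Met.{u}) : S_Top.{u} := by
  intro n m X _ _ a ι hmin hι hιinj
  have hemb : IsEmbedding ι := (hι.isClosedEmbedding hιinj).isEmbedding
  let _ : MetricSpace X := hemb.comapMetricSpace ι
  exact hMet n m X a ι hmin hι hιinj

end Pool.Agent.MP98850d
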