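import Pool.Agent.Lib.MP_98850d_an.SpecB

/-! # MP_98850d_an: the types -/

set_option autoImplicit false

namespace Pool.Agent.MP98850d

open Set Filter Topology

universe u

theorem tTyp (hNbd : S_Nbd.{u}) (hNF : S_NF.{u}) (hBmp : S_Bmp.{u}) : S_Typ.{u} := by
  intro n m X _ _ a ι r hfree hι hιinj hr
  choose V hV hxV hVc using fun x0 : X => hNbd n X a r 20 x0 hfree hr
  obtain ⟨t, ht⟩ := CompactSpace.elim_nhds_subcover V (fun x => (hV x).mem_nhds (hxV x))
  set V' : Fin t.card → Set X := fun j => V (t.equivFin.symm j) with hV'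
  have hcov : (⋃ j, V' j) = univ := by
    rw [eq_univ_iff_forall]
    intro x
    have hx : x ∈ ⋃ x ∈ t, V x := by rw [ht]; exact mem_univ x
    simp only [mem_iUnion, exists_prop] at hx
    obtain ⟨y, hy, hxy⟩ := hx
    refine mem_iUnion.2 ⟨t.equivFin ⟨y, hy⟩, ?_⟩
    rw [hV']
    simp only [Equiv.symm_apply_apply]
    exact hxy
  obtain ⟨β, hβc, hβ01, hβ0, hβ1⟩ := hBmp t.card X V' (fun j => hV _) hcov
  refine ⟨t.card, fun Q η hη => ?_⟩
  obtain ⟨β', hβ'c, hβ', κ, hκ, B, ε, hε, hBcov, hsum, hosc⟩ := hNF n m t.card X a ι Q β (1 / 16) η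
    hfree hι hιinj hβc (by norm_num) hη
  refine ⟨fun j x => max 0 (min 1 (β' j x - 1 / 16)), ⟨?_, ?_, ?_⟩, ?_, κ, hκ, B, ε, hε, hBcov, hsum, ?_⟩
  · intro j
    exact continuous_const.max (continuous_const.min ((hβ'c j).sub continuous_const))
  · intro j x
    exact ⟨le_max_left _ _, max_le zero_le_one (min_le_left _ _)⟩
  · intro j x u hx hux hu
    have hpos : ∀ y, 0 < max 0 (min 1 (β' j y - 1 / 16)) → y ∈ V' j := by
      intro y hy
      by_contra hcon
      have h1 := hβ0 j y hcon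
      have h2 := (abs_lt.1 (hβ' j y)).2
      rw [h1] at h2
      rcases lt_max_iff.1 hy with h | h
      · exact lt_irrefl _ h
      · have := (lt_min_iff.1 h).2
        linarith
    exact hVc _ x u (hpos x hx) (hpos _ hux) hu
  · intro x
    obtain ⟨j, hj⟩ := hβ1 x
    refine ⟨j, ?_⟩
    have h2 := (abs_lt.1 (hβ' j x)).1
    rw [hj] at h2
    refine lt_max_of_lt_right (lt_min (by norm_num) ?_)
    linarith
  · intro i x hx x' hx' j u hu
    refine (abs_max_sub_max_le_max _ _ _ _).trans ?_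
    rw [sub_self, abs_zero]
    apply max_le (hε i).le
    refine (abs_min_sub_min_le_max _ _ _ _).trans ?_
    rw [sub_self, abs_zero]
    apply max_le (hε i).le
    rw [sub_sub_sub_cancel_right]
    exact hosc i x hx x' hx' j u hu

end Pool.Agent.MP98850d
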