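import Pool.Agent.Lib.MP_98850d_an.SpecB

/-! # MP_98850d_an: suprema are 1-Lipschitz -/

set_option autoImplicit false

namespace Pool.Agent.MP98850d

open Set Filter Topology

universe u

theorem vall_sup {T : Type} [TopologicalSpace T] {K : Set T} (hK : IsCompact K) (hne : K.Nonempty)
    {g g' : T → ℝ} (hg : Continuous g) (hg' : Continuous g') {ε : ℝ}
    (h : ∀ t ∈ K, |g t - g' t| ≤ ε) : |sSup (g '' K) - sSup (g' '' K)| ≤ ε := by
  have key : ∀ {g g' : T → ℝ}, Continuous g → Continuous g' → (∀ t ∈ K, |g t - g' t| ≤ ε) →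
      sSup (g '' K) ≤ sSup (g' '' K) + ε := by
    intro g g' _ hg' h
    apply csSup_le (hne.image g)
    rintro _ ⟨t, ht, rfl⟩
    have h1 := le_csSup (hK.image hg').bddAbove ⟨t, ht, rfl⟩
    have h2 := (abs_le.1 (h t ht)).2
    linarith
  have h1 := key hg hg' h
  have h2 := key hg' hg (fun t ht => by rw [abs_sub_comm]; exact h t ht)
  rw [abs_le]
  constructor <;> linarith

theorem tValL : S_ValL.{u} := by
  intro n X _ a r W Q ε b b' c c' x x' hr hε hb hb' hc hc' h h'
  have hmem : ∀ (c u : E n), ‖c‖ + 3 * r ≤ Q → u ∈ Metric.closedBall c (3 * r) → ‖u‖ ≤ Q := by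
    intro c u hc hu
    rw [Metric.mem_closedBall, dist_eq_norm] at hu
    calc ‖u‖ = ‖(u - c) + c‖ := by rw [sub_add_cancel]
      _ ≤ ‖u - c‖ + ‖c‖ := norm_add_le _ _
      _ ≤ Q := by linarith
  refine ⟨?_, ?_⟩
  · unfold val1
    apply vall_sup (isCompact_closedBall c (3 * r)) ⟨c, Metric.mem_closedBall_self (by positivity)⟩
    · exact hb.comp (a.continuous continuous_id continuous_const)
    · exact hb.comp (a.continuous continuous_id continuous_const)
    · intro u hu
      exact h u (hmem c u hc hu)
  · unfold val2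
    have hcont : ∀ y : X, Continuous (fun p : E n × E n => min (b (a p.1 y)) (min (b' (a p.2 y))
        (kap W (p.2 - p.1)))) := by
      intro y
      have h1 : Continuous (fun z : E n × E n => b (a z.1 y)) :=
        hb.comp (a.continuous (by fun_prop) (by fun_prop))
      have h2 : Continuous (fun z : E n × E n => b' (a z.2 y)) :=
        hb'.comp (a.continuous (by fun_prop) (by fun_prop))
      have h3 : Continuous (fun z : E n × E n => kap W (z.2 - z.1)) :=
        (kap_cont W).comp (by fun_prop)
      exact h1.min (h2.min h3)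
    apply vall_sup ((isCompact_closedBall c (3 * r)).prod (isCompact_closedBall c' (3 * r)))
      ⟨(c, c'), Metric.mem_closedBall_self (by positivity), Metric.mem_closedBall_self (by positivity)⟩
      (hcont x) (hcont x')
    rintro ⟨u, v⟩ ⟨hu, hv⟩
    refine (abs_min_sub_min_le_max _ _ _ _).trans (max_le (h u (hmem c u hc hu)) ?_)
    refine (abs_min_sub_min_le_max _ _ _ _).trans (max_le (h' v (hmem c' v hc' hv)) ?_)
    rw [sub_self, abs_zero]
    exact hε

end Pool.Agent.MP98850d
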