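import Pool.Agent.Lib.MP_98850d_an.Nbd
import Pool.Agent.Lib.MP_98850d_an.LocP
import Pool.Agent.Lib.MP_98850d_an.Lip
import Pool.Agent.Lib.MP_98850d_an.Cube
import Pool.Agent.Lib.MP_98850d_an.CovD
import Pool.Agent.Lib.MP_98850d_an.CovO
import Pool.Agent.Lib.MP_98850d_an.NF
import Pool.Agent.Lib.MP_98850d_an.Bmp
import Pool.Agent.Lib.MP_98850d_an.Typ
import Pool.Agent.Lib.MP_98850d_an.ValL
import Pool.Agent.Lib.MP_98850d_an.NetV
import Pool.Agent.Lib.MP_98850d_an.UB
import Pool.Agent.Lib.MP_98850d_an.Net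
import Pool.Agent.Lib.MP_98850d_an.Sel
import Pool.Agent.Lib.MP_98850d_an.StE
import Pool.Agent.Lib.MP_98850d_an.HI
import Pool.Agent.Lib.MP_98850d_an.CI
import Pool.Agent.Lib.MP_98850d_an.Pk
import Pool.Agent.Lib.MP_98850d_an.LC
import Pool.Agent.Lib.MP_98850d_an.GO
import Pool.Agent.Lib.MP_98850d_an.Grd
import Pool.Agent.Lib.MP_98850d_an.Opn
import Pool.Agent.Lib.MP_98850d_an.Bk
import Pool.Agent.Lib.MP_98850d_an.Hat
import Pool.Agent.Lib.MP_98850d_an.Box
import Pool.Agent.Lib.MP_98850d_an.BoxA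
import Pool.Agent.Lib.MP_98850d_an.Grid
import Pool.Agent.Lib.MP_98850d_an.Loc
import Pool.Agent.Lib.MP_98850d_an.Slot
import Pool.Agent.Lib.MP_98850d_an.Ch
import Pool.Agent.Lib.MP_98850d_an.PrB
import Pool.Agent.Lib.MP_98850d_an.PrL
import Pool.Agent.Lib.MP_98850d_an.Lev
import Pool.Agent.Lib.MP_98850d_an.TP
import Pool.Agent.Lib.MP_98850d_an.Fld
import Pool.Agent.Lib.MP_98850d_an.Hom
import Pool.Agent.Lib.MP_98850d_an.Lim
import Pool.Agent.Lib.MP_98850d_an.Fre
import Pool.Agent.Lib.MP_98850d_an.MS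
import Pool.Agent.Lib.MP_98850d_an.Dn
import Pool.Agent.Lib.MP_98850d_an.Drop
import Pool.Agent.Lib.MP_98850d_an.Met
import Pool.Agent.Lib.MP_98850d_an.Top
import Pool.Agent.Lib.MP_98850d_an.Emb

/-!
# MP_98850d_an: the assembly
-/

set_option autoImplicit false

namespace Pool.Agent.MP98850d

open Set Filter Topology

universe u

theorem main_Typ : S_Typ.{u} :=
  tTyp tNbd (tNF (tLocP tNbd) (tCovD tLip tCube) tCovO) tBmp

theorem main_Sel : S_Sel.{u} := tSel tValL tNetV tUB tNet

theorem main_Box : S_Box.{u} := by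
  have hCI : S_CI.{u} := tCI tHI
  have hPk : S_Pk.{u} := tPk tHI hCI
  have hLC : S_LC.{u} := tLC tHI hCI hPk tGO
  exact tBox (tOpn main_Typ main_Sel (tGrd tStE hCI hPk hLC tGO)) tBk tHat

theorem main_Lev : S_Lev.{u} := tLev tNet (tSlot tGrid tLoc) tPrB (tPrL tPrB tCh)

theorem main_Fre : S_Fre.{u} := tFre tTP (tFld (tBoxA main_Box) main_Lev) tHom tLim

theorem main_Top : S_Top.{u} := tTop (tMet main_Fre (tDrop (tDn tMS)))

/-- a compact space which embeds in some `ℝ^m` and carries a minimal action of `ℝ^n` carries a minimal flow -/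
theorem main_emb (n m : ℕ) (X : Type u) [TopologicalSpace X] [CompactSpace X]
    (a : Flow (Fin n → ℝ) X) (ι : X → (Fin m → ℝ)) (hι : Continuous ι) (hinj : Function.Injective ι)
    (hmin : ∀ x, Dense (range fun u => a u x)) :
    ∃ φ : Flow ℝ X, ∀ x, Dense (range fun t => φ t x) := by
  cases n with
  | zero =>
    refine ⟨{ toFun := fun _ x => x
              cont' := continuous_snd
              map_add' := fun _ _ _ => rfl
              map_zero' := fun _ => rfl }, fun x => (hmin x).mono ?_⟩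
    rintro _ ⟨u, rfl⟩
    refine ⟨0, ?_⟩
    have hu : u = 0 := Subsingleton.elim _ _
    change x = a u x
    rw [hu]
    exact (a.map_zero_apply x).symm
  | succ n => exact main_Top n m X a ι hmin hι hinj

/-- a compact manifold carries a minimal flow if it carries a minimal action of some `ℝ^n` -/
theorem main_manifold (d n : ℕ) (M : Type u) [TopologicalSpace M] [T2Space M] [CompactSpace M]
    [ChartedSpace (EuclideanSpace ℝ (Fin d)) M] (a : Flow (Fin n → ℝ) M)
    (hmin : ∀ x, Dense (range fun u => a u x)) :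
    ∃ φ : Flow ℝ M, ∀ x, Dense (range fun t => φ t x) := by
  obtain ⟨m, ι, hι, hinj⟩ := tEmb d M
  exact main_emb n m M a ι hι hinj hmin

end Pool.Agent.MP98850d
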