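import Pool.Agent.Lib.MP_98850d_an.SpecB

/-! # MP_98850d_an: small neighbourhoods for a free action -/

set_option autoImplicit false

namespace Pool.Agent.MP98850d

open Set Filter Topology

universe u

theorem tNbd : S_Nbd.{u} := by
  intro n X _ a r w x0 hfree hr
  have hK : IsCompact ({u : E n | r ≤ ‖u‖} ∩ Metric.closedBall (0 : E n) w) :=
    (isCompact_closedBall 0 w).inter_left (isClosed_le continuous_const continuous_norm)
  have hev : ∀ᶠ p : X × X in 𝓝 (x0, x0), ∀ u ∈ ({u : E n | r ≤ ‖u‖} ∩ Metric.closedBall (0 : E n) w),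
      a u p.1 ≠ p.2 := by
    apply hK.eventually_forall_of_forall_eventually
    rintro u ⟨hu, -⟩
    have hop : IsOpen {z : (X × X) × E n | a z.2 z.1.1 ≠ z.1.2} :=
      isOpen_ne_fun (a.continuous (by fun_prop) (by fun_prop)) (by fun_prop)
    apply hop.mem_nhds
    intro h
    have h1 := hfree u x0 h
    change r ≤ ‖u‖ at hu
    rw [h1, norm_zero] at hu
    linarith
  obtain ⟨ε, hε, hball⟩ := Metric.eventually_nhds_iff_ball.1 hev
  refine ⟨Metric.ball x0 ε, Metric.isOpen_ball, Metric.mem_ball_self hε, ?_⟩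
  intro x u hx hux hu
  by_contra hcon
  push Not at hcon
  have hmem : ((x, a u x) : X × X) ∈ Metric.ball (x0, x0) ε := by
    rw [← ball_prod_same]
    exact ⟨hx, hux⟩
  exact hball _ hmem u ⟨hcon, by simpa using hu⟩ rfl

end Pool.Agent.MP98850d
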