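import Pool.Agent.Lib.MP_98850d_an.SpecB

/-! # MP_98850d_an: finite nets of balls -/

set_option autoImplicit false

namespace Pool.Agent.MP98850d

open Set Filter Topology

theorem tNet : S_Net := by
  intro n M r hr
  obtain ⟨t, ht, hcov⟩ := (isCompact_closedBall (0 : E n) M).elim_nhds_subcover
    (fun c => Metric.ball c r) (fun c _ => Metric.ball_mem_nhds c hr)
  refine ⟨t, fun c hc => by simpa using ht c hc, fun u hu => ?_⟩
  have h1 := hcov (show u ∈ Metric.closedBall (0 : E n) M by simpa using hu)
  simp only [mem_iUnion, Metric.mem_ball, exists_prop] at h1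
  obtain ⟨c, hc, hd⟩ := h1
  exact ⟨c, hc, by rw [← dist_eq_norm]; exact hd.le⟩

end Pool.Agent.MP98850d
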